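import Mathlib

/-!
The group `G2` of pairs of affine isometries `z ↦ l z + t` of `ℂ`, its character `rho`
(product of the two linear parts) and the cross product of positions.
-/

namespace Pool.Agent.Lib.MP_50ef00_gt.H65

/-- affine isometries `z ↦ lin * z + tr` of `ℂ` (orientation preserving) -/
@[ext] structure Aff where
  /-- linear part -/
  lin : Circle
  /-- translation part -/
  tr : ℂ

namespace Aff

noncomputable instance : Mul Aff := ⟨fun g h => ⟨g.lin * h.lin, g.tr + g.lin * h.tr⟩⟩
noncomputable instance : One Aff := ⟨⟨1, 0⟩⟩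
noncomputable instance : Inv Aff := ⟨fun g => ⟨g.lin⁻¹, -((g.lin⁻¹ : Circle) : ℂ) * g.tr⟩⟩

@[simp] theorem mul_lin (g h : Aff) : (g * h).lin = g.lin * h.lin := rfl
@[simp] theorem mul_tr (g h : Aff) : (g * h).tr = g.tr + g.lin * h.tr := rfl
@[simp] theorem one_lin : (1 : Aff).lin = 1 := rfl
@[simp] theorem one_tr : (1 : Aff).tr = 0 := rfl
@[simp] theorem inv_lin (g : Aff) : (g⁻¹).lin = g.lin⁻¹ := rfl
@[simp] theorem inv_tr (g : Aff) : (g⁻¹).tr = -((g.lin⁻¹ : Circle) : ℂ) * g.tr := rfl

noncomputable instance : Group Aff := Group.ofLeftAxioms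
  (by intro a b c; ext1 <;> simp [mul_assoc]; ring)
  (by intro a; ext1 <;> simp)
  (by intro a; ext1 <;> simp)

end Aff

/-- pairs of affine isometries -/
abbrev G2 := Aff × Aff

/-- the character: product of the two linear parts -/
noncomputable def rho (g : G2) : ℂ := ((g.1.lin * g.2.lin : Circle) : ℂ)

@[simp] theorem rho_one : rho 1 = 1 := by simp [rho]

theorem rho_mul (g h : G2) : rho (g * h) = rho g * rho h := by
  simp only [rho, Prod.fst_mul, Prod.snd_mul, Aff.mul_lin, Circle.coe_mul]
  ring

theorem norm_rho (g : G2) : ‖rho g‖ = 1 := by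
  unfold rho; exact Circle.norm_coe _

theorem rho_ne_zero (g : G2) : rho g ≠ 0 := by
  intro h
  have := norm_rho g
  rw [h, norm_zero] at this
  exact zero_ne_one this

/-- the position of the origin: `g • 0` -/
def pos (g : G2) : ℂ × ℂ := (g.1.tr, g.2.tr)

@[simp] theorem pos_one : pos 1 = 0 := rfl

theorem pos_mul (g h : G2) :
    pos (g * h) = ((pos g).1 + g.1.lin * (pos h).1, (pos g).2 + g.2.lin * (pos h).2) := rfl

/-- the determinant of two vectors -/
def cross (p q : ℂ × ℂ) : ℂ := p.1 * q.2 - p.2 * q.1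

theorem cross_self (p : ℂ × ℂ) : cross p p = 0 := by unfold cross; ring
theorem cross_swap (p q : ℂ × ℂ) : cross q p = -cross p q := by unfold cross; ring
@[simp] theorem cross_zero_left (p : ℂ × ℂ) : cross 0 p = 0 := by simp [cross]
@[simp] theorem cross_zero_right (p : ℂ × ℂ) : cross p 0 = 0 := by simp [cross]

/-- moving a triangle with one vertex at the origin -/
theorem cross_move (g h k : G2) :
    cross (pos (g * h)) (pos (g * k)) + cross (pos (g * k)) (pos g) + cross (pos g) (pos (g * h))
      = rho g * cross (pos h) (pos k) := by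
  simp only [pos_mul, cross, rho, Circle.coe_mul]
  ring

end Pool.Agent.Lib.MP_50ef00_gt.H65
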