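import Mathlib

/-!
Torsion of based `ℤ/2`-graded acyclic complexes over `ℂ` (absolute value squared).

`α` = basis of the even part, `β` = basis of the odd part,
`D₁ : Matrix α β ℂ` = the differential odd → even, `D₀ : Matrix β α ℂ` = the differential even → odd.
`IsTors D₁ D₀ r` : the complex is acyclic and `r = det (Aᴴ A)`, `A = D₁ + d₁`, for a special
contraction `(d₁, d₀)`.
-/

namespace Pool.Agent.Lib.MP_50ef00_gt.H65

open Matrix Polynomial

section basics

variable {n : Type*} [Fintype n] [DecidableEq n]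

theorem det_one_sub_of_nilpotent (M : Matrix n n ℂ) (hM : IsNilpotent M) : (1 - M).det = 1 := by
  have h := isUnit_charpolyRev_of_isNilpotent hM
  obtain ⟨c, -, hc⟩ := Polynomial.isUnit_iff.mp h
  have h0 : M.charpolyRev.eval 0 = 1 := by simp
  have h1 : M.charpolyRev.eval 1 = (1 - M).det := by
    rw [charpolyRev, ← Polynomial.coe_evalRingHom, RingHom.map_det]
    congr 1
    ext i j
    by_cases hij : i = j <;> simp [hij]
  rw [← h1, ← hc, Polynomial.eval_C, ← h0, ← hc, Polynomial.eval_C]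

theorem det_one_add_of_sq_zero (N : Matrix n n ℂ) (hN : N * N = 0) : (1 + N).det = 1 := by
  have := det_one_sub_of_nilpotent (-N) ⟨2, by simp [pow_two, hN]⟩
  simpa using this

end basics

variable {α β : Type*} [Fintype α] [Fintype β] [DecidableEq α] [DecidableEq β]

/-- Change of the Gram determinant under left multiplication, for an invertible rectangular
matrix. -/
theorem gram_mul (g : Matrix α α ℂ) (A : Matrix α β ℂ) (B : Matrix β α ℂ)
    (hAB : A * B = 1) (hBA : B * A = 1) :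
    ((g * A)ᴴ * (g * A)).det = (star g.det * g.det) * (Aᴴ * A).det := by
  have e1 : Aᴴ * Bᴴ = 1 := by rw [← conjTranspose_mul, hBA, conjTranspose_one]
  have e2 : Bᴴ * Aᴴ = 1 := by rw [← conjTranspose_mul, hAB, conjTranspose_one]
  have h1 : ((g * A)ᴴ * (g * A)).det = (gᴴ * g * (A * Aᴴ)).det := by
    rw [conjTranspose_mul, Matrix.mul_assoc, det_comm' e1 e2]
    simp only [Matrix.mul_assoc]
  have h2 : (Aᴴ * A).det = (A * Aᴴ).det := det_comm' e1 e2
  rw [h1, h2, det_mul, det_mul, det_conjTranspose]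

omit [DecidableEq α] in
/-- right multiplication -/
theorem gram_mul_right (A : Matrix α β ℂ) (u : Matrix β β ℂ) :
    ((A * u)ᴴ * (A * u)).det = (star u.det * u.det) * (Aᴴ * A).det := by
  rw [conjTranspose_mul, Matrix.mul_assoc, ← Matrix.mul_assoc Aᴴ, det_mul, det_mul,
    det_conjTranspose]
  ring

/-- special contraction of a `ℤ/2`-graded complex -/
structure SC (D₁ : Matrix α β ℂ) (D₀ : Matrix β α ℂ) (d₁ : Matrix α β ℂ) (d₀ : Matrix β α ℂ) :
    Prop where
  hα : D₁ * d₀ + d₁ * D₀ = 1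
  hβ : D₀ * d₁ + d₀ * D₁ = 1
  h1 : d₁ * d₀ = 0
  h0 : d₀ * d₁ = 0

/-- `r` is the torsion (squared modulus) of the based complex. -/
def IsTors (D₁ : Matrix α β ℂ) (D₀ : Matrix β α ℂ) (r : ℂ) : Prop :=
  D₁ * D₀ = 0 ∧ D₀ * D₁ = 0 ∧ ∃ d₁ d₀, SC D₁ D₀ d₁ d₀ ∧ ((D₁ + d₁)ᴴ * (D₁ + d₁)).det = r

theorem SC.mul_eq_one {D₁ : Matrix α β ℂ} {D₀ : Matrix β α ℂ} {d₁ : Matrix α β ℂ}
    {d₀ : Matrix β α ℂ} (h : SC D₁ D₀ d₁ d₀) (h1 : D₁ * D₀ = 0) :
    (D₁ + d₁) * (D₀ + d₀) = 1 := by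
  rw [Matrix.add_mul, Matrix.mul_add, Matrix.mul_add, h1, h.h1, zero_add, add_zero, h.hα]

theorem SC.mul_eq_one' {D₁ : Matrix α β ℂ} {D₀ : Matrix β α ℂ} {d₁ : Matrix α β ℂ}
    {d₀ : Matrix β α ℂ} (h : SC D₁ D₀ d₁ d₀) (h0 : D₀ * D₁ = 0) :
    (D₀ + d₀) * (D₁ + d₁) = 1 := by
  rw [Matrix.add_mul, Matrix.mul_add, Matrix.mul_add, h0, h.h0, zero_add, add_zero, h.hβ]

/-- uniqueness of the torsion -/
theorem IsTors.unique {D₁ : Matrix α β ℂ} {D₀ : Matrix β α ℂ} {r s : ℂ}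
    (hr : IsTors D₁ D₀ r) (hs : IsTors D₁ D₀ s) : r = s := by
  obtain ⟨h1, h0, d₁, d₀, hd, rfl⟩ := hr
  obtain ⟨-, -, e₁, e₀, he, rfl⟩ := hs
  -- `U = (D₀ + e₀) (D₁ + d₁)`, `D₁ + d₁ = (D₁ + e₁) U`
  set U : Matrix β β ℂ := (D₀ + e₀) * (D₁ + d₁) with hU
  have hA : D₁ + d₁ = (D₁ + e₁) * U := by
    rw [hU, ← Matrix.mul_assoc, he.mul_eq_one h1, Matrix.one_mul]
  have key : U = (1 + (e₀ - d₀) * D₁) * (1 - d₀ * ((e₁ - d₁) * (D₀ * d₁))) := by
    -- facts
    have f1 : D₁ * (e₀ - d₀) = -((e₁ - d₁) * D₀) := by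
      have := he.hα.trans hd.hα.symm
      rw [Matrix.mul_sub, Matrix.sub_mul, neg_sub, sub_eq_sub_iff_add_eq_add]
      rw [this]; abel_nf
    have f0 : D₀ * (e₁ - d₁) = -((e₀ - d₀) * D₁) := by
      have := he.hβ.trans hd.hβ.symm
      rw [Matrix.mul_sub, Matrix.sub_mul, neg_sub, sub_eq_sub_iff_add_eq_add]
      rw [this]; abel_nf
    have lhs : U = 1 + (e₀ - d₀) * D₁ + e₀ * d₁ := by
      rw [hU, Matrix.add_mul, Matrix.mul_add, Matrix.mul_add, h0, zero_add, Matrix.sub_mul,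
        ← hd.hβ]
      abel
    -- right-hand side
    have rhs : (1 + (e₀ - d₀) * D₁) * (1 - d₀ * ((e₁ - d₁) * (D₀ * d₁)))
        = 1 + (e₀ - d₀) * D₁ - e₀ * ((e₁ - d₁) * (D₀ * d₁)) := by
      -- (1 + a D)(d a D d) = d a D d + a D d a D d = d a D d + a a D d = e a D d
      have g1 : (e₀ - d₀) * D₁ * (d₀ * ((e₁ - d₁) * (D₀ * d₁)))
          = (e₀ - d₀) * ((e₁ - d₁) * (D₀ * d₁)) := by
        have : D₁ * d₀ = 1 - d₁ * D₀ := by rw [← hd.hα]; abel
        have h3 : D₀ * ((e₁ - d₁) * (D₀ * d₁)) = 0 := by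
          rw [← Matrix.mul_assoc, f0, Matrix.neg_mul, Matrix.mul_assoc, ← Matrix.mul_assoc D₁,
            h1, Matrix.zero_mul, Matrix.mul_zero, neg_zero]
        calc (e₀ - d₀) * D₁ * (d₀ * ((e₁ - d₁) * (D₀ * d₁)))
            = (e₀ - d₀) * (D₁ * d₀ * ((e₁ - d₁) * (D₀ * d₁))) := by
              simp only [Matrix.mul_assoc]
          _ = (e₀ - d₀) * ((e₁ - d₁) * (D₀ * d₁) - d₁ * (D₀ * ((e₁ - d₁) * (D₀ * d₁)))) := by
              congr 1
              rw [this, Matrix.sub_mul, Matrix.one_mul, Matrix.mul_assoc]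
          _ = _ := by rw [h3, Matrix.mul_zero, sub_zero]
      rw [Matrix.mul_sub, Matrix.mul_one, Matrix.add_mul, Matrix.one_mul, g1, ← Matrix.add_mul]
      congr 2
      abel
    rw [lhs, rhs]
    -- need: e₀ d₁ = - e₀ a D d
    have g2 : (e₁ - d₁) * (D₀ * d₁) = -(D₁ * ((e₀ - d₀) * d₁)) := by
      rw [← Matrix.mul_assoc, ← Matrix.mul_assoc, f1, Matrix.neg_mul, neg_neg]
    have g3 : (e₀ - d₀) * d₁ = e₀ * d₁ := by rw [Matrix.sub_mul, hd.h0, sub_zero]
    have g4 : e₀ * D₁ = 1 - D₀ * e₁ := by rw [← he.hβ]; abel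
    have g5 : e₀ * (D₁ * (e₀ * d₁)) = e₀ * d₁ := by
      rw [← Matrix.mul_assoc, g4, Matrix.sub_mul, Matrix.one_mul, Matrix.mul_assoc D₀,
        ← Matrix.mul_assoc e₁, he.h1, Matrix.zero_mul, Matrix.mul_zero, sub_zero]
    rw [g2, g3, Matrix.mul_neg, g5, sub_neg_eq_add]
  have f1 : D₁ * (e₀ - d₀) = -((e₁ - d₁) * D₀) := by
    have := he.hα.trans hd.hα.symm
    rw [Matrix.mul_sub, Matrix.sub_mul, neg_sub, sub_eq_sub_iff_add_eq_add]
    rw [this]; abel_nf
  have hdet : U.det = 1 := by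
    rw [key, det_mul, det_one_add_of_sq_zero, one_mul, sub_eq_add_neg, det_one_add_of_sq_zero]
    · -- (d a D d)^2 = 0
      rw [Matrix.neg_mul, Matrix.mul_neg, neg_neg]
      have : d₁ * d₀ = 0 := hd.h1
      calc d₀ * ((e₁ - d₁) * (D₀ * d₁)) * (d₀ * ((e₁ - d₁) * (D₀ * d₁)))
          = d₀ * ((e₁ - d₁) * (D₀ * (d₁ * d₀ * ((e₁ - d₁) * (D₀ * d₁))))) := by
            simp only [Matrix.mul_assoc]
        _ = 0 := by rw [this]; simp
    · calc (e₀ - d₀) * D₁ * ((e₀ - d₀) * D₁) = (e₀ - d₀) * ((D₁ * (e₀ - d₀)) * D₁) := by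
            simp only [Matrix.mul_assoc]
        _ = 0 := by
            rw [f1, Matrix.neg_mul, Matrix.mul_assoc, h0]; simp
  rw [hA, gram_mul_right, hdet]
  simp

/-- a contraction can be made special -/
theorem exists_SC {D₁ : Matrix α β ℂ} {D₀ : Matrix β α ℂ} {d₁ : Matrix α β ℂ}
    {d₀ : Matrix β α ℂ} (h1 : D₁ * D₀ = 0) (h0 : D₀ * D₁ = 0)
    (hα : D₁ * d₀ + d₁ * D₀ = 1) (hβ : D₀ * d₁ + d₀ * D₁ = 1) :
    SC D₁ D₀ (d₁ * D₀ * d₁) (d₀ * D₁ * d₀) := by
  have qp : d₁ * D₀ * (D₁ * d₀) = 0 := by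
    rw [Matrix.mul_assoc, ← Matrix.mul_assoc D₀, h0]; simp
  have qp' : d₀ * D₁ * (D₀ * d₁) = 0 := by
    rw [Matrix.mul_assoc, ← Matrix.mul_assoc D₁, h1]; simp
  have hp : D₁ * d₀ = 1 - d₁ * D₀ := by rw [← hα]; abel
  have hp' : D₀ * d₁ = 1 - d₀ * D₁ := by rw [← hβ]; abel
  have qq : d₁ * D₀ * (d₁ * D₀) = d₁ * D₀ := by
    rw [hp, Matrix.mul_sub, Matrix.mul_one, sub_eq_zero] at qp
    exact qp.symm
  have qq' : d₀ * D₁ * (d₀ * D₁) = d₀ * D₁ := by
    rw [hp', Matrix.mul_sub, Matrix.mul_one, sub_eq_zero] at qp'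
    exact qp'.symm
  have pq : D₁ * d₀ * (d₁ * D₀) = 0 := by
    rw [hp, Matrix.sub_mul, Matrix.one_mul, qq, sub_self]
  have pq' : D₀ * d₁ * (d₀ * D₁) = 0 := by
    rw [hp', Matrix.sub_mul, Matrix.one_mul, qq', sub_self]
  refine ⟨?_, ?_, ?_, ?_⟩
  · calc D₁ * (d₀ * D₁ * d₀) + d₁ * D₀ * d₁ * D₀
        = D₁ * d₀ * (D₁ * d₀) + d₁ * D₀ * (d₁ * D₀) := by simp only [Matrix.mul_assoc]
      _ = 1 := by
          rw [qq]
          nth_rewrite 2 [hp]
          rw [Matrix.mul_sub, Matrix.mul_one, pq, sub_zero, hα]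
  · calc D₀ * (d₁ * D₀ * d₁) + d₀ * D₁ * d₀ * D₁
        = D₀ * d₁ * (D₀ * d₁) + d₀ * D₁ * (d₀ * D₁) := by simp only [Matrix.mul_assoc]
      _ = 1 := by
          rw [qq']
          nth_rewrite 2 [hp']
          rw [Matrix.mul_sub, Matrix.mul_one, pq', sub_zero, hβ]
  · calc d₁ * D₀ * d₁ * (d₀ * D₁ * d₀) = d₁ * (D₀ * d₁ * (d₀ * D₁)) * d₀ := by
          simp only [Matrix.mul_assoc]
      _ = 0 := by rw [pq']; simp
  · calc d₀ * D₁ * d₀ * (d₁ * D₀ * d₁) = d₀ * (D₁ * d₀ * (d₁ * D₀)) * d₁ := by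
          simp only [Matrix.mul_assoc]
      _ = 0 := by rw [pq]; simp

theorem IsTors.exists_of_contraction {D₁ : Matrix α β ℂ} {D₀ : Matrix β α ℂ} {d₁ : Matrix α β ℂ}
    {d₀ : Matrix β α ℂ} (h1 : D₁ * D₀ = 0) (h0 : D₀ * D₁ = 0)
    (hα : D₁ * d₀ + d₁ * D₀ = 1) (hβ : D₀ * d₁ + d₀ * D₁ = 1) :
    ∃ r, IsTors D₁ D₀ r :=
  ⟨_, h1, h0, _, _, exists_SC h1 h0 hα hβ, rfl⟩

/-- the torsion is nonzero -/
theorem IsTors.ne_zero {D₁ : Matrix α β ℂ} {D₀ : Matrix β α ℂ} {r : ℂ}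
    (hr : IsTors D₁ D₀ r) : r ≠ 0 := by
  obtain ⟨h1, h0, d₁, d₀, hd, rfl⟩ := hr
  have e1 := hd.mul_eq_one h1
  have e2 := hd.mul_eq_one' h0
  have : ((D₁ + d₁)ᴴ * (D₁ + d₁)) * ((D₀ + d₀) * (D₀ + d₀)ᴴ) = 1 := by
    calc ((D₁ + d₁)ᴴ * (D₁ + d₁)) * ((D₀ + d₀) * (D₀ + d₀)ᴴ)
        = (D₁ + d₁)ᴴ * ((D₁ + d₁) * (D₀ + d₀)) * (D₀ + d₀)ᴴ := by simp only [Matrix.mul_assoc]
      _ = 1 := by
          rw [e1, Matrix.mul_one, ← conjTranspose_mul, e2, conjTranspose_one]
  intro h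
  have h2 := congrArg Matrix.det this
  rw [det_mul, h, zero_mul, det_one] at h2
  exact zero_ne_one h2

/-- swapping even and odd inverts the torsion -/
theorem IsTors.swap {D₁ : Matrix α β ℂ} {D₀ : Matrix β α ℂ} {r : ℂ}
    (hr : IsTors D₁ D₀ r) : IsTors D₀ D₁ r⁻¹ := by
  obtain ⟨h1, h0, d₁, d₀, hd, rfl⟩ := hr
  refine ⟨h0, h1, d₀, d₁, ⟨hd.hβ, hd.hα, hd.h0, hd.h1⟩, ?_⟩
  have e1 := hd.mul_eq_one h1
  have e2 := hd.mul_eq_one' h0
  have key : ((D₁ + d₁)ᴴ * (D₁ + d₁)).det * ((D₀ + d₀)ᴴ * (D₀ + d₀)).det = 1 := by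
    have e3 : (D₀ + d₀)ᴴ * (D₁ + d₁)ᴴ = 1 := by rw [← conjTranspose_mul, e1, conjTranspose_one]
    have e4 : (D₁ + d₁)ᴴ * (D₀ + d₀)ᴴ = 1 := by rw [← conjTranspose_mul, e2, conjTranspose_one]
    rw [det_comm' e3 e4 (N := D₀ + d₀), ← det_mul]
    calc (((D₁ + d₁)ᴴ * (D₁ + d₁)) * ((D₀ + d₀) * (D₀ + d₀)ᴴ)).det
        = ((D₁ + d₁)ᴴ * ((D₁ + d₁) * (D₀ + d₀)) * (D₀ + d₀)ᴴ).det := by
          simp only [Matrix.mul_assoc]
      _ = 1 := by rw [e1, Matrix.mul_one, e4, det_one]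
  exact eq_inv_of_mul_eq_one_right key

variable {α' β' α'' β'' : Type*} [Fintype α'] [Fintype β'] [DecidableEq α'] [DecidableEq β']
  [Fintype α''] [Fintype β''] [DecidableEq α''] [DecidableEq β'']

/-- reindexing -/
theorem IsTors.reindex {D₁ : Matrix α β ℂ} {D₀ : Matrix β α ℂ} {r : ℂ}
    (hr : IsTors D₁ D₀ r) (e : α' ≃ α) (f : β' ≃ β) :
    IsTors (D₁.submatrix e f) (D₀.submatrix f e) r := by
  obtain ⟨h1, h0, d₁, d₀, hd, rfl⟩ := hr
  refine ⟨?_, ?_, d₁.submatrix e f, d₀.submatrix f e, ⟨?_, ?_, ?_, ?_⟩, ?_⟩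
  · rw [submatrix_mul_equiv, h1]; rfl
  · rw [submatrix_mul_equiv, h0]; rfl
  · rw [submatrix_mul_equiv, submatrix_mul_equiv]
    change (D₁ * d₀ + d₁ * D₀).submatrix e e = 1
    rw [hd.hα]
    exact submatrix_one_equiv e
  · rw [submatrix_mul_equiv, submatrix_mul_equiv]
    change (D₀ * d₁ + d₀ * D₁).submatrix f f = 1
    rw [hd.hβ]
    exact submatrix_one_equiv f
  · rw [submatrix_mul_equiv, hd.h1]; rfl
  · rw [submatrix_mul_equiv, hd.h0]; rfl
  · have : D₁.submatrix e f + d₁.submatrix e f = (D₁ + d₁).submatrix e f := rfl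
    rw [this, conjTranspose_submatrix, submatrix_mul_equiv, det_submatrix_equiv_self]

theorem isTors_reindex_iff {D₁ : Matrix α β ℂ} {D₀ : Matrix β α ℂ} {r : ℂ}
    (e : α' ≃ α) (f : β' ≃ β) :
    IsTors (D₁.submatrix e f) (D₀.submatrix f e) r ↔ IsTors D₁ D₀ r := by
  constructor
  · intro h
    have := h.reindex e.symm f.symm
    simpa using this
  · intro h; exact h.reindex e f

omit [Fintype α'] [Fintype β'] [DecidableEq α'] [DecidableEq β']
  [Fintype α''] [Fintype β''] [DecidableEq α''] [DecidableEq β''] in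
/-- change of basis -/
theorem IsTors.base_change {D₁ : Matrix α β ℂ} {D₀ : Matrix β α ℂ} {r : ℂ}
    (hr : IsTors D₁ D₀ r) {G G' : Matrix α α ℂ} {H H' : Matrix β β ℂ}
    (hG : G * G' = 1) (hG' : G' * G = 1) (hH : H * H' = 1) (hH' : H' * H = 1)
    (dG : ‖G.det‖ = 1) (dH : ‖H.det‖ = 1) :
    IsTors (G' * D₁ * H) (H' * D₀ * G) r := by
  obtain ⟨h1, h0, d₁, d₀, hd, rfl⟩ := hr
  have e1 := hd.mul_eq_one h1
  have e2 := hd.mul_eq_one' h0
  have k1 : ∀ (X : Matrix α β ℂ) (Y : Matrix β α ℂ),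
      G' * X * H * (H' * Y * G) = G' * (X * Y) * G := by
    intro X Y
    calc G' * X * H * (H' * Y * G) = G' * X * (H * H') * Y * G := by
          simp only [Matrix.mul_assoc]
      _ = G' * (X * Y) * G := by rw [hH]; simp only [Matrix.mul_one, Matrix.mul_assoc]
  have k0 : ∀ (X : Matrix α β ℂ) (Y : Matrix β α ℂ),
      H' * Y * G * (G' * X * H) = H' * (Y * X) * H := by
    intro X Y
    calc H' * Y * G * (G' * X * H) = H' * Y * (G * G') * X * H := by
          simp only [Matrix.mul_assoc]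
      _ = H' * (Y * X) * H := by rw [hG]; simp only [Matrix.mul_one, Matrix.mul_assoc]
  refine ⟨?_, ?_, G' * d₁ * H, H' * d₀ * G, ⟨?_, ?_, ?_, ?_⟩, ?_⟩
  · rw [k1, h1]; simp
  · rw [k0, h0]; simp
  · rw [k1, k1, ← Matrix.add_mul, ← Matrix.mul_add, hd.hα, Matrix.mul_one, hG']
  · rw [k0, k0, ← Matrix.add_mul, ← Matrix.mul_add, hd.hβ, Matrix.mul_one, hH']
  · rw [k1, hd.h1]; simp
  · rw [k0, hd.h0]; simp
  · have : G' * D₁ * H + G' * d₁ * H = G' * (D₁ + d₁) * H := by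
      rw [Matrix.mul_add, Matrix.add_mul]
    rw [this, gram_mul_right, gram_mul _ _ _ e1 e2]
    have u1 : star H.det * H.det = 1 := by
      have := Complex.conj_mul' H.det
      rw [dH] at this
      simpa using this
    have dG' : ‖G'.det‖ = 1 := by
      have := congrArg Matrix.det hG
      rw [det_mul, det_one] at this
      have h2 := congrArg norm this
      rw [norm_mul, dG, one_mul, norm_one] at h2
      exact h2
    have u2 : star G'.det * G'.det = 1 := by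
      have := Complex.conj_mul' G'.det
      rw [dG'] at this
      simpa using this
    rw [u1, u2, one_mul, one_mul]

theorem isTors_base_change_iff {D₁ E₁ : Matrix α β ℂ} {D₀ E₀ : Matrix β α ℂ} {r : ℂ}
    {G G' : Matrix α α ℂ} {H H' : Matrix β β ℂ}
    (hG : G * G' = 1) (hG' : G' * G = 1) (hH : H * H' = 1) (hH' : H' * H = 1)
    (dG : ‖G.det‖ = 1) (dH : ‖H.det‖ = 1) (h1 : D₁ * H = G * E₁) (h0 : D₀ * G = H * E₀) :
    IsTors D₁ D₀ r ↔ IsTors E₁ E₀ r := by
  have f1 : E₁ = G' * D₁ * H := by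
    rw [Matrix.mul_assoc, h1, ← Matrix.mul_assoc, hG', Matrix.one_mul]
  have f0 : E₀ = H' * D₀ * G := by
    rw [Matrix.mul_assoc, h0, ← Matrix.mul_assoc, hH', Matrix.one_mul]
  have g1 : D₁ = G * E₁ * H' := by
    rw [← h1, Matrix.mul_assoc, hH, Matrix.mul_one]
  have g0 : D₀ = H * E₀ * G' := by
    rw [← h0, Matrix.mul_assoc, hG, Matrix.mul_one]
  have dG' : ‖G'.det‖ = 1 := by
    have := congrArg Matrix.det hG
    rw [det_mul, det_one] at this
    have h2 := congrArg norm this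
    rw [norm_mul, dG, one_mul, norm_one] at h2
    exact h2
  have dH' : ‖H'.det‖ = 1 := by
    have := congrArg Matrix.det hH
    rw [det_mul, det_one] at this
    have h2 := congrArg norm this
    rw [norm_mul, dH, one_mul, norm_one] at h2
    exact h2
  constructor
  · intro h
    rw [f1, f0]
    exact h.base_change hG hG' hH hH' dG dH
  · intro h
    rw [g1, g0]
    exact h.base_change hG' hG hH' hH dG' dH'

/-- multiplicativity for a subcomplex and its quotient -/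
theorem IsTors.block {D₁' : Matrix α' β' ℂ} {D₀' : Matrix β' α' ℂ} {r' : ℂ}
    {D₁'' : Matrix α'' β'' ℂ} {D₀'' : Matrix β'' α'' ℂ} {r'' : ℂ}
    (h' : IsTors D₁' D₀' r') (h'' : IsTors D₁'' D₀'' r'')
    {X₁ : Matrix α' β'' ℂ} {X₀ : Matrix β' α'' ℂ}
    (hx1 : D₁' * X₀ + X₁ * D₀'' = 0) (hx0 : D₀' * X₁ + X₀ * D₁'' = 0) :
    IsTors (fromBlocks D₁' X₁ 0 D₁'') (fromBlocks D₀' X₀ 0 D₀'') (r' * r'') := by
  obtain ⟨h1', h0', d₁', d₀', hd', rfl⟩ := h'
  obtain ⟨h1'', h0'', d₁'', d₀'', hd'', rfl⟩ := h''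
  refine ⟨?_, ?_, fromBlocks d₁' (-(d₁' * X₀ * d₁'')) 0 d₁'',
    fromBlocks d₀' (-(d₀' * X₁ * d₀'')) 0 d₀'', ⟨?_, ?_, ?_, ?_⟩, ?_⟩
  · rw [fromBlocks_multiply]
    simp [h1', h1'', hx1]
  · rw [fromBlocks_multiply]
    simp [h0', h0'', hx0]
  · rw [fromBlocks_multiply, fromBlocks_multiply, fromBlocks_add]
    have e : D₁' * -(d₀' * X₁ * d₀'') + X₁ * d₀'' + (d₁' * X₀ + -(d₁' * X₀ * d₁'') * D₀'') = 0 := by
      have a1 : D₁' * d₀' = 1 - d₁' * D₀' := by rw [← hd'.hα]; abel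
      have a2 : d₁'' * D₀'' = 1 - D₁'' * d₀'' := by rw [← hd''.hα]; abel
      have a3 : D₀' * X₁ = -(X₀ * D₁'') := eq_neg_of_add_eq_zero_left hx0
      calc D₁' * -(d₀' * X₁ * d₀'') + X₁ * d₀'' + (d₁' * X₀ + -(d₁' * X₀ * d₁'') * D₀'')
          = -(D₁' * d₀' * (X₁ * d₀'')) + X₁ * d₀'' + (d₁' * X₀ - d₁' * X₀ * (d₁'' * D₀'')) := by
            simp only [Matrix.mul_assoc, Matrix.mul_neg, Matrix.neg_mul, sub_eq_add_neg]
        _ = d₁' * (D₀' * X₁) * d₀'' + d₁' * X₀ * (D₁'' * d₀'') := by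
            rw [a1, a2, Matrix.sub_mul, Matrix.one_mul, Matrix.mul_sub, Matrix.mul_one]
            simp only [Matrix.mul_assoc]
            abel
        _ = 0 := by
            rw [a3]
            simp only [Matrix.mul_assoc, Matrix.mul_neg, Matrix.neg_mul]
            abel
    simp only [Matrix.mul_zero, Matrix.zero_mul, add_zero, zero_add]
    rw [hd'.hα, hd''.hα, e, fromBlocks_one]
  · rw [fromBlocks_multiply, fromBlocks_multiply, fromBlocks_add]
    have e : D₀' * -(d₁' * X₀ * d₁'') + X₀ * d₁'' + (d₀' * X₁ + -(d₀' * X₁ * d₀'') * D₁'') = 0 := by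
      have a1 : D₀' * d₁' = 1 - d₀' * D₁' := by rw [← hd'.hβ]; abel
      have a2 : d₀'' * D₁'' = 1 - D₀'' * d₁'' := by rw [← hd''.hβ]; abel
      have a3 : D₁' * X₀ = -(X₁ * D₀'') := eq_neg_of_add_eq_zero_left hx1
      calc D₀' * -(d₁' * X₀ * d₁'') + X₀ * d₁'' + (d₀' * X₁ + -(d₀' * X₁ * d₀'') * D₁'')
          = -(D₀' * d₁' * (X₀ * d₁'')) + X₀ * d₁'' + (d₀' * X₁ - d₀' * X₁ * (d₀'' * D₁'')) := by
            simp only [Matrix.mul_assoc, Matrix.mul_neg, Matrix.neg_mul, sub_eq_add_neg]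
        _ = d₀' * (D₁' * X₀) * d₁'' + d₀' * X₁ * (D₀'' * d₁'') := by
            rw [a1, a2, Matrix.sub_mul, Matrix.one_mul, Matrix.mul_sub, Matrix.mul_one]
            simp only [Matrix.mul_assoc]
            abel
        _ = 0 := by
            rw [a3]
            simp only [Matrix.mul_assoc, Matrix.mul_neg, Matrix.neg_mul]
            abel
    simp only [Matrix.mul_zero, Matrix.zero_mul, add_zero, zero_add]
    rw [hd'.hβ, hd''.hβ, e, fromBlocks_one]
  · rw [fromBlocks_multiply]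
    have e : d₁' * -(d₀' * X₁ * d₀'') + -(d₁' * X₀ * d₁'') * d₀'' = 0 := by
      calc d₁' * -(d₀' * X₁ * d₀'') + -(d₁' * X₀ * d₁'') * d₀''
          = -(d₁' * d₀' * (X₁ * d₀'')) - d₁' * X₀ * (d₁'' * d₀'') := by
            simp only [Matrix.mul_assoc, Matrix.mul_neg, Matrix.neg_mul, sub_eq_add_neg]
        _ = 0 := by rw [hd'.h1, hd''.h1]; simp
    simp only [Matrix.mul_zero, Matrix.zero_mul, add_zero, zero_add]
    rw [hd'.h1, hd''.h1, e, fromBlocks_zero]
  · rw [fromBlocks_multiply]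
    have e : d₀' * -(d₁' * X₀ * d₁'') + -(d₀' * X₁ * d₀'') * d₁'' = 0 := by
      calc d₀' * -(d₁' * X₀ * d₁'') + -(d₀' * X₁ * d₀'') * d₁''
          = -(d₀' * d₁' * (X₀ * d₁'')) - d₀' * X₁ * (d₀'' * d₁'') := by
            simp only [Matrix.mul_assoc, Matrix.mul_neg, Matrix.neg_mul, sub_eq_add_neg]
        _ = 0 := by rw [hd'.h0, hd''.h0]; simp
    simp only [Matrix.mul_zero, Matrix.zero_mul, add_zero, zero_add]
    rw [hd'.h0, hd''.h0, e, fromBlocks_zero]
  · rw [fromBlocks_add]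
    set A' := D₁' + d₁'
    set A'' := D₁'' + d₁''
    set B' := D₀' + d₀'
    set B'' := D₀'' + d₀''
    have ab' : A' * B' = 1 := hd'.mul_eq_one h1'
    have ba' : B' * A' = 1 := hd'.mul_eq_one' h0'
    have ab'' : A'' * B'' = 1 := hd''.mul_eq_one h1''
    have ba'' : B'' * A'' = 1 := hd''.mul_eq_one' h0''
    set Z := X₁ + -(d₁' * X₀ * d₁'')
    have hfac : fromBlocks A' Z (0 + 0) A''
        = fromBlocks (1 : Matrix α' α' ℂ) (Z * B'') 0 1 * fromBlocks A' 0 0 A'' := by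
      rw [fromBlocks_multiply]
      simp [Matrix.mul_assoc, ba'']
    rw [hfac, gram_mul _ _ (fromBlocks B' 0 0 B'')]
    · rw [det_fromBlocks_zero₂₁, det_one, det_one, fromBlocks_conjTranspose, fromBlocks_multiply]
      simp [det_fromBlocks_zero₂₁]
    · rw [fromBlocks_multiply]
      simp [ab', ab'', fromBlocks_one]
    · rw [fromBlocks_multiply]
      simp [ba', ba'', fromBlocks_one]

/-- if the whole complex and the quotient are acyclic then so is the subcomplex -/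
theorem IsTors.of_block {D₁' : Matrix α' β' ℂ} {D₀' : Matrix β' α' ℂ} {r : ℂ}
    {D₁'' : Matrix α'' β'' ℂ} {D₀'' : Matrix β'' α'' ℂ} {r'' : ℂ}
    {X₁ : Matrix α' β'' ℂ} {X₀ : Matrix β' α'' ℂ}
    (h : IsTors (fromBlocks D₁' X₁ 0 D₁'') (fromBlocks D₀' X₀ 0 D₀'') r)
    (h'' : IsTors D₁'' D₀'' r'') :
    IsTors D₁' D₀' (r * r''⁻¹) := by
  have hr'' := h''.ne_zero
  obtain ⟨r', hr'⟩ : ∃ r', IsTors D₁' D₀' r' := by
    obtain ⟨h1, h0, d₁, d₀, hd, -⟩ := h
    obtain ⟨h1'', h0'', d₁'', d₀'', hd'', -⟩ := h''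
    rw [fromBlocks_multiply, ← fromBlocks_zero, fromBlocks_inj] at h1 h0
    simp only [Matrix.mul_zero, Matrix.zero_mul, add_zero, zero_add] at h1 h0
    obtain ⟨p1, p2, -, -⟩ := h1
    obtain ⟨q1, q2, -, -⟩ := h0
    obtain ⟨a₁, b₁, c₁, e₁, rfl⟩ : ∃ a b c e, d₁ = fromBlocks a b c e :=
      ⟨_, _, _, _, (fromBlocks_toBlocks d₁).symm⟩
    obtain ⟨a₀, b₀, c₀, e₀, rfl⟩ : ∃ a b c e, d₀ = fromBlocks a b c e :=
      ⟨_, _, _, _, (fromBlocks_toBlocks d₀).symm⟩
    have hα := hd.hα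
    have hβ := hd.hβ
    rw [fromBlocks_multiply, fromBlocks_multiply, fromBlocks_add, ← fromBlocks_one,
      fromBlocks_inj] at hα hβ
    simp only [Matrix.mul_zero, Matrix.zero_mul, add_zero, zero_add] at hα hβ
    obtain ⟨s1, -, s3, -⟩ := hα
    obtain ⟨t1, -, t3, -⟩ := hβ
    refine IsTors.exists_of_contraction (d₁ := a₁ - X₁ * d₀'' * c₁) (d₀ := a₀ - X₀ * d₁'' * c₀)
      p1 q1 ?_ ?_
    · have e1 : D₁' * X₀ = -(X₁ * D₀'') := eq_neg_of_add_eq_zero_left p2
      have e2 : c₁ * D₀' = -(D₁'' * c₀) := eq_neg_of_add_eq_zero_right s3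
      calc D₁' * (a₀ - X₀ * d₁'' * c₀) + (a₁ - X₁ * d₀'' * c₁) * D₀'
          = D₁' * a₀ + a₁ * D₀' - (D₁' * X₀) * (d₁'' * c₀) - X₁ * d₀'' * (c₁ * D₀') := by
            simp only [Matrix.mul_sub, Matrix.sub_mul, Matrix.mul_assoc]; abel
        _ = D₁' * a₀ + a₁ * D₀' + X₁ * ((D₀'' * d₁'' + d₀'' * D₁'') * c₀) := by
            rw [e1, e2]
            simp only [Matrix.mul_assoc, Matrix.neg_mul,
              Matrix.mul_neg, Matrix.add_mul, Matrix.mul_add]
            abel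
        _ = 1 := by
            rw [hd''.hβ, Matrix.one_mul, ← s1]; abel
    · have e1 : D₀' * X₁ = -(X₀ * D₁'') := eq_neg_of_add_eq_zero_left q2
      have e2 : c₀ * D₁' = -(D₀'' * c₁) := eq_neg_of_add_eq_zero_right t3
      calc D₀' * (a₁ - X₁ * d₀'' * c₁) + (a₀ - X₀ * d₁'' * c₀) * D₁'
          = D₀' * a₁ + a₀ * D₁' - (D₀' * X₁) * (d₀'' * c₁) - X₀ * d₁'' * (c₀ * D₁') := by
            simp only [Matrix.mul_sub, Matrix.sub_mul, Matrix.mul_assoc]; abel
        _ = D₀' * a₁ + a₀ * D₁' + X₀ * ((D₁'' * d₀'' + d₁'' * D₀'') * c₁) := by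
            rw [e1, e2]
            simp only [Matrix.mul_assoc, Matrix.neg_mul,
              Matrix.mul_neg, Matrix.add_mul, Matrix.mul_add]
            abel
        _ = 1 := by
            rw [hd''.hα, Matrix.one_mul, ← t1]; abel
  have hx : D₁' * X₀ + X₁ * D₀'' = 0 ∧ D₀' * X₁ + X₀ * D₁'' = 0 := by
    obtain ⟨h1, h0, -⟩ := h
    rw [fromBlocks_multiply, ← fromBlocks_zero, fromBlocks_inj] at h1 h0
    exact ⟨h1.2.1, h0.2.1⟩
  have := (hr'.block h'' hx.1 hx.2).unique h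
  rw [← this, mul_assoc, mul_inv_cancel₀ hr'', mul_one]
  exact hr'

/-! ### Complexes given by a matrix on an index type and finite sets of indices -/

section indexed

variable {I : Type*} [DecidableEq I]

/-- restriction of a matrix to finite sets of indices -/
def res (a b : Finset I) (D : I → I → ℂ) : Matrix {i // i ∈ a} {i // i ∈ b} ℂ :=
  Matrix.of fun i j => D i j

omit [DecidableEq I] in
@[simp] theorem res_apply (a b : Finset I) (D : I → I → ℂ) (i : {i // i ∈ a})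
    (j : {i // i ∈ b}) : res a b D i j = D i j := rfl

/-- the complex spanned by the even cells `a` and the odd cells `b`; column `k` of `D` is the
boundary of the cell `k`. -/
def IsTorsOn (a b : Finset I) (D : I → I → ℂ) (r : ℂ) : Prop :=
  IsTors (res a b D) (res b a D) r

/-- `D² = 0` on the cells `a` (even) and `b` (odd) -/
def IsCx (a b : Finset I) (D : I → I → ℂ) : Prop :=
  (∀ x ∈ a, ∀ z ∈ a, ∑ y ∈ b, D x y * D y z = 0) ∧
  (∀ x ∈ b, ∀ z ∈ b, ∑ y ∈ a, D x y * D y z = 0)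

omit [DecidableEq I] in
theorem IsCx.swap {a b : Finset I} {D : I → I → ℂ} (h : IsCx a b D) : IsCx b a D := ⟨h.2, h.1⟩

omit [DecidableEq I] in
theorem res_mul_res (a b c : Finset I) (D E : I → I → ℂ) (x : {i // i ∈ a})
    (z : {i // i ∈ c}) : (res a b D * res b c E) x z = ∑ y ∈ b, D x y * E y z := by
  rw [Matrix.mul_apply, ← Finset.sum_coe_sort b]
  rfl

omit [DecidableEq I] in
theorem isCx_iff {a b : Finset I} {D : I → I → ℂ} :
    IsCx a b D ↔ res a b D * res b a D = 0 ∧ res b a D * res a b D = 0 := by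
  constructor
  · rintro ⟨h1, h0⟩
    constructor
    · ext x z; rw [res_mul_res]; exact h1 x x.2 z z.2
    · ext x z; rw [res_mul_res]; exact h0 x x.2 z z.2
  · rintro ⟨h1, h0⟩
    constructor
    · intro x hx z hz
      have := congrFun (congrFun h1 ⟨x, hx⟩) ⟨z, hz⟩
      rwa [res_mul_res] at this
    · intro x hx z hz
      have := congrFun (congrFun h0 ⟨x, hx⟩) ⟨z, hz⟩
      rwa [res_mul_res] at this

theorem IsTorsOn.isCx {a b : Finset I} {D : I → I → ℂ} {r : ℂ} (h : IsTorsOn a b D r) :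
    IsCx a b D := isCx_iff.mpr ⟨h.1, h.2.1⟩

theorem IsTorsOn.unique {a b : Finset I} {D : I → I → ℂ} {r s : ℂ}
    (hr : IsTorsOn a b D r) (hs : IsTorsOn a b D s) : r = s := IsTors.unique hr hs

theorem IsTorsOn.congr {a b : Finset I} {D D' : I → I → ℂ} {r : ℂ}
    (h : IsTorsOn a b D r) (h1 : ∀ i ∈ a, ∀ j ∈ b, D i j = D' i j)
    (h0 : ∀ i ∈ b, ∀ j ∈ a, D i j = D' i j) : IsTorsOn a b D' r := by
  have e1 : res a b D = res a b D' := by
    ext i j; exact h1 i i.2 j j.2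
  have e0 : res b a D = res b a D' := by
    ext i j; exact h0 i i.2 j j.2
  unfold IsTorsOn at *
  rwa [e1, e0] at h

theorem isTorsOn_swap {a b : Finset I} {D : I → I → ℂ} {r : ℂ} :
    IsTorsOn a b D r ↔ IsTorsOn b a D r⁻¹ := by
  constructor
  · intro h; exact IsTors.swap h
  · intro h
    have := IsTors.swap h
    rwa [inv_inv] at this

/-- the one-point extension of a finite set as a sum -/
def insertEquiv (a : Finset I) (i : I) (hi : i ∉ a) :
    {x // x ∈ a} ⊕ Unit ≃ {x // x ∈ insert i a} where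
  toFun := Sum.elim (fun x => ⟨x.1, Finset.mem_insert_of_mem x.2⟩)
    (fun _ => ⟨i, Finset.mem_insert_self _ _⟩)
  invFun x := if h : x.1 ∈ a then Sum.inl ⟨x.1, h⟩ else Sum.inr ()
  left_inv x := by
    rcases x with ⟨x, hx⟩ | x
    · simp [hx]
    · simp [hi]
  right_inv x := by
    rcases x with ⟨x, hx⟩
    by_cases h : x ∈ a
    · simp [h]
    · have : x = i := by
        rcases Finset.mem_insert.mp hx with h' | h'
        · exact h'
        · exact absurd h' h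
      subst this
      simp [h]

theorem isTors_unit_odd {u : ℂ} (hu : ‖u‖ = 1) :
    IsTors (Matrix.of fun (_ : Unit) (_ : Unit) => u) (0 : Matrix Unit Unit ℂ) 1 := by
  have hu0 : u ≠ 0 := by
    intro h; rw [h, norm_zero] at hu; exact zero_ne_one hu
  refine ⟨by simp, by simp, 0, Matrix.of fun _ _ => u⁻¹, ⟨?_, ?_, by simp, by simp⟩, ?_⟩
  · ext i j
    simp [Matrix.mul_apply, hu0]
  · ext i j
    simp [Matrix.mul_apply, hu0]
  · have : star u * u = 1 := by
      have := Complex.conj_mul' u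
      rw [hu] at this
      simpa using this
    simpa [det_unique, Matrix.mul_apply, conjTranspose_apply] using this

theorem isTors_unit_even {u : ℂ} (hu : ‖u‖ = 1) :
    IsTors (0 : Matrix Unit Unit ℂ) (Matrix.of fun (_ : Unit) (_ : Unit) => u) 1 := by
  have := (isTors_unit_odd hu).swap
  rwa [inv_one] at this

/-- removing a collapsing pair: `j` odd, `i` even, `D i j` of modulus one -/
theorem isTorsOn_pair_odd {a b : Finset I} {D : I → I → ℂ} {r : ℂ} {i j : I}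
    (hi : i ∉ a) (hj : j ∉ b) (hu : ‖D i j‖ = 1)
    (hrow : ∀ k ∈ b, D i k = 0) (hmax : ∀ k ∈ insert i a, D j k = 0)
    (hcx : IsCx (insert i a) (insert j b) D) :
    IsTorsOn (insert i a) (insert j b) D r ↔ IsTorsOn a b D r := by
  have e1 : (res (insert i a) (insert j b) D).submatrix (insertEquiv a i hi) (insertEquiv b j hj)
      = fromBlocks (res a b D) (Matrix.of fun x _ => D x j) 0 (Matrix.of fun _ _ => D i j) := by
    ext x y
    rcases x with x | x <;> rcases y with y | y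
    · rfl
    · rfl
    · exact hrow y y.2
    · rfl
  have e0 : (res (insert j b) (insert i a) D).submatrix (insertEquiv b j hj) (insertEquiv a i hi)
      = fromBlocks (res b a D) (Matrix.of fun x _ => D x i) 0 0 := by
    ext x y
    rcases x with x | x <;> rcases y with y | y
    · rfl
    · rfl
    · exact hmax y (Finset.mem_insert_of_mem y.2)
    · exact hmax i (Finset.mem_insert_self _ _)
  have c1 : (res (insert i a) (insert j b) D).submatrix (insertEquiv a i hi) (insertEquiv b j hj)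
      * (res (insert j b) (insert i a) D).submatrix (insertEquiv b j hj) (insertEquiv a i hi)
      = 0 := by
    rw [submatrix_mul_equiv, (isCx_iff.mp hcx).1]; rfl
  have c0 : (res (insert j b) (insert i a) D).submatrix (insertEquiv b j hj) (insertEquiv a i hi)
      * (res (insert i a) (insert j b) D).submatrix (insertEquiv a i hi) (insertEquiv b j hj)
      = 0 := by
    rw [submatrix_mul_equiv, (isCx_iff.mp hcx).2]; rfl
  rw [e1, e0, fromBlocks_multiply, ← fromBlocks_zero, fromBlocks_inj] at c1 c0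
  have hU := isTors_unit_odd hu
  unfold IsTorsOn
  rw [← isTors_reindex_iff (insertEquiv a i hi) (insertEquiv b j hj), e1, e0]
  constructor
  · intro h
    have := h.of_block hU
    simpa using this
  · intro h
    have := h.block hU c1.2.1 c0.2.1
    simpa using this

/-- removing a collapsing pair: `j` even, `i` odd, `D i j` of modulus one -/
theorem isTorsOn_pair_even {a b : Finset I} {D : I → I → ℂ} {r : ℂ} {i j : I}
    (hi : i ∉ b) (hj : j ∉ a) (hu : ‖D i j‖ = 1)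
    (hrow : ∀ k ∈ a, D i k = 0) (hmax : ∀ k ∈ insert i b, D j k = 0)
    (hcx : IsCx (insert j a) (insert i b) D) :
    IsTorsOn (insert j a) (insert i b) D r ↔ IsTorsOn a b D r := by
  rw [isTorsOn_swap, isTorsOn_swap (a := a)]
  exact isTorsOn_pair_odd hi hj hu hrow hmax hcx.swap

/-- Gaussian elimination: `i` even, `j` odd, `D i j` of modulus one. -/
theorem isTorsOn_gauss_odd {a b : Finset I} {D D' : I → I → ℂ} {r : ℂ} {i j : I}
    (hi : i ∉ a) (hj : j ∉ b) (hu : ‖D i j‖ = 1)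
    (h1 : ∀ x ∈ a, ∀ y ∈ b, D' x y = D x y - D x j * (D i j)⁻¹ * D i y)
    (h0 : ∀ y ∈ b, ∀ x ∈ a, D' y x = D y x)
    (hcx : IsCx (insert i a) (insert j b) D) :
    IsTorsOn (insert i a) (insert j b) D r ↔ IsTorsOn a b D' r := by
  have hu0 : D i j ≠ 0 := by
    intro h; rw [h, norm_zero] at hu; exact zero_ne_one hu
  set u := D i j with hudef
  set P : Matrix {x // x ∈ a} {x // x ∈ b} ℂ := res a b D with hP
  set R : Matrix {x // x ∈ b} {x // x ∈ a} ℂ := res b a D with hR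
  set p : Matrix {x // x ∈ a} Unit ℂ := Matrix.of fun x _ => D x j with hp
  set q : Matrix Unit {x // x ∈ b} ℂ := Matrix.of fun _ y => D i y with hq
  set s : Matrix {x // x ∈ b} Unit ℂ := Matrix.of fun y _ => D y i with hs
  set t : Matrix Unit {x // x ∈ a} ℂ := Matrix.of fun _ x => D j x with ht
  set U : Matrix Unit Unit ℂ := Matrix.of fun _ _ => u with hU
  set U' : Matrix Unit Unit ℂ := Matrix.of fun _ _ => u⁻¹ with hU'
  set V : Matrix Unit Unit ℂ := Matrix.of fun _ _ => D j i with hV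
  have e1 : (res (insert i a) (insert j b) D).submatrix (insertEquiv a i hi) (insertEquiv b j hj)
      = fromBlocks P p q U := by
    ext x y
    rcases x with x | x <;> rcases y with y | y <;> rfl
  have e0 : (res (insert j b) (insert i a) D).submatrix (insertEquiv b j hj) (insertEquiv a i hi)
      = fromBlocks R s t V := by
    ext x y
    rcases x with x | x <;> rcases y with y | y <;> rfl
  have c1 : (res (insert i a) (insert j b) D).submatrix (insertEquiv a i hi) (insertEquiv b j hj)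
      * (res (insert j b) (insert i a) D).submatrix (insertEquiv b j hj) (insertEquiv a i hi)
      = 0 := by
    rw [submatrix_mul_equiv, (isCx_iff.mp hcx).1]; rfl
  have c0 : (res (insert j b) (insert i a) D).submatrix (insertEquiv b j hj) (insertEquiv a i hi)
      * (res (insert i a) (insert j b) D).submatrix (insertEquiv a i hi) (insertEquiv b j hj)
      = 0 := by
    rw [submatrix_mul_equiv, (isCx_iff.mp hcx).2]; rfl
  rw [e1, e0, fromBlocks_multiply, ← fromBlocks_zero, fromBlocks_inj] at c1 c0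
  obtain ⟨-, -, c13, -⟩ := c1
  obtain ⟨-, c02, -, c04⟩ := c0
  have UU' : U * U' = 1 := by
    ext x y; simp [Matrix.mul_apply, hU, hU', hu0]
  have U'U : U' * U = 1 := by
    ext x y; simp [Matrix.mul_apply, hU, hU', hu0]
  have hE1 : res a b D' = P - p * U' * q := by
    ext x y
    simp [h1 x x.2 y y.2, hP, Matrix.mul_apply, hp, hU', hq]
  have hE0 : res b a D' = R := by
    ext x y
    simp only [res_apply, h0 x x.2 y y.2, hR]
  unfold IsTorsOn
  rw [← isTors_reindex_iff (insertEquiv a i hi) (insertEquiv b j hj), e1, e0]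
  have tt : t = -(U' * (q * R)) := by
    have : U * t = -(q * R) := eq_neg_of_add_eq_zero_right c13
    rw [← Matrix.mul_neg, ← this, ← Matrix.mul_assoc, U'U, Matrix.one_mul]
  have hbc : IsTors (fromBlocks P p q U) (fromBlocks R s t V) r ↔
      IsTors (fromBlocks (res a b D') 0 0 (1 : Matrix Unit Unit ℂ))
        (fromBlocks (res b a D') 0 0 (0 : Matrix Unit Unit ℂ)) r := by
    apply isTors_base_change_iff (G := fromBlocks 1 p 0 U) (G' := fromBlocks 1 (-(p * U')) 0 U')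
      (H := fromBlocks 1 0 (-(U' * q)) 1) (H' := fromBlocks 1 0 (U' * q) 1)
    · rw [fromBlocks_multiply]
      simp [UU', fromBlocks_one]
    · rw [fromBlocks_multiply]
      simp [U'U, Matrix.mul_assoc, fromBlocks_one]
    · rw [fromBlocks_multiply]
      simp [fromBlocks_one]
    · rw [fromBlocks_multiply]
      simp [fromBlocks_one]
    · rw [det_fromBlocks_zero₂₁, det_one, one_mul, det_unique]
      exact hu
    · rw [det_fromBlocks_zero₁₂, det_one, det_one]
      simp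
    · rw [fromBlocks_multiply, fromBlocks_multiply, hE1]
      congr 1
      · simp [Matrix.mul_assoc, sub_eq_add_neg]
      · simp
      · simp [← Matrix.mul_assoc, UU']
      · simp
    · rw [fromBlocks_multiply, fromBlocks_multiply, hE0]
      congr 1
      · simp
      · simp [c02]
      · simp [tt, Matrix.mul_assoc]
      · simp [c04]
  rw [hbc]
  have hU1 : IsTors (1 : Matrix Unit Unit ℂ) (0 : Matrix Unit Unit ℂ) 1 := by
    have := isTors_unit_odd (u := 1) (by simp)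
    have e : (1 : Matrix Unit Unit ℂ) = Matrix.of fun _ _ => 1 := by
      ext x y; simp
    rwa [← e] at this
  constructor
  · intro h
    have := h.of_block hU1
    simpa using this
  · intro h
    have := h.block hU1 (X₁ := 0) (X₀ := 0) (by simp) (by simp)
    simpa using this

/-- Gaussian elimination: `i` odd, `j` even, `D i j` of modulus one. -/
theorem isTorsOn_gauss_even {a b : Finset I} {D D' : I → I → ℂ} {r : ℂ} {i j : I}
    (hi : i ∉ b) (hj : j ∉ a) (hu : ‖D i j‖ = 1)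
    (h1 : ∀ x ∈ b, ∀ y ∈ a, D' x y = D x y - D x j * (D i j)⁻¹ * D i y)
    (h0 : ∀ y ∈ a, ∀ x ∈ b, D' y x = D y x)
    (hcx : IsCx (insert j a) (insert i b) D) :
    IsTorsOn (insert j a) (insert i b) D r ↔ IsTorsOn a b D' r := by
  rw [isTorsOn_swap, isTorsOn_swap (a := a)]
  exact isTorsOn_gauss_odd hi hj hu h1 h0 hcx.swap

/-- change of basis: the even cell `τ` is replaced by the combination `∑ c k • k` (with
`|c τ| = 1`), when `τ` does not occur in any boundary. -/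
theorem isTorsOn_column_even {a b : Finset I} {D D' : I → I → ℂ} {r : ℂ} {τ : I} (hτ : τ ∈ a)
    (c : I → ℂ) (hc : ‖c τ‖ = 1) (hmax : ∀ k ∈ b, D τ k = 0)
    (hcol : ∀ k ∈ b, D' k τ = ∑ l ∈ a, D k l * c l)
    (hD1 : ∀ k ∈ a, ∀ l ∈ b, D' k l = D k l)
    (hD0 : ∀ k ∈ b, ∀ l ∈ a, l ≠ τ → D' k l = D k l) :
    IsTorsOn a b D' r ↔ IsTorsOn a b D r := by
  classical
  have hcτ : c τ ≠ 0 := by
    intro h; rw [h, norm_zero] at hc; exact zero_ne_one hc
  set t : {x // x ∈ a} := ⟨τ, hτ⟩ with ht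
  -- `G` = identity with column `τ` replaced by `c`, `G'` its inverse
  set G : Matrix {x // x ∈ a} {x // x ∈ a} ℂ :=
    Matrix.updateCol 1 t (fun x => c x) with hG
  have hdet : G.det = c τ := by
    rw [hG, ← cramer_apply, cramer_one]
    rfl
  have hGu : IsUnit G.det := by rw [hdet]; exact isUnit_iff_ne_zero.mpr hcτ
  have hdetn : ‖G.det‖ = 1 := by rw [hdet, hc]
  unfold IsTorsOn
  symm
  apply isTors_base_change_iff (G := G) (G' := G⁻¹) (H := 1) (H' := 1)
    (mul_nonsing_inv _ hGu) (nonsing_inv_mul _ hGu) (by simp) (by simp) hdetn (by simp)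
  · rw [Matrix.mul_one]
    have hGE : G * res a b D' = (1 : Matrix {x // x ∈ a} {x // x ∈ a} ℂ) * res a b D' := by
      ext x l
      rw [Matrix.mul_apply, Matrix.mul_apply]
      apply Finset.sum_congr rfl
      intro y _
      by_cases hy : y = t
      · have : res a b D' y l = 0 := by
          rw [hy, res_apply, hD1 _ hτ _ l.2, hmax _ l.2]
        rw [this, mul_zero, mul_zero]
      · rw [hG, updateCol_apply, if_neg hy]
    rw [hGE, Matrix.one_mul]
    ext x l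
    exact (hD1 x x.2 l l.2).symm
  · rw [Matrix.one_mul]
    ext k x
    rw [Matrix.mul_apply]
    by_cases hx : x = t
    · have e : ∀ y : {x // x ∈ a}, res b a D k y * G y x = D k y * c y := by
        intro y
        rw [hG, updateCol_apply, if_pos hx, res_apply]
      rw [Finset.sum_congr rfl (fun y _ => e y), res_apply, hx, hcol k k.2,
        ← Finset.sum_coe_sort a]
    · have e : ∀ y : {x // x ∈ a}, res b a D k y * G y x = res b a D k y * (1 : Matrix _ _ ℂ) y x := by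
        intro y
        rw [hG, updateCol_apply, if_neg hx]
      rw [Finset.sum_congr rfl (fun y _ => e y), ← Matrix.mul_apply, Matrix.mul_one, res_apply,
        res_apply, hD0 k k.2 x x.2]
      intro h
      exact hx (Subtype.ext h)

end indexed

end Pool.Agent.Lib.MP_50ef00_gt.H65
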