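import Mathlib
import Pool.Agent.Lib.MP_50ef00_gt.Defs
import Pool.Agent.Lib.MP_50ef00_gt.H65.Aff
import Pool.Agent.Lib.MP_50ef00_gt.H65.Tors

/-!
The twisted simplicial chain complex with one extra generator `none` in degree one.
-/

namespace Pool.Agent.Lib.MP_50ef00_gt.H65

/-- the least vertex -/
noncomputable def mn (s : Finset ℕ) : ℕ := sInf (s : Set ℕ)

theorem mn_mem {s : Finset ℕ} (h : s.Nonempty) : mn s ∈ s := by
  have := Nat.sInf_mem (s := (s : Set ℕ)) (by simpa using h)
  simpa [mn] using this

theorem mn_le {s : Finset ℕ} {v : ℕ} (h : v ∈ s) : mn s ≤ v :=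
  Nat.sInf_le (by simpa using h)

theorem mn_eq {s : Finset ℕ} {v : ℕ} (h : v ∈ s) (h' : ∀ w ∈ s, v ≤ w) : mn s = v :=
  le_antisymm (mn_le h) (h' _ (mn_mem ⟨v, h⟩))

/-- the sign of the vertex `v` in `s` -/
def sgn (s : Finset ℕ) (v : ℕ) : ℂ := (-1) ^ (s.filter (· < v)).card

theorem norm_sgn (s : Finset ℕ) (v : ℕ) : ‖sgn s v‖ = 1 := by simp [sgn]

theorem sgn_mul_self (s : Finset ℕ) (v : ℕ) : sgn s v * sgn s v = 1 := by
  simp [sgn, ← pow_add, ← two_mul]

theorem sgn_erase_of_lt {s : Finset ℕ} {v w : ℕ} (hv : v ∈ s) (h : v < w) :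
    sgn (s.erase v) w = -sgn s w := by
  have e : (s.filter (· < w)).card = ((s.erase v).filter (· < w)).card + 1 := by
    have e1 : (s.erase v).filter (· < w) = (s.filter (· < w)).erase v := by
      ext x
      simp only [Finset.mem_filter, Finset.mem_erase]
      tauto
    rw [e1, Finset.card_erase_add_one]
    simp [hv, h]
  rw [sgn, sgn, e, pow_succ]; ring

theorem sgn_erase_of_gt {s : Finset ℕ} {v w : ℕ} (h : w < v) :
    sgn (s.erase v) w = sgn s w := by
  have e : (s.erase v).filter (· < w) = s.filter (· < w) := by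
    ext x
    simp only [Finset.mem_filter, Finset.mem_erase]
    constructor
    · rintro ⟨⟨-, h1⟩, h2⟩; exact ⟨h1, h2⟩
    · rintro ⟨h1, h2⟩; exact ⟨⟨by omega, h1⟩, h2⟩
  rw [sgn, sgn, e]

theorem sgn_anti {s : Finset ℕ} {v w : ℕ} (hv : v ∈ s) (hw : w ∈ s) (h : v ≠ w) :
    sgn s w * sgn (s.erase w) v = -(sgn s v * sgn (s.erase v) w) := by
  rcases lt_or_gt_of_ne h with h' | h'
  · rw [sgn_erase_of_gt h', sgn_erase_of_lt hv h']; ring
  · rw [sgn_erase_of_lt hw h', sgn_erase_of_gt h']; ring

/-- the cocycle condition for a function on ordered pairs of vertices -/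
def IsCocycle {G : Type*} [Group G] (K : Finset (Finset ℕ)) (A : ℕ → ℕ → G) : Prop :=
  ∀ u v w : ℕ, ({u, v, w} : Finset ℕ) ∈ K → A u v * A v w = A u w

/-- area of the triangle `a,b,c`, developed in the frame of `a` -/
noncomputable def tri (A : ℕ → ℕ → G2) (a b c : ℕ) : ℂ := cross (pos (A a b)) (pos (A a c))

/-- area of a set of three vertices -/
noncomputable def ar (A : ℕ → ℕ → G2) (s : Finset ℕ) : ℂ :=
  if s.card = 3 then
    tri A (mn s) (mn (s.erase (mn s))) (mn ((s.erase (mn s)).erase (mn (s.erase (mn s)))))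
  else 0

/-- The boundary matrix. The index `some s` is the simplex `s`, the index `none` is the extra
generator. Column `j` is the boundary of `j`. -/
noncomputable def Dg (A : ℕ → ℕ → G2) : Option (Finset ℕ) → Option (Finset ℕ) → ℂ
  | some s', some s => ∑ v ∈ s, if s.erase v = s' then sgn s v * rho (A (mn s) (mn s')) else 0
  | none, some s => ar A s
  | _, none => 0

/-- even cells of a complex -/
def evenCells (K : Finset (Finset ℕ)) : Finset (Option (Finset ℕ)) :=
  (K.filter (fun s => Odd s.card)).image some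

/-- odd cells of a complex, and the extra generator -/
def oddCells (K : Finset (Finset ℕ)) : Finset (Option (Finset ℕ)) :=
  insert none ((K.filter (fun s => Even s.card)).image some)

section
variable {K : Finset (Finset ℕ)} {A : ℕ → ℕ → G2}

theorem IsCocycle.self {G : Type*} [Group G] {A : ℕ → ℕ → G} (h : IsCocycle K A) {u : ℕ}
    (hu : {u} ∈ K) : A u u = 1 := by
  have := h u u u (by simpa using hu)
  exact mul_eq_left.mp this

theorem IsCocycle.of_subset {G : Type*} [Group G] {A : ℕ → ℕ → G} (hK : IsComplex K)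
    (h : IsCocycle K A) {s : Finset ℕ} (hs : s ∈ K) {u v w : ℕ} (hu : u ∈ s) (hv : v ∈ s)
    (hw : w ∈ s) : A u v * A v w = A u w := by
  apply h
  apply (hK s hs).2
  · intro x hx
    simp only [Finset.mem_insert, Finset.mem_singleton] at hx
    rcases hx with rfl | rfl | rfl <;> assumption
  · exact ⟨u, by simp⟩

theorem mn_insert {a : ℕ} {t : Finset ℕ} (h : ∀ x ∈ t, a < x) : mn (insert a t) = a := by
  apply mn_eq (Finset.mem_insert_self _ _)
  intro w hw
  rcases Finset.mem_insert.mp hw with rfl | hw
  · exact le_rfl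
  · exact (h w hw).le

theorem mn_singleton (a : ℕ) : mn {a} = a := by
  apply mn_eq (Finset.mem_singleton_self _)
  intro w hw
  rw [Finset.mem_singleton.mp hw]

theorem mn_pair {a b : ℕ} (h : a < b) : mn {a, b} = a := by
  apply mn_insert; intro x hx; rw [Finset.mem_singleton.mp hx]; exact h

theorem mn_triple {a b c : ℕ} (h : a < b) (h' : a < c) : mn {a, b, c} = a := by
  apply mn_insert; intro x hx
  simp only [Finset.mem_insert, Finset.mem_singleton] at hx
  rcases hx with rfl | rfl <;> assumption

theorem mn_erase_gt {s : Finset ℕ} {x : ℕ} (hx : x ∈ s.erase (mn s)) : mn s < x := by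
  have h1 := Finset.mem_erase.mp hx
  exact lt_of_le_of_ne (mn_le h1.2) (Ne.symm h1.1)

theorem ar_triple {a b c : ℕ} (h : a < b) (h' : b < c) : ar A {a, b, c} = tri A a b c := by
  have h3 : ({a, b, c} : Finset ℕ).card = 3 := by
    rw [Finset.card_eq_three]
    exact ⟨a, b, c, by omega, by omega, by omega, rfl⟩
  have e1 : mn {a, b, c} = a := mn_triple h (h.trans h')
  have e2 : ({a, b, c} : Finset ℕ).erase a = {b, c} := by
    apply Finset.erase_insert
    simp only [Finset.mem_insert, Finset.mem_singleton]; omega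
  have e3 : mn {b, c} = b := mn_pair h'
  have e4 : ({b, c} : Finset ℕ).erase b = {c} := by
    apply Finset.erase_insert
    simp only [Finset.mem_singleton]; omega
  rw [ar, if_pos h3, e1, e2, e3, e4, mn_singleton]

theorem exists_four {s : Finset ℕ} (h : s.card = 4) :
    ∃ a b c d, a < b ∧ b < c ∧ c < d ∧ s = {a, b, c, d} := by
  have n0 : s.Nonempty := Finset.card_pos.mp (by omega)
  have c1 : (s.erase (mn s)).card = 3 := by rw [Finset.card_erase_of_mem (mn_mem n0), h]
  set s1 := s.erase (mn s) with hs1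
  have n1 : s1.Nonempty := Finset.card_pos.mp (by omega)
  have c2 : (s1.erase (mn s1)).card = 2 := by rw [Finset.card_erase_of_mem (mn_mem n1), c1]
  set s2 := s1.erase (mn s1) with hs2
  have n2 : s2.Nonempty := Finset.card_pos.mp (by omega)
  have c3 : (s2.erase (mn s2)).card = 1 := by rw [Finset.card_erase_of_mem (mn_mem n2), c2]
  set s3 := s2.erase (mn s2) with hs3
  obtain ⟨d, hd⟩ := Finset.card_eq_one.mp c3
  refine ⟨mn s, mn s1, mn s2, d, mn_erase_gt (mn_mem n1), mn_erase_gt (mn_mem n2),
    mn_erase_gt (s := s2) (by rw [← hs3, hd]; simp), ?_⟩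
  rw [← hd, hs3, Finset.insert_erase (mn_mem n2), hs2, Finset.insert_erase (mn_mem n1), hs1,
    Finset.insert_erase (mn_mem n0)]

/-- signed areas of the faces of a tetrahedron -/
theorem tri_cocycle {a b c d : ℕ} (hbc : A a b * A b c = A a c)
    (hbd : A a b * A b d = A a d) :
    rho (A a b) * tri A b c d - tri A a c d + tri A a b d - tri A a b c = 0 := by
  have := cross_move (A a b) (A b c) (A b d)
  rw [hbc, hbd] at this
  unfold tri
  rw [← this, cross_swap (pos (A a b)) (pos (A a d))]
  ring

theorem ar_sum_eq_zero (hK : IsComplex K) (hA : IsCocycle K A) {s : Finset ℕ} (hs : s ∈ K)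
    (h4 : s.card = 4) :
    ∑ v ∈ s, ar A (s.erase v) * (sgn s v * rho (A (mn s) (mn (s.erase v)))) = 0 := by
  obtain ⟨a, b, c, d, hab, hbc, hcd, rfl⟩ := exists_four h4
  have ea : ({a, b, c, d} : Finset ℕ).erase a = {b, c, d} := by
    ext x; simp only [Finset.mem_erase, Finset.mem_insert, Finset.mem_singleton]; omega
  have eb : ({a, b, c, d} : Finset ℕ).erase b = {a, c, d} := by
    ext x; simp only [Finset.mem_erase, Finset.mem_insert, Finset.mem_singleton]; omega
  have ec : ({a, b, c, d} : Finset ℕ).erase c = {a, b, d} := by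
    ext x; simp only [Finset.mem_erase, Finset.mem_insert, Finset.mem_singleton]; omega
  have ed : ({a, b, c, d} : Finset ℕ).erase d = {a, b, c} := by
    ext x; simp only [Finset.mem_erase, Finset.mem_insert, Finset.mem_singleton]; omega
  have fa : ({a, b, c, d} : Finset ℕ).filter (· < a) = ∅ := by
    rw [Finset.filter_eq_empty_iff]
    intro x hx
    simp only [Finset.mem_insert, Finset.mem_singleton] at hx
    omega
  have fb : ({a, b, c, d} : Finset ℕ).filter (· < b) = {a} := by
    ext x; simp only [Finset.mem_filter, Finset.mem_insert, Finset.mem_singleton]; omega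
  have fc : ({a, b, c, d} : Finset ℕ).filter (· < c) = {a, b} := by
    ext x; simp only [Finset.mem_filter, Finset.mem_insert, Finset.mem_singleton]; omega
  have fd : ({a, b, c, d} : Finset ℕ).filter (· < d) = {a, b, c} := by
    ext x; simp only [Finset.mem_filter, Finset.mem_insert, Finset.mem_singleton]; omega
  have sa : sgn {a, b, c, d} a = 1 := by rw [sgn, fa]; simp
  have sb : sgn {a, b, c, d} b = -1 := by rw [sgn, fb]; simp
  have sc : sgn {a, b, c, d} c = 1 := by
    rw [sgn, fc, Finset.card_pair (by omega)]; norm_num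
  have sd : sgn {a, b, c, d} d = -1 := by
    rw [sgn, fd, Finset.card_eq_three.mpr ⟨a, b, c, by omega, by omega, by omega, rfl⟩]; norm_num
  have m0 : mn {a, b, c, d} = a := by
    apply mn_insert; intro x hx
    simp only [Finset.mem_insert, Finset.mem_singleton] at hx; omega
  rw [Finset.sum_insert (by simp only [Finset.mem_insert, Finset.mem_singleton]; omega),
    Finset.sum_insert (by simp only [Finset.mem_insert, Finset.mem_singleton]; omega),
    Finset.sum_insert (by simp only [Finset.mem_singleton]; omega), Finset.sum_singleton,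
    ea, eb, ec, ed, sa, sb, sc, sd, m0, mn_triple hbc (hbc.trans hcd),
    mn_triple (hab.trans hbc) (by omega), mn_triple hab (by omega), mn_triple hab (by omega),
    ar_triple hbc hcd, ar_triple (hab.trans hbc) hcd, ar_triple hab (hbc.trans hcd),
    ar_triple hab hbc]
  have haa : A a a = 1 := by
    have := hA.of_subset hK hs (u := a) (v := a) (w := a) (by simp) (by simp) (by simp)
    exact mul_eq_left.mp this
  have h := tri_cocycle (A := A) (a := a) (b := b) (c := c) (d := d)
    (hA.of_subset hK hs (by simp) (by simp) (by simp))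
    (hA.of_subset hK hs (by simp) (by simp) (by simp))
  rw [haa, rho_one]
  linear_combination h

theorem mem_evenCells {x : Option (Finset ℕ)} :
    x ∈ evenCells K ↔ ∃ s ∈ K, Odd s.card ∧ x = some s := by
  simp only [evenCells, Finset.mem_image, Finset.mem_filter]
  constructor
  · rintro ⟨s, ⟨h1, h2⟩, rfl⟩; exact ⟨s, h1, h2, rfl⟩
  · rintro ⟨s, h1, h2, rfl⟩; exact ⟨s, ⟨h1, h2⟩, rfl⟩

theorem mem_oddCells {x : Option (Finset ℕ)} :
    x ∈ oddCells K ↔ x = none ∨ ∃ s ∈ K, Even s.card ∧ x = some s := by
  simp only [oddCells, Finset.mem_insert, Finset.mem_image, Finset.mem_filter]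
  constructor
  · rintro (h | ⟨s, ⟨h1, h2⟩, rfl⟩)
    · exact Or.inl h
    · exact Or.inr ⟨s, h1, h2, rfl⟩
  · rintro (h | ⟨s, h1, h2, rfl⟩)
    · exact Or.inl h
    · exact Or.inr ⟨s, ⟨h1, h2⟩, rfl⟩

@[simp] theorem Dg_none_right (x : Option (Finset ℕ)) : Dg A x none = 0 := by
  cases x <;> rfl

theorem Dg_none_some (s : Finset ℕ) : Dg A none (some s) = ar A s := rfl

theorem Dg_some_some (s' s : Finset ℕ) : Dg A (some s') (some s)
    = ∑ v ∈ s, if s.erase v = s' then sgn s v * rho (A (mn s) (mn s')) else 0 := rfl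

/-- sums of products of boundary coefficients over a set of cells containing all facets -/
theorem sum_Dg_mul (F : Finset (Option (Finset ℕ))) (f : Option (Finset ℕ) → ℂ) (s : Finset ℕ)
    (hF : ∀ v ∈ s, some (s.erase v) ∈ F) :
    ∑ y ∈ F, f y * Dg A y (some s)
      = (if none ∈ F then f none * ar A s else 0)
        + ∑ v ∈ s, f (some (s.erase v)) * (sgn s v * rho (A (mn s) (mn (s.erase v)))) := by
  classical
  have h1 : ∑ y ∈ F, f y * Dg A y (some s)
      = ∑ y ∈ F, ((if y = none then f none * ar A s else 0)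
        + ∑ v ∈ s, if some (s.erase v) = y then
          f (some (s.erase v)) * (sgn s v * rho (A (mn s) (mn (s.erase v)))) else 0) := by
    apply Finset.sum_congr rfl
    intro y _
    cases y with
    | none => simp [Dg_none_some]
    | some s' =>
      rw [if_neg (by simp), zero_add, Dg_some_some, Finset.mul_sum]
      apply Finset.sum_congr rfl
      intro v _
      by_cases hv : s.erase v = s'
      · subst hv; simp
      · rw [if_neg hv, if_neg (by simpa using hv), mul_zero]
  rw [h1, Finset.sum_add_distrib]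
  congr 1
  · rw [Finset.sum_ite_eq']
  · rw [Finset.sum_comm]
    apply Finset.sum_congr rfl
    intro v hv
    rw [Finset.sum_ite_eq, if_pos (hF v hv)]

theorem sum_anti_eq_zero (s : Finset ℕ) (f : ℕ → ℕ → ℂ)
    (hf : ∀ v ∈ s, ∀ w ∈ s, v ≠ w → f w v = -f v w) :
    ∑ v ∈ s, ∑ w ∈ s.erase v, f v w = 0 := by
  have h1 : ∑ v ∈ s, ∑ w ∈ s.erase v, f v w = ∑ p ∈ s.offDiag, f p.1 p.2 := by
    rw [Finset.sum_sigma']
    apply Finset.sum_bij' (fun (p : Σ _ : ℕ, ℕ) _ => (p.1, p.2)) (fun p _ => ⟨p.1, p.2⟩)
    · rintro ⟨v, w⟩ h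
      simp only [Finset.mem_sigma, Finset.mem_erase] at h
      simp only [Finset.mem_offDiag]
      exact ⟨h.1, h.2.2, Ne.symm h.2.1⟩
    · rintro ⟨v, w⟩ h
      simp only [Finset.mem_offDiag] at h
      simp only [Finset.mem_sigma, Finset.mem_erase]
      exact ⟨h.1, Ne.symm h.2.2, h.2.1⟩
    · rintro ⟨v, w⟩ _; rfl
    · rintro ⟨v, w⟩ _; rfl
    · rintro ⟨v, w⟩ _; rfl
  have h2 : ∑ p ∈ s.offDiag, f p.1 p.2 = ∑ p ∈ s.offDiag, f p.2 p.1 := by
    apply Finset.sum_bij' (fun (p : ℕ × ℕ) _ => ((p.2, p.1) : ℕ × ℕ))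
      (fun (p : ℕ × ℕ) _ => ((p.2, p.1) : ℕ × ℕ))
    · rintro ⟨v, w⟩ h
      simp only [Finset.mem_offDiag] at h ⊢
      exact ⟨h.2.1, h.1, Ne.symm h.2.2⟩
    · rintro ⟨v, w⟩ h
      simp only [Finset.mem_offDiag] at h ⊢
      exact ⟨h.2.1, h.1, Ne.symm h.2.2⟩
    · rintro ⟨v, w⟩ _; rfl
    · rintro ⟨v, w⟩ _; rfl
    · rintro ⟨v, w⟩ _; rfl
  have h3 : ∑ p ∈ s.offDiag, f p.2 p.1 = -∑ p ∈ s.offDiag, f p.1 p.2 := by
    rw [← Finset.sum_neg_distrib]
    apply Finset.sum_congr rfl
    rintro ⟨v, w⟩ h
    simp only [Finset.mem_offDiag] at h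
    exact hf v h.1 w h.2.1 h.2.2
  rw [h1]
  rw [h3] at h2
  exact self_eq_neg.mp h2

/-- `D² = 0` on the facets of a simplex of the complex -/
theorem Dg_sq (hK : IsComplex K) (hA : IsCocycle K A) {s : Finset ℕ} (hs : s ∈ K)
    (F : Finset (Option (Finset ℕ)))
    (hF : 2 ≤ s.card → ∀ v ∈ s, some (s.erase v) ∈ F) (hF0 : some ∅ ∉ F)
    (x : Option (Finset ℕ)) (hx : x ≠ some ∅) :
    ∑ y ∈ F, Dg A x y * Dg A y (some s) = 0 := by
  have hsn := (hK s hs).1
  by_cases h2 : 2 ≤ s.card
  · rw [sum_Dg_mul F (fun y => Dg A x y) s (hF h2)]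
    simp only [Dg_none_right, zero_mul, ite_self, zero_add]
    cases x with
    | none =>
      simp only [Dg_none_some]
      by_cases h4 : s.card = 4
      · exact ar_sum_eq_zero hK hA hs h4
      · apply Finset.sum_eq_zero
        intro v hv
        have : ar A (s.erase v) = 0 := by
          rw [ar, if_neg]
          rw [Finset.card_erase_of_mem hv]; omega
        rw [this, zero_mul]
    | some s'' =>
      have hs'' : s''.Nonempty := by
        rw [Finset.nonempty_iff_ne_empty]; intro h; exact hx (by rw [h])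
      have e : ∀ v ∈ s, Dg A (some s'') (some (s.erase v)) *
          (sgn s v * rho (A (mn s) (mn (s.erase v))))
          = ∑ w ∈ s.erase v, if (s.erase v).erase w = s'' then
            sgn s v * sgn (s.erase v) w * rho (A (mn s) (mn s'')) else 0 := by
        intro v hv
        rw [Dg_some_some, Finset.sum_mul]
        apply Finset.sum_congr rfl
        intro w hw
        by_cases h : (s.erase v).erase w = s''
        · rw [if_pos h, if_pos h]
          have hm : mn s'' ∈ s := by
            have := mn_mem hs''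
            rw [← h] at this ⊢
            exact Finset.mem_of_mem_erase (Finset.mem_of_mem_erase this)
          have hm1 : mn (s.erase v) ∈ s := Finset.mem_of_mem_erase (mn_mem ⟨w, hw⟩)
          have := hA.of_subset hK hs (mn_mem hsn) hm1 hm
          rw [← this, rho_mul]
          ring
        · rw [if_neg h, if_neg h, zero_mul]
      rw [Finset.sum_congr rfl e]
      apply sum_anti_eq_zero
      intro v hv w hw hvw
      have e2 : (s.erase w).erase v = (s.erase v).erase w := Finset.erase_right_comm
      rw [e2]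
      by_cases h : (s.erase v).erase w = s''
      · rw [if_pos h, if_pos h, sgn_anti hv hw hvw]; ring
      · rw [if_neg h, if_neg h, neg_zero]
  · -- one vertex
    have hc : s.card = 1 := by
      have := Finset.card_pos.mpr hsn
      omega
    obtain ⟨a, rfl⟩ := Finset.card_eq_one.mp hc
    apply Finset.sum_eq_zero
    intro y hy
    cases y with
    | none =>
      rw [Dg_none_right, zero_mul]
    | some s' =>
      have hne : ({a} : Finset ℕ).erase a ≠ s' := by
        intro h
        rw [Finset.erase_singleton] at h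
        rw [← h] at hy
        exact hF0 hy
      rw [Dg_some_some, Finset.sum_singleton, if_neg hne, mul_zero]

/-- the twisted chain complex is a complex -/
theorem isCx (hK : IsComplex K) (hA : IsCocycle K A) :
    IsCx (evenCells K) (oddCells K) (Dg A) := by
  have he : some ∅ ∉ evenCells K := by
    rw [mem_evenCells]
    rintro ⟨s, hs, -, h⟩
    have := (hK s hs).1
    rw [Option.some_inj] at h
    rw [← h] at this
    exact Finset.not_nonempty_empty this
  have ho : some ∅ ∉ oddCells K := by
    rw [mem_oddCells]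
    rintro (h | ⟨s, hs, -, h⟩)
    · exact absurd h (by simp)
    · have := (hK s hs).1
      rw [Option.some_inj] at h
      rw [← h] at this
      exact Finset.not_nonempty_empty this
  constructor
  · intro x hx z hz
    obtain ⟨s, hs, hs1, rfl⟩ := mem_evenCells.mp hz
    apply Dg_sq hK hA hs
    · intro h2 v hv
      rw [mem_oddCells]
      refine Or.inr ⟨s.erase v, (hK s hs).2 _ (Finset.erase_subset _ _) ?_, ?_, rfl⟩
      · rw [← Finset.card_pos, Finset.card_erase_of_mem hv]; omega
      · rw [Finset.card_erase_of_mem hv]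
        exact Nat.Odd.sub_odd hs1 odd_one
    · exact ho
    · rintro rfl; exact he hx
  · intro x hx z hz
    rcases mem_oddCells.mp hz with rfl | ⟨s, hs, hs1, rfl⟩
    · simp
    apply Dg_sq hK hA hs
    · intro h2 v hv
      rw [mem_evenCells]
      refine ⟨s.erase v, (hK s hs).2 _ (Finset.erase_subset _ _) ?_, ?_, rfl⟩
      · rw [← Finset.card_pos, Finset.card_erase_of_mem hv]; omega
      · rw [Finset.card_erase_of_mem hv]
        exact Nat.Even.sub_odd (by omega) hs1 odd_one
    · exact he
    · rintro rfl; exact ho hx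

end

end Pool.Agent.Lib.MP_50ef00_gt.H65
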