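import Mathlib
import Pool.Agent.Lib.MP_50ef00_gt.NegC

/-!
Invariance of the torsion under an elementary collapse (with additional even cells `V`),
invariance of holonomy groups, and `CollapseStatement`.
-/

namespace Pool.Agent.Lib.MP_50ef00_gt.H65

open Pool.Agent.Lib.MP_50ef00_gt

theorem Dg_eq_zero_of_not_subset {A : ℕ → ℕ → G2} {s u : Finset ℕ} (h : ¬ s ⊂ u) :
    Dg A (some s) (some u) = 0 := by
  rw [Dg_some_some]
  apply Finset.sum_eq_zero
  intro v hv
  rw [if_neg]
  intro h'
  exact h (h' ▸ Finset.erase_ssubset hv)

theorem norm_Dg_facet {A : ℕ → ℕ → G2} {s t : Finset ℕ} (hst : s ⊆ t)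
    (hc : t.card = s.card + 1) : ‖Dg A (some s) (some t)‖ = 1 := by
  obtain ⟨v, hv⟩ : ∃ v, t \ s = {v} := by
    rw [← Finset.card_eq_one, Finset.card_sdiff_of_subset hst, hc]; omega
  have hvt : v ∈ t ∧ v ∉ s := by
    have : v ∈ t \ s := by rw [hv]; simp
    exact Finset.mem_sdiff.mp this
  have hes : t.erase v = s := by
    ext x
    simp only [Finset.mem_erase]
    constructor
    · rintro ⟨h1, h2⟩
      by_contra h3
      have : x ∈ t \ s := Finset.mem_sdiff.mpr ⟨h2, h3⟩
      rw [hv, Finset.mem_singleton] at this
      exact h1 this
    · intro h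
      exact ⟨fun h' => hvt.2 (h' ▸ h), hst h⟩
  rw [Dg_some_some, Finset.sum_eq_single v]
  · rw [if_pos hes, norm_mul, norm_sgn, norm_rho, one_mul]
  · intro w hw hwv
    rw [if_neg]
    intro h
    have : v ∈ t.erase w := Finset.mem_erase.mpr ⟨hwv.symm, hvt.1⟩
    rw [h] at this
    exact hvt.2 this
  · intro h; exact absurd hvt.1 h

variable {K L G : Finset (Finset ℕ)} {A : ℕ → ℕ → G2} {V : Finset Cell} {D : Cell → Cell → ℂ}

theorem oddCells_mono (h : L ⊆ K) : oddCells L ⊆ oddCells K := by
  intro x hx
  rw [mem_oddCells] at hx ⊢
  rcases hx with h1 | ⟨s, h1, h2, h3⟩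
  · exact Or.inl h1
  · exact Or.inr ⟨s, h h1, h2, h3⟩

theorem evenCells_mono (h : L ⊆ K) : evenCells L ⊆ evenCells K := by
  intro x hx
  rw [mem_evenCells] at hx ⊢
  obtain ⟨s, h1, h2, h3⟩ := hx
  exact ⟨s, h h1, h2, h3⟩

theorem vcells_mono (hV : VCells K G A V D) (hGL : G ⊆ L) (hLK : L ⊆ K) :
    VCells L G A V D where
  sub := hGL
  notMem v hv := ⟨(hV.notMem v hv).1, fun s hs => (hV.notMem v hv).2 s (hLK hs)⟩
  row v hv y hy := hV.row v hv y (oddCells_mono hLK hy)
  col s hs := hV.col s (hLK hs)
  colnone := hV.colnone
  supp := hV.supp
  cyc := hV.cyc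

theorem vcells_isCx (hK : IsComplex K) (hA : IsCocycle K A) (hV : VCells K G A V D) :
    IsCx (V ∪ evenCells K) (oddCells K) D := by
  have hcx := H65.isCx hK hA
  have hDy : ∀ x, ∀ y ∈ oddCells K, D x y = Dg A x y := by
    intro x y hy
    rcases mem_oddCells.mp hy with rfl | ⟨s, hs, -, rfl⟩
    · rw [hV.colnone, Dg_none_right]
    · exact hV.col s hs x
  have hDe : ∀ x, ∀ y ∈ evenCells K, D x y = Dg A x y := by
    intro x y hy
    obtain ⟨s, hs, -, rfl⟩ := mem_evenCells.mp hy
    exact hV.col s hs x
  constructor
  · intro x hx z hz
    rcases Finset.mem_union.mp hz with hz | hz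
    · -- `z ∈ V`
      have h1 : ∑ y ∈ oddCells K, D x y * D y z = ∑ y ∈ oddCells G, D x y * D y z := by
        symm
        apply Finset.sum_subset (oddCells_mono hV.sub)
        intro y _ hy
        rw [hV.supp z hz y hy, mul_zero]
      rw [h1]; exact hV.cyc z hz x
    · rcases Finset.mem_union.mp hx with hx | hx
      · apply Finset.sum_eq_zero
        intro y hy
        rw [hV.row x hx y hy, zero_mul]
      · rw [← hcx.1 x hx z hz]
        apply Finset.sum_congr rfl
        intro y hy
        rw [hDy x y hy, hDe y z hz]
  · intro x hx z hz
    have h1 : ∑ y ∈ V ∪ evenCells K, D x y * D y z = ∑ y ∈ evenCells K, D x y * D y z := by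
      symm
      apply Finset.sum_subset Finset.subset_union_right
      intro y hy hy'
      rcases Finset.mem_union.mp hy with hy | hy
      · rw [hV.row y hy z hz, mul_zero]
      · exact absurd hy hy'
    rw [h1, ← hcx.2 x hx z hz]
    apply Finset.sum_congr rfl
    intro y hy
    rw [hDe x y hy, hDy y z hz]

theorem collapse_core (hK : IsComplex K) (hA : IsCocycle K A)
    (hV : VCells K G A V D) (hGL : G ⊆ L) (hKL : Collapse K L) (r : ℂ) :
    IsTorsOn (V ∪ evenCells K) (oddCells K) D r ↔
      IsTorsOn (V ∪ evenCells L) (oddCells L) D r := by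
  classical
  have hcx := vcells_isCx hK hA hV
  obtain ⟨s, t, hs, ht, hst, hc, hfree, rfl⟩ := hKL
  set L := (K.erase s).erase t with hL
  have hne : s ≠ t := by rintro rfl; omega
  have hsL : s ∉ L := by rw [hL]; simp
  have htL : t ∉ L := by rw [hL]; simp
  have hLK : L ⊆ K := (Finset.erase_subset _ _).trans (Finset.erase_subset _ _)
  have hKL : ∀ u ∈ K, u = s ∨ u = t ∨ u ∈ L := by
    intro u hu
    by_cases h1 : u = s
    · exact Or.inl h1
    · by_cases h2 : u = t
      · exact Or.inr (Or.inl h2)
      · exact Or.inr (Or.inr (by rw [hL]; simp [h1, h2, hu]))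
  have hnu : ‖D (some s) (some t)‖ = 1 := by
    rw [hV.col t ht]; exact norm_Dg_facet hst hc
  -- `s` is a facet of `t` only
  have hs0 : ∀ u ∈ L, D (some s) (some u) = 0 := by
    intro u hu
    rw [hV.col u (hLK hu)]
    apply Dg_eq_zero_of_not_subset
    intro h
    rcases hfree u (hLK hu) h.1 with rfl | rfl
    · exact hsL hu
    · exact htL hu
  -- `t` is in no boundary
  have ht0 : ∀ u ∈ K, D (some t) (some u) = 0 := by
    intro u hu
    rw [hV.col u hu]
    apply Dg_eq_zero_of_not_subset
    intro h
    rcases hfree u hu (hst.trans h.1) with rfl | rfl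
    · have := Finset.card_lt_card h; omega
    · exact ssubset_irrefl _ h
  have hVs : ∀ v ∈ V, D (some s) v = 0 := by
    intro v hv
    apply hV.supp v hv
    rw [mem_oddCells]
    rintro (h | ⟨u, hu, -, h⟩)
    · exact absurd h (by simp)
    · rw [Option.some_inj] at h
      exact hsL (hGL (h ▸ hu))
  have hVt : ∀ v ∈ V, D (some t) v = 0 := by
    intro v hv
    apply hV.supp v hv
    rw [mem_oddCells]
    rintro (h | ⟨u, hu, -, h⟩)
    · exact absurd h (by simp)
    · rw [Option.some_inj] at h
      exact htL (hGL (h ▸ hu))
  have hsV : some s ∉ V := fun h => (hV.notMem _ h).2 s hs rfl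
  have htV : some t ∉ V := fun h => (hV.notMem _ h).2 t ht rfl
  rcases Nat.even_or_odd t.card with hte | hto
  · -- `t` odd cell, `s` even cell
    have hso : Odd s.card := by
      rw [hc] at hte
      exact (Nat.even_add_one.mp hte) |> Nat.not_even_iff_odd.mp
    have e1 : V ∪ evenCells K = insert (some s) (V ∪ evenCells L) := by
      ext x
      simp only [Finset.mem_union, Finset.mem_insert, mem_evenCells]
      constructor
      · rintro (h | ⟨u, hu, hu1, rfl⟩)
        · exact Or.inr (Or.inl h)
        · rcases hKL u hu with rfl | rfl | h
          · exact Or.inl rfl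
          · exact absurd hte (Nat.not_even_iff_odd.mpr hu1)
          · exact Or.inr (Or.inr ⟨u, h, hu1, rfl⟩)
      · rintro (rfl | h | ⟨u, hu, hu1, rfl⟩)
        · exact Or.inr ⟨s, hs, hso, rfl⟩
        · exact Or.inl h
        · exact Or.inr ⟨u, hLK hu, hu1, rfl⟩
    have e2 : oddCells K = insert (some t) (oddCells L) := by
      ext x
      simp only [Finset.mem_insert, mem_oddCells]
      constructor
      · rintro (h | ⟨u, hu, hu1, rfl⟩)
        · exact Or.inr (Or.inl h)
        · rcases hKL u hu with rfl | rfl | h
          · exact absurd hu1 (Nat.not_even_iff_odd.mpr hso)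
          · exact Or.inl rfl
          · exact Or.inr (Or.inr ⟨u, h, hu1, rfl⟩)
      · rintro (rfl | h | ⟨u, hu, hu1, rfl⟩)
        · exact Or.inr ⟨t, ht, hte, rfl⟩
        · exact Or.inl h
        · exact Or.inr ⟨u, hLK hu, hu1, rfl⟩
    rw [e1, e2] at hcx ⊢
    apply isTorsOn_pair_odd _ _ hnu _ _ hcx
    · rw [Finset.mem_union, mem_evenCells]
      rintro (h | ⟨u, hu, -, h⟩)
      · exact hsV h
      · rw [Option.some_inj] at h; exact hsL (h ▸ hu)
    · rw [mem_oddCells]
      rintro (h | ⟨u, hu, -, h⟩)
      · exact absurd h (by simp)
      · rw [Option.some_inj] at h; exact htL (h ▸ hu)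
    · intro k hk
      rcases mem_oddCells.mp hk with rfl | ⟨u, hu, -, rfl⟩
      · exact hV.colnone _
      · exact hs0 u hu
    · intro k hk
      rw [← e1, Finset.mem_union, mem_evenCells] at hk
      rcases hk with hk | ⟨u, hu, -, rfl⟩
      · exact hVt k hk
      · exact ht0 u hu
  · -- `t` even cell, `s` odd cell
    have hse : Even s.card := by
      rw [hc] at hto
      exact (Nat.odd_add_one.mp hto) |> Nat.not_odd_iff_even.mp
    have e1 : V ∪ evenCells K = insert (some t) (V ∪ evenCells L) := by
      ext x
      simp only [Finset.mem_union, Finset.mem_insert, mem_evenCells]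
      constructor
      · rintro (h | ⟨u, hu, hu1, rfl⟩)
        · exact Or.inr (Or.inl h)
        · rcases hKL u hu with rfl | rfl | h
          · exact absurd hu1 (Nat.not_odd_iff_even.mpr hse)
          · exact Or.inl rfl
          · exact Or.inr (Or.inr ⟨u, h, hu1, rfl⟩)
      · rintro (rfl | h | ⟨u, hu, hu1, rfl⟩)
        · exact Or.inr ⟨t, ht, hto, rfl⟩
        · exact Or.inl h
        · exact Or.inr ⟨u, hLK hu, hu1, rfl⟩
    have e2 : oddCells K = insert (some s) (oddCells L) := by
      ext x
      simp only [Finset.mem_insert, mem_oddCells]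
      constructor
      · rintro (h | ⟨u, hu, hu1, rfl⟩)
        · exact Or.inr (Or.inl h)
        · rcases hKL u hu with rfl | rfl | h
          · exact Or.inl rfl
          · exact absurd hto (Nat.not_odd_iff_even.mpr hu1)
          · exact Or.inr (Or.inr ⟨u, h, hu1, rfl⟩)
      · rintro (rfl | h | ⟨u, hu, hu1, rfl⟩)
        · exact Or.inr ⟨s, hs, hse, rfl⟩
        · exact Or.inl h
        · exact Or.inr ⟨u, hLK hu, hu1, rfl⟩
    rw [e1, e2] at hcx ⊢
    apply isTorsOn_pair_even _ _ hnu _ _ hcx
    · rw [mem_oddCells]
      rintro (h | ⟨u, hu, -, h⟩)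
      · exact absurd h (by simp)
      · rw [Option.some_inj] at h; exact hsL (h ▸ hu)
    · rw [Finset.mem_union, mem_evenCells]
      rintro (h | ⟨u, hu, -, h⟩)
      · exact htV h
      · rw [Option.some_inj] at h; exact htL (h ▸ hu)
    · intro k hk
      rcases Finset.mem_union.mp hk with hk | hk
      · exact hVs k hk
      · obtain ⟨u, hu, -, rfl⟩ := mem_evenCells.mp hk
        exact hs0 u hu
    · intro k hk
      rw [← e2] at hk
      rcases mem_oddCells.mp hk with rfl | ⟨u, hu, -, rfl⟩
      · exact hV.colnone _
      · exact ht0 u hu

/-- plain version -/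
theorem vCells_empty (K : Finset (Finset ℕ)) (A : ℕ → ℕ → G2) : VCells K ∅ A ∅ (Dg A) where
  sub := Finset.empty_subset _
  notMem v hv := absurd hv (Finset.notMem_empty v)
  row v hv := absurd hv (Finset.notMem_empty v)
  col _ _ _ := rfl
  colnone x := Dg_none_right x
  supp v hv := absurd hv (Finset.notMem_empty v)
  cyc v hv := absurd hv (Finset.notMem_empty v)

theorem collapse_plain (hK : IsComplex K) (hA : IsCocycle K A) (hKL : Collapse K L) (r : ℂ) :
    IsTorsOn (evenCells K) (oddCells K) (Dg A) r ↔
      IsTorsOn (evenCells L) (oddCells L) (Dg A) r := by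
  have := collapse_core hK hA (vCells_empty K A) (Finset.empty_subset _) hKL r
  simpa using this

/-! ### holonomy -/

section hol

variable {Γ : Type*} [Group Γ] {B B' : ℕ → ℕ → Γ} {u v w : ℕ} {g g' : Γ}

theorem hol_right_mem (hK : IsComplex K) (h : Hol K B u v g) : {v} ∈ K := by
  cases h with
  | refl hv => exact hv
  | step _ hvw =>
    apply (hK _ hvw).2
    · intro x hx; rw [Finset.mem_singleton.mp hx]; simp
    · simp

theorem hol_left_mem (h : Hol K B u v g) : {u} ∈ K := by
  induction h with
  | refl hv => exact hv
  | step _ _ ih => exact ih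

theorem hol_trans (h : Hol K B u v g) (h' : Hol K B v w g') : Hol K B u w (g * g') := by
  induction h' with
  | refl _ => simpa using h
  | step _ hvw ih => rw [← mul_assoc]; exact Hol.step ih hvw

theorem hol_edge (hK : IsComplex K) (h : {u, v} ∈ K) : Hol K B u v (B u v) := by
  have hu : {u} ∈ K := by
    apply (hK _ h).2
    · intro x hx; rw [Finset.mem_singleton.mp hx]; simp
    · simp
  have := Hol.step (A := B) (Hol.refl u hu) h
  simpa using this

theorem hol_mono (hLK : L ⊆ K) (h : Hol L B u v g) : Hol K B u v g := by
  induction h with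
  | refl hv => exact Hol.refl _ (hLK hv)
  | step _ hvw ih => exact Hol.step ih (hLK hvw)

theorem hol_congr (h : Hol L B u v g)
    (hB : ∀ s ∈ L, ∀ x ∈ s, ∀ y ∈ s, B x y = B' x y) : Hol L B' u v g := by
  induction h with
  | refl hv => exact Hol.refl _ hv
  | step _ hvw ih =>
    rw [hB _ hvw _ (by simp) _ (by simp)]
    exact Hol.step ih hvw

theorem cocycle_mono (hLK : L ⊆ K) (h : IsCocycle K B) : IsCocycle L B :=
  fun u v w huvw => h u v w (hLK huvw)

theorem cocycle_inv (hK : IsComplex K) (h : IsCocycle K B) (huv : {u, v} ∈ K) :
    B u v * B v u = 1 := by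
  have h1 := h u v u (by
    have : ({u, v, u} : Finset ℕ) = {u, v} := by ext x; simp; tauto
    rwa [this])
  have h2 : B u u = 1 := by
    apply h.self
    apply (hK _ huv).2
    · intro x hx; rw [Finset.mem_singleton.mp hx]; simp
    · simp
  rw [h1, h2]

/-- holonomies of paths in `K` between vertices of `L` are holonomies of paths in `L` -/
theorem hol_collapse (hK : IsComplex K) (hB : IsCocycle K B) (hKL : Collapse K L)
    (hu : {u} ∈ L) (hv : {v} ∈ L) (h : Hol K B u v g) : Hol L B u v g := by
  obtain ⟨s, t, hs, ht, hst, hc, hfree, rfl⟩ := hKL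
  set L := (K.erase s).erase t with hL
  have memL : ∀ x ∈ K, x ≠ s → x ≠ t → x ∈ L := by
    intro x hx h1 h2; rw [hL]; simp [h1, h2, hx]
  have sne : s.Nonempty := (hK s hs).1
  have sub : ∀ x ⊆ t, x.Nonempty → x ∈ K := (hK t ht).2
  have cs : 0 < s.card := Finset.card_pos.mpr sne
  rcases Nat.lt_or_ge s.card 2 with h1 | h2
  · -- `s = {a}`, `t = {a, b}`
    obtain ⟨a, rfl⟩ := Finset.card_eq_one.mp (show s.card = 1 by omega)
    obtain ⟨b, hab, rfl⟩ : ∃ b, b ≠ a ∧ t = {a, b} := by
      have ct : t.card = 2 := by simpa using hc
      have hat : a ∈ t := hst (by simp)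
      obtain ⟨b, hb⟩ : ∃ b, t.erase a = {b} := by
        rw [← Finset.card_eq_one, Finset.card_erase_of_mem hat, ct]
      refine ⟨b, ?_, ?_⟩
      · have : b ∈ t.erase a := by rw [hb]; simp
        exact (Finset.mem_erase.mp this).1
      · rw [← Finset.insert_erase hat, hb]
    have hfa : ∀ x, {x, a} ∈ K → x = a ∨ x = b := by
      intro x hx
      rcases hfree _ hx (by simp) with h | h
      · left
        have : x ∈ ({x, a} : Finset ℕ) := by simp
        rw [h] at this; simpa using this
      · have : x ∈ ({x, a} : Finset ℕ) := by simp
        rw [h] at this; simpa using this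
    have hfa' : ∀ x, {a, x} ∈ K → x = a ∨ x = b := by
      intro x hx; apply hfa; rwa [Finset.pair_comm]
    have haa : B a a = 1 := hB.self hs
    have hba : B b a * B a b = 1 := cocycle_inv hK hB (by rwa [Finset.pair_comm])
    have key : ∀ {v g}, Hol K B u v g → (v ≠ a → Hol L B u v g) ∧
        (v = a → Hol L B u b (g * B a b)) := by
      intro v g h
      induction h with
      | refl hx =>
        refine ⟨fun _ => Hol.refl _ hu, fun hxa => ?_⟩
        subst hxa
        rw [hL] at hu; simp at hu
      | @step x y g h hxy ih =>
        constructor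
        · intro hy
          by_cases hx : x = a
          · subst hx
            have hyb : y = b := by
              rcases hfa' y hxy with h | h
              · exact absurd h hy
              · exact h
            subst hyb
            exact ih.2 rfl
          · refine Hol.step (ih.1 hx) (memL _ hxy ?_ ?_)
            · intro h
              have : a ∈ ({x, y} : Finset ℕ) := by rw [h]; simp
              simp only [Finset.mem_insert, Finset.mem_singleton] at this
              rcases this with h | h
              · exact hx h.symm
              · exact hy h.symm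
            · intro h
              have : a ∈ ({x, y} : Finset ℕ) := by rw [h]; simp
              simp only [Finset.mem_insert, Finset.mem_singleton] at this
              rcases this with h | h
              · exact hx h.symm
              · exact hy h.symm
        · intro hy
          subst hy
          by_cases hx : x = y
          · subst hx
            rw [haa, mul_one]
            exact ih.2 rfl
          · have hxb : x = b := by
              rcases hfa x hxy with h | h
              · exact absurd h hx
              · exact h
            subst hxb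
            rw [mul_assoc, hba, mul_one]
            exact ih.1 hx
    refine (key h).1 ?_
    rintro rfl
    rw [hL] at hv; simp at hv
  · -- all vertices are in `L`
    have hvL : ∀ x, {x} ∈ K → {x} ∈ L := by
      intro x hx
      apply memL _ hx
      · rintro rfl; simp at h2
      · rintro rfl; rw [Finset.card_singleton] at hc; omega
    have key : ∀ x y, {x, y} ∈ K → ∀ g, Hol L B u x g → Hol L B u y (g * B x y) := by
      intro x y hxy g hg
      by_cases hxs : ({x, y} : Finset ℕ) = s
      · have hs2 : s.card = 2 := by
          have : s.card ≤ 2 := by rw [← hxs]; exact Finset.card_le_two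
          omega
        obtain ⟨c, hcs, hct⟩ : ∃ c, c ∉ s ∧ c ∈ t := by
          by_contra hcon
          push Not at hcon
          have : t ⊆ s := fun z hz => by
            by_contra hzs; exact hcon z hzs hz
          have := Finset.card_le_card this
          omega
        have hxt : x ∈ t := hst (by rw [← hxs]; simp)
        have hyt : y ∈ t := hst (by rw [← hxs]; simp)
        have hxyz : B x c * B c y = B x y := hB.of_subset hK ht hxt hct hyt
        have e1 : ({x, c} : Finset ℕ) ∈ L := by
          apply memL
          · apply sub
            · intro z hz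
              simp only [Finset.mem_insert, Finset.mem_singleton] at hz
              rcases hz with rfl | rfl <;> assumption
            · simp
          · intro h; exact hcs (h ▸ (by simp))
          · intro h
            have : ({x, c} : Finset ℕ).card ≤ 2 := Finset.card_le_two
            rw [h] at this; omega
        have e2 : ({c, y} : Finset ℕ) ∈ L := by
          apply memL
          · apply sub
            · intro z hz
              simp only [Finset.mem_insert, Finset.mem_singleton] at hz
              rcases hz with rfl | rfl <;> assumption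
            · simp
          · intro h; exact hcs (h ▸ (by simp))
          · intro h
            have : ({c, y} : Finset ℕ).card ≤ 2 := Finset.card_le_two
            rw [h] at this; omega
        rw [← hxyz, ← mul_assoc]
        exact Hol.step (Hol.step hg e1) e2
      · apply Hol.step hg
        apply memL _ hxy hxs
        intro h
        have : ({x, y} : Finset ℕ).card ≤ 2 := Finset.card_le_two
        rw [h] at this; omega
    clear hv
    induction h with
    | refl hx => exact Hol.refl _ hu
    | @step x y g h hxy ih => exact key x y hxy g ih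

/-- cocycles extend over elementary expansions -/
theorem cocycle_extend (hK : IsComplex K) (hL : IsComplex L) (hKL : Collapse K L)
    (hB : IsCocycle L B) :
    ∃ B' : ℕ → ℕ → Γ, IsCocycle K B' ∧ ∀ s ∈ L, ∀ x ∈ s, ∀ y ∈ s, B x y = B' x y := by
  obtain ⟨s, t, hs, ht, hst, hc, hfree, rfl⟩ := hKL
  set L := (K.erase s).erase t with hLdef
  have hLK : L ⊆ K := (Finset.erase_subset _ _).trans (Finset.erase_subset _ _)
  have memL : ∀ x ∈ K, x ≠ s → x ≠ t → x ∈ L := by
    intro x hx h1 h2; rw [hLdef]; simp [h1, h2, hx]
  have nsL : ∀ x ∈ L, ¬ s ⊆ x := by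
    intro x hx hsx
    have := hfree x (hLK hx) hsx
    rw [hLdef] at hx
    simp only [Finset.mem_erase] at hx
    rcases this with h | h
    · exact hx.2.1 h
    · exact hx.1 h
  have sne : s.Nonempty := (hK s hs).1
  have sub : ∀ x ⊆ t, x.Nonempty → x ∈ K := (hK t ht).2
  have cs : 0 < s.card := Finset.card_pos.mpr sne
  rcases Nat.lt_or_ge s.card 2 with h1 | h2
  · -- `s = {a}`
    obtain ⟨a, rfl⟩ := Finset.card_eq_one.mp (show s.card = 1 by omega)
    have hLa : ∀ x ∈ L, a ∉ x := by
      intro x hx ha
      exact nsL x hx (by simpa using ha)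
    refine ⟨fun x y => if x = a ∨ y = a then 1 else B x y, ?_, ?_⟩
    · intro x y z hxyz
      by_cases hax : a ∈ ({x, y, z} : Finset ℕ)
      · -- all in `t`
        have hxt : ({x, y, z} : Finset ℕ) ⊆ t := by
          rcases hfree _ hxyz (by simpa using hax) with h | h
          · rw [h]; exact hst
          · rw [h]
        have hB1 : ∀ b ∈ t, b ≠ a → B b b = 1 := by
          intro b hb hba
          apply hB.self
          apply memL _ (sub _ (by simpa using hb) (by simp))
          · intro h; exact hba (by simpa using h)
          · intro h; rw [← h, Finset.card_singleton] at hc; simp at hc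
        have htb : ∀ b ∈ t, ∀ c ∈ t, b ≠ a → c ≠ a → b = c := by
          intro b hb c hc' hba hca
          have hat : a ∈ t := hst (by simp)
          have h1 : (t.erase a).card = 1 := by
            rw [Finset.card_erase_of_mem hat, hc]; simp
          obtain ⟨d, hd⟩ := Finset.card_eq_one.mp h1
          have e1 : b ∈ t.erase a := Finset.mem_erase.mpr ⟨hba, hb⟩
          have e2 : c ∈ t.erase a := Finset.mem_erase.mpr ⟨hca, hc'⟩
          rw [hd, Finset.mem_singleton] at e1 e2
          rw [e1, e2]
        have all1 : ∀ b ∈ t, ∀ c ∈ t, (if b = a ∨ c = a then (1 : Γ) else B b c) = 1 := by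
          intro b hb c hc'
          by_cases h : b = a ∨ c = a
          · rw [if_pos h]
          · rw [if_neg h]
            push Not at h
            rw [← htb b hb c hc' h.1 h.2]
            exact hB1 b hb h.1
        have mx : x ∈ t := hxt (by simp)
        have my : y ∈ t := hxt (by simp)
        have mz : z ∈ t := hxt (by simp)
        show (if x = a ∨ y = a then (1 : Γ) else B x y) * (if y = a ∨ z = a then (1 : Γ) else B y z)
          = if x = a ∨ z = a then (1 : Γ) else B x z
        rw [all1 x mx y my, all1 y my z mz, all1 x mx z mz, mul_one]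
      · have h' : ({x, y, z} : Finset ℕ) ∈ L := by
          apply memL _ hxyz
          · intro h; exact hax (by rw [h]; simp)
          · intro h; exact hax (by rw [h]; exact hst (by simp))
        simp only [Finset.mem_insert, Finset.mem_singleton, not_or] at hax
        obtain ⟨p1, p2, p3⟩ := hax
        show (if x = a ∨ y = a then (1 : Γ) else B x y) * (if y = a ∨ z = a then (1 : Γ) else B y z)
          = if x = a ∨ z = a then (1 : Γ) else B x z
        rw [if_neg (by tauto), if_neg (by tauto), if_neg (by tauto)]
        exact hB x y z h'
    · intro x hx y hy z hz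
      have := hLa x hx
      show B y z = if y = a ∨ z = a then 1 else B y z
      rw [if_neg]
      rintro (rfl | rfl)
      · exact this hy
      · exact this hz
  · rcases Nat.lt_or_ge s.card 3 with h3 | h3
    · -- `s = {a, b}`
      have hs2 : s.card = 2 := by omega
      obtain ⟨c, hcs, hct⟩ : ∃ c, c ∉ s ∧ c ∈ t := by
        by_contra hcon
        push Not at hcon
        have : t ⊆ s := fun z hz => by
          by_contra hzs; exact hcon z hzs hz
        have := Finset.card_le_card this
        omega
      have htc : t = insert c s := by
        symm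
        apply Finset.eq_of_subset_of_card_le
        · intro z hz
          rcases Finset.mem_insert.mp hz with rfl | hz
          · exact hct
          · exact hst hz
        · rw [Finset.card_insert_of_notMem hcs, hc]
      -- pairs containing `c`
      have pc : ∀ x ∈ t, ({x, c} : Finset ℕ) ∈ L := by
        intro x hx
        apply memL
        · apply sub
          · intro z hz
            simp only [Finset.mem_insert, Finset.mem_singleton] at hz
            rcases hz with rfl | rfl <;> assumption
          · simp
        · intro h; exact hcs (h ▸ (by simp))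
        · intro h
          have : ({x, c} : Finset ℕ).card ≤ 2 := Finset.card_le_two
          rw [h] at this; omega
      have hccL : {c} ∈ L := by
        apply (hL _ (pc c hct)).2 <;> simp
      have hcc : B c c = 1 := hB.self hccL
      have hinv : ∀ x ∈ t, B x c * B c x = 1 := fun x hx => cocycle_inv hL hB (pc x hx)
      have hinv' : ∀ x ∈ t, B c x * B x c = 1 := fun x hx =>
        cocycle_inv hL hB (by rw [Finset.pair_comm]; exact pc x hx)
      have hself : ∀ x ∈ t, B x x = 1 := by
        intro x hx
        apply hB.self
        apply (hL _ (pc x hx)).2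
        · intro z hz; rw [Finset.mem_singleton.mp hz]; simp
        · simp
      refine ⟨fun x y => if ({x, y} : Finset ℕ) = s then B x c * B c y else B x y, ?_, ?_⟩
      · intro x y z hxyz
        by_cases hsx : s ⊆ ({x, y, z} : Finset ℕ)
        · have hxt : ({x, y, z} : Finset ℕ) ⊆ t := by
            rcases hfree _ hxyz hsx with h | h
            · rw [h]; exact hst
            · rw [h]
          have form : ∀ b ∈ t, ∀ d ∈ t,
              (if ({b, d} : Finset ℕ) = s then B b c * B c d else B b d) = B b c * B c d := by
            intro b hb d hd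
            by_cases h : ({b, d} : Finset ℕ) = s
            · rw [if_pos h]
            · rw [if_neg h]
              by_cases hbc : b = c
              · subst hbc; rw [hcc, one_mul]
              · by_cases hdc : d = c
                · subst hdc; rw [hcc, mul_one]
                · -- both in `s`, so equal
                  have hbs : b ∈ s := by
                    rw [htc] at hb
                    exact (Finset.mem_insert.mp hb).resolve_left hbc
                  have hds : d ∈ s := by
                    rw [htc] at hd
                    exact (Finset.mem_insert.mp hd).resolve_left hdc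
                  have hbd : b = d := by
                    by_contra hne
                    apply h
                    apply Finset.eq_of_subset_of_card_le
                    · intro z hz
                      simp only [Finset.mem_insert, Finset.mem_singleton] at hz
                      rcases hz with rfl | rfl <;> assumption
                    · rw [hs2, Finset.card_pair hne]
                  subst hbd
                  rw [hself b hb, hinv b hb]
          have mx : x ∈ t := hxt (by simp)
          have my : y ∈ t := hxt (by simp)
          have mz : z ∈ t := hxt (by simp)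
          show (if ({x, y} : Finset ℕ) = s then B x c * B c y else B x y)
            * (if ({y, z} : Finset ℕ) = s then B y c * B c z else B y z)
            = if ({x, z} : Finset ℕ) = s then B x c * B c z else B x z
          rw [form x mx y my, form y my z mz, form x mx z mz]
          calc B x c * B c y * (B y c * B c z) = B x c * (B c y * B y c) * B c z := by group
            _ = B x c * B c z := by rw [hinv' y my, mul_one]
        · have h' : ({x, y, z} : Finset ℕ) ∈ L := by
            apply memL _ hxyz
            · intro h; exact hsx (by rw [h])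
            · intro h; exact hsx (by rw [h]; exact hst)
          have n1 : ({x, y} : Finset ℕ) ≠ s := by
            intro h; apply hsx; rw [← h]; intro z hz; simp at hz ⊢; tauto
          have n2 : ({y, z} : Finset ℕ) ≠ s := by
            intro h; apply hsx; rw [← h]; intro z hz; simp at hz ⊢; tauto
          have n3 : ({x, z} : Finset ℕ) ≠ s := by
            intro h; apply hsx; rw [← h]; intro z hz; simp at hz ⊢; tauto
          show (if ({x, y} : Finset ℕ) = s then B x c * B c y else B x y)
            * (if ({y, z} : Finset ℕ) = s then B y c * B c z else B y z)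
            = if ({x, z} : Finset ℕ) = s then B x c * B c z else B x z
          rw [if_neg n1, if_neg n2, if_neg n3]
          exact hB x y z h'
      · intro x hx y hy z hz
        show B y z = if ({y, z} : Finset ℕ) = s then B y c * B c z else B y z
        rw [if_neg]
        intro h
        apply nsL x hx
        rw [← h]
        intro a ha
        simp only [Finset.mem_insert, Finset.mem_singleton] at ha
        rcases ha with rfl | rfl <;> assumption
    · -- `3 ≤ s.card`
      refine ⟨B, ?_, fun _ _ _ _ _ _ => rfl⟩
      intro x y z hxyz
      by_cases h' : ({x, y, z} : Finset ℕ) ∈ L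
      · exact hB x y z h'
      · have hc3 : ({x, y, z} : Finset ℕ).card ≤ 3 := Finset.card_le_three
        have hxs : ({x, y, z} : Finset ℕ) = s := by
          by_contra h
          apply h'
          apply memL _ hxyz h
          intro h''; rw [h''] at hc3; omega
        obtain ⟨d, hds, hdt⟩ : ∃ d, d ∉ s ∧ d ∈ t := by
          by_contra hcon
          push Not at hcon
          have : t ⊆ s := fun z hz => by
            by_contra hzs; exact hcon z hzs hz
          have := Finset.card_le_card this
          omega
        have mx : x ∈ t := hst (by rw [← hxs]; simp)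
        have my : y ∈ t := hst (by rw [← hxs]; simp)
        have mz : z ∈ t := hst (by rw [← hxs]; simp)
        have tri : ∀ b ∈ t, ∀ e ∈ t, ({b, d, e} : Finset ℕ) ∈ L := by
          intro b hb e he
          apply memL
          · apply sub
            · intro a ha
              simp only [Finset.mem_insert, Finset.mem_singleton] at ha
              rcases ha with rfl | rfl | rfl <;> assumption
            · simp
          · intro h; exact hds (h ▸ (by simp))
          · intro h
            have : ({b, d, e} : Finset ℕ).card ≤ 3 := Finset.card_le_three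
            rw [h] at this; omega
        have f : ∀ b ∈ t, ∀ e ∈ t, B b e = B b d * B d e := fun b hb e he =>
          (hB b d e (tri b hb e he)).symm
        have hdd : B d y * B y d = 1 := by
          apply cocycle_inv hL hB
          apply (hL _ (tri y my y my)).2
          · intro a ha
            simp only [Finset.mem_insert, Finset.mem_singleton] at ha ⊢
            tauto
          · simp
        rw [f x mx y my, f y my z mz, f x mx z mz]
        calc B x d * B d y * (B y d * B d z) = B x d * (B d y * B y d) * B d z := by group
          _ = B x d * B d z := by rw [hdd, mul_one]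

end hol

/-- `Dg` on the cells of `L` depends only on the cocycle on the simplices of `L` -/
theorem Dg_congr {A A' : ℕ → ℕ → G2} {s : Finset ℕ} (hs : s.Nonempty)
    (h : ∀ x ∈ s, ∀ y ∈ s, A x y = A' x y) (x : Cell) (hx : x ≠ some ∅) :
    Dg A x (some s) = Dg A' x (some s) := by
  cases x with
  | none =>
    rw [Dg_none_some, Dg_none_some, ar, ar]
    by_cases h3 : s.card = 3
    · rw [if_pos h3, if_pos h3]
      have n0 : s.Nonempty := hs
      have c1 : (s.erase (mn s)).card = 2 := by rw [Finset.card_erase_of_mem (mn_mem n0), h3]
      have n1 : (s.erase (mn s)).Nonempty := Finset.card_pos.mp (by omega)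
      have c2 : ((s.erase (mn s)).erase (mn (s.erase (mn s)))).card = 1 := by
        rw [Finset.card_erase_of_mem (mn_mem n1), c1]
      have n2 : ((s.erase (mn s)).erase (mn (s.erase (mn s)))).Nonempty :=
        Finset.card_pos.mp (by omega)
      have m0 := mn_mem n0
      have m1 := Finset.mem_of_mem_erase (mn_mem n1)
      have m2 := Finset.mem_of_mem_erase (Finset.mem_of_mem_erase (mn_mem n2))
      rw [tri, tri, h _ m0 _ m1, h _ m0 _ m2]
    · rw [if_neg h3, if_neg h3]
  | some s' =>
    rw [Dg_some_some, Dg_some_some]
    apply Finset.sum_congr rfl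
    intro v hv
    by_cases h' : s.erase v = s'
    · rw [if_pos h', if_pos h']
      have hne : s'.Nonempty := by
        rw [Finset.nonempty_iff_ne_empty]
        rintro rfl; exact hx rfl
      have hm : mn s' ∈ s := by
        have := mn_mem hne
        rw [← h'] at this ⊢
        exact Finset.mem_of_mem_erase this
      rw [h _ (mn_mem hs) _ hm]
    · rw [if_neg h', if_neg h']

theorem isTorsOn_congr_cocycle {A A' : ℕ → ℕ → G2} (hL : IsComplex L)
    (h : ∀ s ∈ L, ∀ x ∈ s, ∀ y ∈ s, A x y = A' x y) {r : ℂ}
    (hr : IsTorsOn (evenCells L) (oddCells L) (Dg A) r) :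
    IsTorsOn (evenCells L) (oddCells L) (Dg A') r := by
  have ne1 : ∀ x ∈ evenCells L, x ≠ some ∅ := by
    intro x hx
    obtain ⟨s, hs, -, rfl⟩ := mem_evenCells.mp hx
    intro h; rw [Option.some_inj] at h
    have := (hL s hs).1; rw [h] at this; exact Finset.not_nonempty_empty this
  have ne2 : ∀ x ∈ oddCells L, x ≠ some ∅ := by
    intro x hx
    rcases mem_oddCells.mp hx with rfl | ⟨s, hs, -, rfl⟩
    · simp
    · intro h; rw [Option.some_inj] at h
      have := (hL s hs).1; rw [h] at this; exact Finset.not_nonempty_empty this
  apply hr.congr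
  · intro i hi j hj
    rcases mem_oddCells.mp hj with rfl | ⟨s, hs, -, rfl⟩
    · simp
    · exact Dg_congr (hL s hs).1 (h s hs) i (ne1 i hi)
  · intro i hi j hj
    obtain ⟨s, hs, -, rfl⟩ := mem_evenCells.mp hj
    exact Dg_congr (hL s hs).1 (h s hs) i (ne2 i hi)

theorem isCocycle_toG2 {A : ℕ → ℕ → PZ} (h : IsCocycle K A) :
    IsCocycle K (fun u v => toG2 (A u v)) := by
  intro u v w huvw
  show toG2 (A u v) * toG2 (A v w) = toG2 (A u w)
  rw [← map_mul, h u v w huvw]

/-- NB1 -/
theorem collapse_tset : CollapseStatement := by
  intro K L hK hL hKL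
  have hKL' := hKL
  obtain ⟨s, t, hs, ht, hst, hc, hfree, hLdef⟩ := hKL'
  have hLK : L ⊆ K := by
    rw [hLdef]; exact (Finset.erase_subset _ _).trans (Finset.erase_subset _ _)
  ext r
  constructor
  · rintro ⟨A, hA, ⟨v, hv, hfull⟩, hr⟩
    refine ⟨A, cocycle_mono hLK hA, ?_, (collapse_plain hK (isCocycle_toG2 hA) hKL r).mp hr⟩
    by_cases hvL : {v} ∈ L
    · refine ⟨v, hvL, fun p => ?_⟩
      obtain ⟨g, hg, hp⟩ := hfull p
      exact ⟨g, hol_collapse hK hA hKL hvL hvL hg, hp⟩
    · -- `s = {v}`
      have hsv : ({v} : Finset ℕ) = s := by
        by_contra h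
        apply hvL
        rw [hLdef]
        simp only [Finset.mem_erase]
        refine ⟨?_, h, hv⟩
        intro h'
        have c1 : t.card = 1 := by rw [← h']; simp
        have := Finset.card_pos.mpr (hK s hs).1
        omega
      subst hsv
      have hvt : v ∈ t := hst (by simp)
      have ct : t.card = 2 := by simpa using hc
      obtain ⟨b, hb⟩ : ∃ b, t.erase v = {b} := by
        rw [← Finset.card_eq_one, Finset.card_erase_of_mem hvt, ct]
      have hbt : b ∈ t.erase v := by rw [hb]; simp
      have hbv : b ≠ v := (Finset.mem_erase.mp hbt).1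
      have htb : t = {v, b} := by rw [← Finset.insert_erase hvt, hb]
      have hbK : {b} ∈ K := by
        apply (hK t ht).2
        · rw [htb]; simp
        · simp
      have hbL : {b} ∈ L := by
        rw [hLdef]
        simp only [Finset.mem_erase]
        refine ⟨?_, ?_, hbK⟩
        · intro h; rw [← h] at ct; simp at ct
        · intro h; exact hbv (by simpa using h)
      refine ⟨b, hbL, fun p => ?_⟩
      obtain ⟨g, hg, hp⟩ := hfull ((A b v).p⁻¹ * p * (A v b).p⁻¹)
      have h1 : Hol K A b v (A b v) := hol_edge hK (by rw [Finset.pair_comm, ← htb]; exact ht)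
      have h2 : Hol K A v b (A v b) := hol_edge hK (by rw [← htb]; exact ht)
      refine ⟨A b v * g * A v b, hol_collapse hK hA hKL hbL hbL (hol_trans (hol_trans h1 hg) h2), ?_⟩
      simp only [PZ.mul_p, hp]
      group
  · rintro ⟨A, hA, ⟨v, hv, hfull⟩, hr⟩
    obtain ⟨A', hA', hext⟩ := cocycle_extend hK hL hKL hA
    refine ⟨A', hA', ⟨v, hLK hv, fun p => ?_⟩, ?_⟩
    · obtain ⟨g, hg, hp⟩ := hfull p
      exact ⟨g, hol_mono hLK (hol_congr hg hext), hp⟩
    · rw [collapse_plain hK (isCocycle_toG2 hA') hKL r]
      apply isTorsOn_congr_cocycle hL _ hr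
      intro s hs x hx y hy
      show toG2 (A x y) = toG2 (A' x y)
      rw [hext s hs x hx y hy]

end Pool.Agent.Lib.MP_50ef00_gt.H65
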