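import Mathlib
import Pool.Agent.Lib.MP_50ef00_gt.H65.Collapse

/-!
Reduction of one disc (NC1).
-/

namespace Pool.Agent.Lib.MP_50ef00_gt.H65

open Pool.Agent.Lib.MP_50ef00_gt

theorem mem_simplex {s t : Finset ℕ} : t ∈ simplex s ↔ t ⊆ s ∧ t.Nonempty := by
  simp [simplex]

theorem mem_disc {n N : ℕ} {p : ℕ → ℕ} {t : Finset ℕ} :
    t ∈ disc n p N ↔ t.Nonempty ∧ ∃ i < n, t ⊆ {ring n N i, p i, p (i + 1)} ∨
      t ⊆ {ring n N i, p (i + 1), ring n N (i + 1)} ∨
      t ⊆ {N, ring n N i, ring n N (i + 1)} := by
  simp only [disc, Finset.mem_biUnion, Finset.mem_range, Finset.mem_union, mem_simplex]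
  constructor
  · rintro ⟨i, hi, (h | h) | h⟩
    · exact ⟨h.2, i, hi, Or.inl h.1⟩
    · exact ⟨h.2, i, hi, Or.inr (Or.inl h.1)⟩
    · exact ⟨h.2, i, hi, Or.inr (Or.inr h.1)⟩
  · rintro ⟨h, i, hi, h1 | h1 | h1⟩
    · exact ⟨i, hi, Or.inl (Or.inl ⟨h1, h⟩)⟩
    · exact ⟨i, hi, Or.inl (Or.inr ⟨h1, h⟩)⟩
    · exact ⟨i, hi, Or.inr ⟨h1, h⟩⟩

theorem card_le_three_of_mem_disc {n N : ℕ} {p : ℕ → ℕ} {t : Finset ℕ} (h : t ∈ disc n p N) :
    t.card ≤ 3 := by
  obtain ⟨-, i, -, h | h | h⟩ := mem_disc.mp h
  · exact (Finset.card_le_card h).trans Finset.card_le_three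
  · exact (Finset.card_le_card h).trans Finset.card_le_three
  · exact (Finset.card_le_card h).trans Finset.card_le_three

section
variable {L : Finset (Finset ℕ)} {n N : ℕ} {p : ℕ → ℕ}

theorem GoodPath_lt (hp : GoodPath L n N p) {i : ℕ} (hi : i ≤ n) : p i < N := by
  rcases Nat.lt_or_ge i n with h | h
  · exact hp.lt _ (hp.edge i h) _ (by simp)
  · have : i = n := by omega
    subst this
    rw [hp.pn, ← hp.p0]
    exact hp.lt _ (hp.edge 0 (by have := hp.n3; omega)) _ (by simp)

theorem ring_zero : ring n N 0 = 0 := by simp [ring]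
theorem ring_n : ring n N n = 0 := by simp [ring]
theorem ring_mid {i : ℕ} (h0 : 0 < i) (hn : i < n) : ring n N i = N + i := by
  rw [ring, if_neg]; omega

/-- the oriented triangles -/
def Sset (n N : ℕ) (p : ℕ → ℕ) (i : ℕ) : Finset ℕ := {p i, p (i + 1), ring n N i}
/-- the oriented triangles -/
def Tset (n N : ℕ) (p : ℕ → ℕ) (i : ℕ) : Finset ℕ := {ring n N i, p (i + 1), ring n N (i + 1)}
/-- the oriented triangles -/
def Cset (n N : ℕ) (i : ℕ) : Finset ℕ := {ring n N i, ring n N (i + 1), N}

theorem Sset_mem {i : ℕ} (hi : i < n) : Sset n N p i ∈ L ∪ disc n p N := by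
  apply Finset.mem_union_right
  rw [mem_disc]
  refine ⟨⟨p i, by simp [Sset]⟩, i, hi, Or.inl ?_⟩
  intro x hx
  simp only [Sset, Finset.mem_insert, Finset.mem_singleton] at hx ⊢
  tauto

theorem Tset_mem {i : ℕ} (hi : i < n) : Tset n N p i ∈ L ∪ disc n p N := by
  apply Finset.mem_union_right
  rw [mem_disc]
  refine ⟨⟨p (i + 1), by simp [Tset]⟩, i, hi, Or.inr (Or.inl ?_)⟩
  intro x hx
  simpa only [Tset] using hx

theorem Cset_mem {i : ℕ} (hi : i < n) : Cset n N i ∈ L ∪ disc n p N := by
  apply Finset.mem_union_right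
  rw [mem_disc]
  refine ⟨⟨N, by simp [Cset]⟩, i, hi, Or.inr (Or.inr ?_)⟩
  intro x hx
  simp only [Cset, Finset.mem_insert, Finset.mem_singleton] at hx ⊢
  tauto

theorem tau_eq (hn : 3 ≤ n) : tau n N = Cset n N (n - 1) := by
  have h1 : ring n N (n - 1) = N + (n - 1) := ring_mid (by omega) (by omega)
  have h2 : ring n N (n - 1 + 1) = 0 := by
    rw [show n - 1 + 1 = n by omega]; exact ring_n
  rw [tau, Cset, h1, h2]
  ext x
  simp only [Finset.mem_insert, Finset.mem_singleton]
  tauto

theorem zero_lt_N (hp : GoodPath L n N p) : 0 < N := by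
  have := GoodPath_lt hp (i := 0) (by omega)
  rw [hp.p0] at this; exact this

/-- holonomy at the ring vertex -/
def rh {G : Type*} [Group G] (A : ℕ → ℕ → G) (n N : ℕ) (p : ℕ → ℕ) (i : ℕ) : G :=
  hol A p i * A (p i) (ring n N i)

/-- the contributions of step `i` to the fundamental chain of the disc -/
noncomputable def stepc (A : ℕ → ℕ → G2) (n N : ℕ) (p : ℕ → ℕ) (i : ℕ) : Cell → ℂ := fun x =>
  (if 0 < i then (if x = some (Sset n N p i) then trc A (hol A p i) (p i) (p (i + 1)) (ring n N i)
    else 0) else 0)
  + (if i + 1 < n then (if x = some (Tset n N p i) then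
      trc A (rh A n N p i) (ring n N i) (p (i + 1)) (ring n N (i + 1)) else 0) else 0)
  + (if x = some (Cset n N i) then trc A (rh A n N p i) (ring n N i) (ring n N (i + 1)) N else 0)

/-- the fundamental chain of the disc -/
noncomputable def fundc (A : ℕ → ℕ → G2) (n N : ℕ) (p : ℕ → ℕ) : Cell → ℂ := fun x =>
  ∑ i ∈ Finset.range n, stepc A n N p i x

/-- telescoping quantity -/
noncomputable def tele (A : ℕ → ℕ → G2) (n N : ℕ) (p : ℕ → ℕ) (i : ℕ) : Cell → ℂ := fun x =>
  (if 0 < i ∧ i < n then ed A (rh A n N p i) (ring n N i) (p i) x else 0)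
    - ed A (rh A n N p i) (ring n N i) N x

/-- reversing an oriented edge -/
theorem ed_rev {A : ℕ → ℕ → G2} {h : G2} {u v : ℕ} (huv : u ≠ v) (hA : A u v * A v u = 1)
    (x : Cell) : ed A (h * A u v) v u x = -ed A h u v x := by
  have e : h * A u v * A v u = h := by rw [mul_assoc, hA, mul_one]
  cases x with
  | none =>
    simp only [ed, e]
    rw [cross_swap]
  | some s =>
    simp only [ed, e]
    have hs : ({v, u} : Finset ℕ) = {u, v} := Finset.pair_comm v u
    rw [hs]
    by_cases h1 : s = {u, v}
    · rw [if_pos h1, if_pos h1]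
      rcases lt_or_gt_of_ne huv with h2 | h2
      · rw [if_neg (by omega), if_pos h2]
      · rw [if_pos h2, if_neg (by omega), neg_neg]
    · rw [if_neg h1, if_neg h1, neg_zero]

theorem norm_osg (u v w : ℕ) : ‖osg u v w‖ = 1 := by
  unfold osg; split <;> simp

theorem norm_trc (A : ℕ → ℕ → G2) (h : G2) (u v w : ℕ) : ‖trc A h u v w‖ = 1 := by
  rw [trc, norm_mul, norm_osg, norm_rho, one_mul]

end

/-- boundary of the contributions of step `i` -/
theorem bd_stepc (h1a : NC1aStatement) {L : Finset (Finset ℕ)} {n N : ℕ} {p : ℕ → ℕ}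
    {A : ℕ → ℕ → G2} (hK : IsComplex (L ∪ disc n p N)) (hp : GoodPath L n N p)
    (hA : IsCocycle (L ∪ disc n p N) A) {i : ℕ} (hi : i < n) (x : Cell) :
    (if 0 < i then Dg A x (some (Sset n N p i)) *
        trc A (hol A p i) (p i) (p (i + 1)) (ring n N i) else 0)
      + (if i + 1 < n then Dg A x (some (Tset n N p i)) *
          trc A (rh A n N p i) (ring n N i) (p (i + 1)) (ring n N (i + 1)) else 0)
      + Dg A x (some (Cset n N i)) *
          trc A (rh A n N p i) (ring n N i) (ring n N (i + 1)) N
      = ed A (hol A p i) (p i) (p (i + 1)) x + tele A n N p i x - tele A n N p (i + 1) x := by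
  have hn3 := hp.n3
  have hN := zero_lt_N hp
  have hpi : p i < N := GoodPath_lt hp (by omega)
  have hpi1 : p (i + 1) < N := GoodPath_lt hp (by omega)
  have hpne : p i ≠ p (i + 1) := hp.ne i hi
  set K := L ∪ disc n p N with hKdef
  -- vertices of the three triangles
  have cS : Sset n N p i ∈ K := Sset_mem hi
  have cT : Tset n N p i ∈ K := Tset_mem hi
  have cC : Cset n N i ∈ K := Cset_mem hi
  have coS := fun u v w hu hv hw => hA.of_subset hK cS (u := u) (v := v) (w := w) hu hv hw
  have coT := fun u v w hu hv hw => hA.of_subset hK cT (u := u) (v := v) (w := w) hu hv hw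
  have coC := fun u v w hu hv hw => hA.of_subset hK cC (u := u) (v := v) (w := w) hu hv hw
  have self1 : ∀ u, {u} ∈ K → A u u = 1 := fun u hu => hA.self hu
  have vS : ∀ u ∈ Sset n N p i, A u u = 1 := fun u hu => mul_eq_left.mp (coS u u u hu hu hu)
  have vT : ∀ u ∈ Tset n N p i, A u u = 1 := fun u hu => mul_eq_left.mp (coT u u u hu hu hu)
  have vC : ∀ u ∈ Cset n N i, A u u = 1 := fun u hu => mul_eq_left.mp (coC u u u hu hu hu)
  -- memberships
  have mS1 : p i ∈ Sset n N p i := by simp [Sset]
  have mS2 : p (i + 1) ∈ Sset n N p i := by simp [Sset]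
  have mS3 : ring n N i ∈ Sset n N p i := by simp [Sset]
  have mT1 : ring n N i ∈ Tset n N p i := by simp [Tset]
  have mT2 : p (i + 1) ∈ Tset n N p i := by simp [Tset]
  have mT3 : ring n N (i + 1) ∈ Tset n N p i := by simp [Tset]
  have mC1 : ring n N i ∈ Cset n N i := by simp [Cset]
  have mC2 : ring n N (i + 1) ∈ Cset n N i := by simp [Cset]
  have mC3 : N ∈ Cset n N i := by simp [Cset]
  have ih : hol A p (i + 1) = hol A p i * A (p i) (p (i + 1)) := rfl
  -- holonomy at `ring (i+1)` computed in three ways
  have k1 : rh A n N p i * A (ring n N i) (p (i + 1)) = hol A p (i + 1) := by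
    rw [rh, ih, mul_assoc, coS _ _ _ mS1 mS3 mS2]
  have k2 : rh A n N p (i + 1) = rh A n N p i * A (ring n N i) (ring n N (i + 1)) := by
    rw [rh, ← k1, mul_assoc, coT _ _ _ mT1 mT2 mT3]
  have k3 : hol A p (i + 1) * A (p (i + 1)) (ring n N i) = rh A n N p i := by
    rw [← k1, mul_assoc, coS _ _ _ mS3 mS2 mS3, vS _ mS3, mul_one]
  have k4 : hol A p i * A (p i) (ring n N i) = rh A n N p i := rfl
  -- ring vertices
  have hring : ∀ j, 0 < j → j < n → ring n N j = N + j := fun j h1 h2 => ring_mid h1 h2
  -- the cone triangle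
  have cone : ring n N i ≠ ring n N (i + 1) ∧ ring n N (i + 1) ≠ N ∧ ring n N i ≠ N := by
    rcases Nat.eq_zero_or_pos i with rfl | h0
    · rw [ring_zero, hring 1 (by omega) (by omega)]
      omega
    · rw [hring i h0 hi]
      rcases Nat.lt_or_ge (i + 1) n with h1 | h1
      · rw [hring (i + 1) (by omega) h1]; omega
      · have : i + 1 = n := by omega
        rw [this, ring_n]; omega
  have bC := h1a K A (rh A n N p i) (ring n N i) (ring n N (i + 1)) N hK hA cC cone.1 cone.2.1
    cone.2.2 x
  -- rewrite `N → ring i`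
  have bC3 : ed A (rh A n N p i * A (ring n N i) N) N (ring n N i) x
      = -ed A (rh A n N p i) (ring n N i) N x := by
    apply ed_rev cone.2.2
    rw [coC _ _ _ mC1 mC3 mC1, vC _ mC1]
  rw [bC3, ← k2] at bC
  have bCfin : Dg A x (some (Cset n N i)) *
          trc A (rh A n N p i) (ring n N i) (ring n N (i + 1)) N
      = ed A (rh A n N p i) (ring n N i) (ring n N (i + 1)) x
        + ed A (rh A n N p (i + 1)) (ring n N (i + 1)) N x
        - ed A (rh A n N p i) (ring n N i) N x := by
    rw [Cset, bC]; ring
  rw [bCfin]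
  -- the strip triangle `S`
  have bSfin : 0 < i → Dg A x (some (Sset n N p i)) *
        trc A (hol A p i) (p i) (p (i + 1)) (ring n N i)
      = ed A (hol A p i) (p i) (p (i + 1)) x - ed A (rh A n N p i) (ring n N i) (p (i + 1)) x
        + ed A (rh A n N p i) (ring n N i) (p i) x := by
    intro h0
    have hr := hring i h0 hi
    have n1 : p (i + 1) ≠ ring n N i := by rw [hr]; omega
    have n2 : p i ≠ ring n N i := by rw [hr]; omega
    have b := h1a K A (hol A p i) (p i) (p (i + 1)) (ring n N i) hK hA cS hpne n1 n2 x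
    rw [k4, ← ih] at b
    have b2 : ed A (hol A p (i + 1)) (p (i + 1)) (ring n N i) x
        = -ed A (rh A n N p i) (ring n N i) (p (i + 1)) x := by
      rw [← k1]
      apply ed_rev n1.symm
      rw [coS _ _ _ mS3 mS2 mS3, vS _ mS3]
    rw [Sset, b, b2]; ring
  -- the strip triangle `T`
  have bTfin : i + 1 < n → Dg A x (some (Tset n N p i)) *
          trc A (rh A n N p i) (ring n N i) (p (i + 1)) (ring n N (i + 1))
      = ed A (rh A n N p i) (ring n N i) (p (i + 1)) x
        - ed A (rh A n N p (i + 1)) (ring n N (i + 1)) (p (i + 1)) x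
        - ed A (rh A n N p i) (ring n N i) (ring n N (i + 1)) x := by
    intro h1
    have hr := hring (i + 1) (by omega) h1
    have n1 : p (i + 1) ≠ ring n N (i + 1) := by rw [hr]; omega
    have n0 : ring n N i ≠ p (i + 1) := by
      rcases Nat.eq_zero_or_pos i with rfl | h0
      · rw [ring_zero]; exact hp.h1.symm
      · rw [hring i h0 hi]; omega
    have n2 : ring n N i ≠ ring n N (i + 1) := cone.1
    have b := h1a K A (rh A n N p i) (ring n N i) (p (i + 1)) (ring n N (i + 1)) hK hA cT n0 n1
      n2 x
    have b2 : ed A (rh A n N p i * A (ring n N i) (p (i + 1))) (p (i + 1)) (ring n N (i + 1)) x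
        = -ed A (rh A n N p (i + 1)) (ring n N (i + 1)) (p (i + 1)) x := by
      have e : rh A n N p i * A (ring n N i) (p (i + 1))
          = rh A n N p (i + 1) * A (ring n N (i + 1)) (p (i + 1)) := by
        rw [k2, mul_assoc, coT _ _ _ mT1 mT3 mT2]
      rw [e]
      apply ed_rev n1.symm
      rw [coT _ _ _ mT3 mT2 mT3, vT _ mT3]
    have b3 : ed A (rh A n N p i * A (ring n N i) (ring n N (i + 1))) (ring n N (i + 1))
        (ring n N i) x = -ed A (rh A n N p i) (ring n N i) (ring n N (i + 1)) x := by
      apply ed_rev n2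
      rw [coT _ _ _ mT1 mT3 mT1, vT _ mT1]
    rw [Tset, b, b2, b3]; ring
  simp only [tele]
  rcases Nat.eq_zero_or_pos i with h0 | h0
  · -- first step
    subst h0
    have h1 : 0 + 1 < n := by omega
    rw [if_neg (lt_irrefl 0), if_pos h1, bTfin h1, if_neg (by simp), if_pos ⟨by omega, h1⟩]
    have e1 : rh A n N p 0 = hol A p 0 := by
      rw [rh, hp.p0, ring_zero]
      have : A 0 0 = 1 := by
        have := vS _ mS1
        rwa [hp.p0] at this
      rw [this, mul_one]
    have e2 : ring n N 0 = p 0 := by rw [ring_zero, hp.p0]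
    rw [e1, e2]
    ring
  · rcases Nat.lt_or_ge (i + 1) n with h1 | h1
    · rw [if_pos h0, if_pos h1, bSfin h0, bTfin h1, if_pos ⟨h0, hi⟩, if_pos ⟨by omega, h1⟩]
      ring
    · have hin : i + 1 = n := by omega
      rw [if_pos h0, if_neg (by omega), bSfin h0, if_pos ⟨h0, hi⟩, if_neg (by omega)]
      have e2 : ring n N (i + 1) = p (i + 1) := by
        rw [hin, ring_n, hp.pn]
      rw [e2]
      ring

/-- sums against a combination of two-valued functions -/
theorem sum_mul_ite {a : Finset Cell} (f : Cell → ℂ) (y : Cell) (c : ℂ) (hy : y ∈ a) :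
    ∑ l ∈ a, f l * (if l = y then c else 0) = f y * c := by
  rw [Finset.sum_eq_single y]
  · rw [if_pos rfl]
  · intro l _ hl; rw [if_neg hl, mul_zero]
  · intro h; exact absurd hy h

theorem odd_of_card_eq_three {s : Finset ℕ} (h : s.card = 3) : Odd s.card := by
  rw [h]; decide

theorem Sset_card {L : Finset (Finset ℕ)} {n N : ℕ} {p : ℕ → ℕ} (hp : GoodPath L n N p) {i : ℕ}
    (h0 : 0 < i) (hi : i < n) : (Sset n N p i).card = 3 := by
  have hpi : p i < N := GoodPath_lt hp (by omega)
  have hpi1 : p (i + 1) < N := GoodPath_lt hp (by omega)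
  have hpne : p i ≠ p (i + 1) := hp.ne i hi
  rw [Finset.card_eq_three]
  refine ⟨_, _, _, hpne, ?_, ?_, rfl⟩
  · rw [ring_mid h0 hi]; omega
  · rw [ring_mid h0 hi]; omega

theorem Tset_card {L : Finset (Finset ℕ)} {n N : ℕ} {p : ℕ → ℕ} (hp : GoodPath L n N p) {i : ℕ}
    (hi : i + 1 < n) : (Tset n N p i).card = 3 := by
  have hpi1 : p (i + 1) < N := GoodPath_lt hp (by omega)
  have hN := zero_lt_N hp
  rw [Finset.card_eq_three]
  refine ⟨_, _, _, ?_, ?_, ?_, rfl⟩
  · rcases Nat.eq_zero_or_pos i with rfl | h0
    · rw [ring_zero]; exact hp.h1.symm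
    · rw [ring_mid h0 (by omega)]; omega
  · rw [ring_mid (by omega) hi]
    rcases Nat.eq_zero_or_pos i with rfl | h0
    · rw [ring_zero]; omega
    · rw [ring_mid h0 (by omega)]; omega
  · rw [ring_mid (by omega) hi]; omega

theorem Cset_card {L : Finset (Finset ℕ)} {n N : ℕ} {p : ℕ → ℕ} (hp : GoodPath L n N p) {i : ℕ}
    (hi : i < n) : (Cset n N i).card = 3 := by
  have hN := zero_lt_N hp
  have hn3 := hp.n3
  rw [Finset.card_eq_three]
  refine ⟨_, _, _, ?_, ?_, ?_, rfl⟩
  · rcases Nat.eq_zero_or_pos i with rfl | h0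
    · rw [ring_zero, ring_mid (by omega) (by omega)]; omega
    · rw [ring_mid h0 hi]
      rcases Nat.lt_or_ge (i + 1) n with h1 | h1
      · rw [ring_mid (by omega) h1]; omega
      · rw [show i + 1 = n by omega, ring_n]; omega
  · rcases Nat.eq_zero_or_pos i with rfl | h0
    · rw [ring_zero]; omega
    · rw [ring_mid h0 hi]; omega
  · rcases Nat.lt_or_ge (i + 1) n with h1 | h1
    · rw [ring_mid (by omega) h1]; omega
    · rw [show i + 1 = n by omega, ring_n]; omega

theorem ring_le {L : Finset (Finset ℕ)} {n N : ℕ} {p : ℕ → ℕ} (hp : GoodPath L n N p) {i : ℕ}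
    (hi : i ≤ n) : ring n N i ≠ N := by
  have hN := zero_lt_N hp
  rcases Nat.eq_zero_or_pos i with rfl | h0
  · rw [ring_zero]; omega
  · rcases Nat.lt_or_ge i n with h1 | h1
    · rw [ring_mid h0 h1]; omega
    · rw [show i = n by omega, ring_n]; omega

/-- the coefficient of the last triangle in the fundamental chain has modulus one -/
theorem norm_fundc_tau {L : Finset (Finset ℕ)} {n N : ℕ} {p : ℕ → ℕ} (hp : GoodPath L n N p)
    (A : ℕ → ℕ → G2) : ‖fundc A n N p (some (tau n N))‖ = 1 := by
  have hn3 := hp.n3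
  have hN := zero_lt_N hp
  have hNS : ∀ i < n, N ∉ Sset n N p i := by
    intro i hi h
    simp only [Sset, Finset.mem_insert, Finset.mem_singleton] at h
    have h1 : p i < N := GoodPath_lt hp (by omega)
    have h2 : p (i + 1) < N := GoodPath_lt hp (by omega)
    have h3 := ring_le hp (i := i) (by omega)
    rcases h with h | h | h
    · omega
    · omega
    · exact h3 h.symm
  have hNT : ∀ i, i + 1 < n → N ∉ Tset n N p i := by
    intro i hi h
    simp only [Tset, Finset.mem_insert, Finset.mem_singleton] at h
    have h2 : p (i + 1) < N := GoodPath_lt hp (by omega)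
    have h3 := ring_le hp (i := i) (by omega)
    have h4 := ring_le hp (i := i + 1) (by omega)
    rcases h with h | h | h
    · exact h3 h.symm
    · omega
    · exact h4 h.symm
  have hτN : N ∈ tau n N := by simp [tau]
  have hC : ∀ i, i + 1 < n → tau n N ≠ Cset n N i := by
    intro i hi h
    have hm : N + (n - 1) ∈ Cset n N i := by rw [← h]; simp [tau]
    have h0 : (0 : ℕ) ∈ Cset n N i := by rw [← h]; simp [tau]
    simp only [Cset, Finset.mem_insert, Finset.mem_singleton] at hm h0
    rw [ring_mid (by omega) hi] at hm h0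
    rcases Nat.eq_zero_or_pos i with rfl | h1
    · rw [ring_zero] at hm; omega
    · rw [ring_mid h1 (by omega)] at h0; omega
  have key : fundc A n N p (some (tau n N))
      = trc A (rh A n N p (n - 1)) (ring n N (n - 1)) (ring n N (n - 1 + 1)) N := by
    rw [fundc, Finset.sum_eq_single (n - 1)]
    · have e1 : some (tau n N) ≠ some (Sset n N p (n - 1)) := by
        intro h; rw [Option.some_inj] at h
        exact hNS (n - 1) (by omega) (h ▸ hτN)
      have e3 : some (tau n N) = some (Cset n N (n - 1)) := by rw [tau_eq hn3]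
      rw [stepc, if_pos (show 0 < n - 1 by omega), if_neg e1,
        if_neg (show ¬ (n - 1 + 1 < n) by omega), if_pos e3, zero_add, zero_add]
    · intro i hi hne
      rw [Finset.mem_range] at hi
      have hi' : i + 1 < n := by omega
      have e1 : some (tau n N) ≠ some (Sset n N p i) := by
        intro h; rw [Option.some_inj] at h
        exact hNS i hi (h ▸ hτN)
      have e2 : some (tau n N) ≠ some (Tset n N p i) := by
        intro h; rw [Option.some_inj] at h
        exact hNT i hi' (h ▸ hτN)
      have e3 : some (tau n N) ≠ some (Cset n N i) := by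
        intro h; rw [Option.some_inj] at h
        exact hC i hi' h
      rw [stepc, if_neg e1, if_neg e2, if_neg e3]
      simp
    · intro h
      exact absurd (Finset.mem_range.mpr (by omega)) h
  rw [key, norm_trc]

/-- the boundary of the fundamental chain of the disc is the chain of the path -/
theorem bd_fundc (h1a : NC1aStatement) (h4a : NC4aStatement) {L : Finset (Finset ℕ)} {n N : ℕ}
    {p : ℕ → ℕ} {A : ℕ → ℕ → G2} {D : Cell → Cell → ℂ} {a : Finset Cell}
    (hK : IsComplex (L ∪ disc n p N)) (hp : GoodPath L n N p)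
    (hA : IsCocycle (L ∪ disc n p N) A) (ha : evenCells (L ∪ disc n p N) ⊆ a)
    (hD : ∀ s ∈ L ∪ disc n p N, ∀ x, D x (some s) = Dg A x (some s)) (x : Cell) :
    ∑ l ∈ a, D x l * fundc A n N p l = pch A p n x := by
  have hn3 := hp.n3
  have mem : ∀ s ∈ L ∪ disc n p N, s.card = 3 → some s ∈ a := by
    intro s hs hc
    apply ha
    rw [mem_evenCells]
    exact ⟨s, hs, odd_of_card_eq_three hc, rfl⟩
  have h1 : ∑ l ∈ a, D x l * fundc A n N p l
      = ∑ i ∈ Finset.range n, ∑ l ∈ a, D x l * stepc A n N p i l := by
    rw [Finset.sum_comm]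
    apply Finset.sum_congr rfl
    intro l _
    rw [fundc, Finset.mul_sum]
  have h2 : ∀ i ∈ Finset.range n, ∑ l ∈ a, D x l * stepc A n N p i l
      = ed A (hol A p i) (p i) (p (i + 1)) x + tele A n N p i x - tele A n N p (i + 1) x := by
    intro i hi
    rw [Finset.mem_range] at hi
    rw [← bd_stepc h1a hK hp hA hi x]
    simp only [stepc, mul_add, Finset.sum_add_distrib]
    congr 1
    · congr 1
      · by_cases h0 : 0 < i
        · simp only [if_pos h0]
          rw [sum_mul_ite _ _ _ (mem _ (Sset_mem hi) (Sset_card hp h0 hi)), hD _ (Sset_mem hi)]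
        · simp only [if_neg h0, mul_zero, Finset.sum_const_zero]
      · by_cases h0 : i + 1 < n
        · simp only [if_pos h0]
          rw [sum_mul_ite _ _ _ (mem _ (Tset_mem hi) (Tset_card hp h0)), hD _ (Tset_mem hi)]
        · simp only [if_neg h0, mul_zero, Finset.sum_const_zero]
    · rw [sum_mul_ite _ _ _ (mem _ (Cset_mem hi) (Cset_card hp hi)), hD _ (Cset_mem hi)]
  rw [h1, Finset.sum_congr rfl h2]
  have h3 : ∀ m, ∑ i ∈ Finset.range m,
      (ed A (hol A p i) (p i) (p (i + 1)) x + tele A n N p i x - tele A n N p (i + 1) x)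
      = pch A p m x + tele A n N p 0 x - tele A n N p m x := by
    intro m
    induction m with
    | zero => simp [pch]
    | succ m ih =>
      rw [Finset.sum_range_succ, ih, pch, pch, Finset.sum_range_succ]
      ring
  rw [h3]
  have hhol : hol A p n = 1 := h4a L n N p A hp hA
  have h00 : A 0 0 = 1 := by
    have : ({0} : Finset ℕ) ∈ L ∪ disc n p N := by
      have h1 := hp.edge 0 (by omega)
      rw [hp.p0] at h1
      apply Finset.mem_union_left
      apply (hp.cx _ h1).2
      · intro y hy; rw [Finset.mem_singleton.mp hy]; simp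
      · simp
    exact hA.self this
  have e0 : tele A n N p 0 x = tele A n N p n x := by
    simp only [tele, rh, ring_zero, ring_n, hp.p0, hp.pn, hhol, h00]
    simp [hol]
  rw [e0]; ring

theorem even_card_two_of_mem_odd {L : Finset (Finset ℕ)} {n N : ℕ} {p : ℕ → ℕ} {u : Finset ℕ}
    (hu : u ∈ disc n p N) (he : Even u.card) : u.card = 2 := by
  have h3 := card_le_three_of_mem_disc hu
  have h1 := Finset.card_pos.mpr (mem_disc.mp hu).1
  obtain ⟨k, hk⟩ := he
  omega

/-- NC1 -/
theorem disc_reduction (h0 : NC0Statement) (h1a : NC1aStatement) (h4a : NC4aStatement) :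
    NC1Statement := by
  intro G L n N p A V D r hG hGL hpG hp hA hV
  obtain ⟨hK, hτK, hcoll⟩ := h0 L n N p hp
  have hn3 := hp.n3
  have hN := zero_lt_N hp
  set K := L ∪ disc n p N with hKdef
  set τ := tau n N with hτ
  have hcτ : τ.card = 3 := by rw [hτ, tau_eq hn3]; exact Cset_card hp (by omega)
  have hoτ : Odd τ.card := by rw [hcτ]; decide
  have hLK : L ⊆ K := Finset.subset_union_left
  have hGK : G ⊆ K := hGL.trans hLK
  have hNL : ∀ s ∈ L, N ∉ s := fun s hs h => lt_irrefl N (hp.lt s hs N h)
  have hNτ : N ∈ τ := by rw [hτ]; simp [tau]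
  have hτL : τ ∉ L := fun h => hNL τ h hNτ
  have hτe : some τ ∈ evenCells K := mem_evenCells.mpr ⟨τ, hτK, hoτ, rfl⟩
  -- `τ` is in no boundary
  have hmaxD : ∀ u ∈ K, Even u.card → Dg A (some τ) (some u) = 0 := by
    intro u hu he
    apply Dg_eq_zero_of_not_subset
    intro hsub
    rcases Finset.mem_union.mp hu with h | h
    · exact hNL u h (hsub.1 hNτ)
    · have := even_card_two_of_mem_odd (L := L) h he
      have h2 := Finset.card_lt_card hsub
      omega
  have hmax : ∀ k ∈ oddCells K, D (some τ) k = 0 := by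
    intro k hk
    rcases mem_oddCells.mp hk with rfl | ⟨u, hu, he, rfl⟩
    · exact hV.colnone _
    · rw [hV.col u hu]; exact hmaxD u hu he
  set D' := updCol D (some τ) (pch A p n) with hD'
  have hD'ne : ∀ x y, y ≠ some τ → D' x y = D x y := by
    intro x y hy; rw [hD', updCol, if_neg hy]
  have hD'eq : ∀ x, D' x (some τ) = pch A p n x := by
    intro x; rw [hD', updCol, if_pos rfl]
  have hoddne : ∀ y ∈ oddCells K, y ≠ some τ := by
    intro y hy
    rcases mem_oddCells.mp hy with rfl | ⟨u, -, he, rfl⟩
    · simp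
    · intro h; rw [Option.some_inj] at h; rw [h] at he
      exact (Nat.not_even_iff_odd.mpr hoτ) he
  -- the support of the fundamental chain
  have hcV : ∀ l ∈ V, fundc A n N p l = 0 := by
    intro l hl
    have hne := (hV.notMem l hl).2
    rw [fundc]
    apply Finset.sum_eq_zero
    intro i hi
    rw [Finset.mem_range] at hi
    rw [stepc, if_neg (hne _ (Sset_mem hi)), if_neg (hne _ (Tset_mem hi)),
      if_neg (hne _ (Cset_mem hi))]
    simp
  have hbd : ∀ x, ∑ l ∈ evenCells K, Dg A x l * fundc A n N p l = pch A p n x := fun x =>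
    bd_fundc h1a h4a (D := Dg A) hK hp hA (Finset.Subset.refl _) (fun _ _ _ => rfl) x
  have hbdV : ∀ x, ∑ l ∈ V ∪ evenCells K, D x l * fundc A n N p l = pch A p n x := fun x =>
    bd_fundc h1a h4a (D := D) hK hp hA Finset.subset_union_right (fun s hs y => hV.col s hs y) x
  -- step A
  have stepA : IsTorsOn (V ∪ evenCells K) (oddCells K) D' r ↔
      IsTorsOn (V ∪ evenCells K) (oddCells K) D r := by
    apply isTorsOn_column_even (τ := some τ) (Finset.mem_union_right _ hτe) (fundc A n N p)
      (norm_fundc_tau hp A) hmax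
    · intro k _
      rw [hD'eq, ← hbdV k]
    · intro k _ l hl
      exact hD'ne k l (hoddne l hl)
    · intro k _ l _ hl
      exact hD'ne k l hl
  -- the support of the chain of the path
  have hsupp : ∀ x, x ∉ oddCells G → pch A p n x = 0 := by
    intro x hx
    rw [pch]
    apply Finset.sum_eq_zero
    intro i hi
    rw [Finset.mem_range] at hi
    cases x with
    | none => exact absurd (mem_oddCells.mpr (Or.inl rfl)) hx
    | some s =>
      simp only [ed]
      rw [if_neg]
      rintro rfl
      apply hx
      rw [mem_oddCells]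
      refine Or.inr ⟨_, hpG i hi, ?_, rfl⟩
      rw [Finset.card_pair (hp.ne i hi)]
      decide
  -- `K' = K.erase τ`
  set K' := K.erase τ with hK'
  have hLK' : L ⊆ K' := by
    intro s hs
    rw [hK', Finset.mem_erase]
    exact ⟨fun h => hτL (h ▸ hs), hLK hs⟩
  have hK'K : K' ⊆ K := Finset.erase_subset _ _
  have hodd : oddCells K = oddCells K' := by
    ext x
    rw [mem_oddCells, mem_oddCells]
    constructor
    · rintro (h | ⟨s, hs, he, rfl⟩)
      · exact Or.inl h
      · refine Or.inr ⟨s, ?_, he, rfl⟩
        rw [hK', Finset.mem_erase]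
        refine ⟨?_, hs⟩
        rintro rfl
        exact (Nat.not_even_iff_odd.mpr hoτ) he
    · rintro (h | ⟨s, hs, he, rfl⟩)
      · exact Or.inl h
      · exact Or.inr ⟨s, hK'K hs, he, rfl⟩
  have heven : V ∪ evenCells K = insert (some τ) V ∪ evenCells K' := by
    ext x
    simp only [Finset.mem_union, Finset.mem_insert, mem_evenCells]
    constructor
    · rintro (h | ⟨s, hs, he, rfl⟩)
      · exact Or.inl (Or.inr h)
      · by_cases h : s = τ
        · exact Or.inl (Or.inl (by rw [h]))
        · exact Or.inr ⟨s, by rw [hK', Finset.mem_erase]; exact ⟨h, hs⟩, he, rfl⟩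
    · rintro ((h | h) | ⟨s, hs, he, rfl⟩)
      · exact Or.inr ⟨τ, hτK, hoτ, h⟩
      · exact Or.inl h
      · exact Or.inr ⟨s, hK'K hs, he, rfl⟩
  -- the virtual cells
  have hV' : VCells K' G A (insert (some τ) V) D' := by
    refine ⟨hGL.trans hLK', ?_, ?_, ?_, ?_, ?_, ?_⟩
    · intro v hv
      rcases Finset.mem_insert.mp hv with rfl | hv
      · refine ⟨by simp, fun s hs h => ?_⟩
        rw [Option.some_inj] at h
        rw [hK', Finset.mem_erase] at hs
        exact hs.1 h.symm
      · exact ⟨(hV.notMem v hv).1, fun s hs => (hV.notMem v hv).2 s (hK'K hs)⟩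
    · intro v hv y hy
      rw [← hodd] at hy
      rw [hD'ne v y (hoddne y hy)]
      rcases Finset.mem_insert.mp hv with rfl | hv
      · exact hmax y hy
      · exact hV.row v hv y hy
    · intro s hs x
      rw [hK', Finset.mem_erase] at hs
      rw [hD'ne x (some s) (by intro h; rw [Option.some_inj] at h; exact hs.1 h)]
      exact hV.col s hs.2 x
    · intro x
      rw [hD'ne x none (by simp)]
      exact hV.colnone x
    · intro v hv x hx
      rcases Finset.mem_insert.mp hv with rfl | hv
      · rw [hD'eq]; exact hsupp x hx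
      · have hvτ : v ≠ some τ := (hV.notMem v hv).2 τ hτK
        rw [hD'ne x v hvτ]
        exact hV.supp v hv x hx
    · intro v hv x
      rcases Finset.mem_insert.mp hv with rfl | hv
      · have e1 : ∑ y ∈ oddCells G, D' x y * D' y (some τ)
            = ∑ y ∈ oddCells G, Dg A x y * pch A p n y := by
          apply Finset.sum_congr rfl
          intro y hy
          have hyK := oddCells_mono hGK hy
          rw [hD'eq, hD'ne x y (hoddne y hyK)]
          congr 1
          rcases mem_oddCells.mp hyK with rfl | ⟨u, hu, -, rfl⟩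
          · rw [hV.colnone, Dg_none_right]
          · exact hV.col u hu x
        rw [e1]
        have e2 : ∑ y ∈ oddCells G, Dg A x y * pch A p n y
            = ∑ y ∈ oddCells K, Dg A x y * pch A p n y := by
          apply Finset.sum_subset (oddCells_mono hGK)
          intro y _ hy
          rw [hsupp y hy, mul_zero]
        rw [e2]
        by_cases hx : x = some ∅
        · -- row of the empty set
          apply Finset.sum_eq_zero
          intro y hy
          rcases mem_oddCells.mp hy with rfl | ⟨u, hu, he, rfl⟩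
          · rw [Dg_none_right, zero_mul]
          · have : Dg A x (some u) = 0 := by
              rw [hx, Dg_some_some]
              apply Finset.sum_eq_zero
              intro v hv
              rw [if_neg]
              intro h
              have h1 := Finset.card_erase_of_mem hv
              rw [h, Finset.card_empty] at h1
              have h2 := Finset.card_pos.mpr (hK u hu).1
              have h3 : u.card = 1 := by omega
              rw [h3] at he
              exact absurd he (by decide)
            rw [this, zero_mul]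
        · have e3 : ∑ y ∈ oddCells K, Dg A x y * pch A p n y
              = ∑ l ∈ evenCells K, (∑ y ∈ oddCells K, Dg A x y * Dg A y l) * fundc A n N p l := by
            calc ∑ y ∈ oddCells K, Dg A x y * pch A p n y
                = ∑ y ∈ oddCells K, ∑ l ∈ evenCells K,
                    Dg A x y * (Dg A y l * fundc A n N p l) := by
                  apply Finset.sum_congr rfl
                  intro y _
                  rw [← hbd y, Finset.mul_sum]
              _ = ∑ l ∈ evenCells K, ∑ y ∈ oddCells K,
                    Dg A x y * (Dg A y l * fundc A n N p l) := Finset.sum_comm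
              _ = _ := by
                  apply Finset.sum_congr rfl
                  intro l _
                  rw [Finset.sum_mul]
                  apply Finset.sum_congr rfl
                  intro y _
                  ring
          rw [e3]
          apply Finset.sum_eq_zero
          intro l hl
          obtain ⟨s, hs, hso, rfl⟩ := mem_evenCells.mp hl
          have : ∑ y ∈ oddCells K, Dg A x y * Dg A y (some s) = 0 := by
            apply Dg_sq hK hA hs _ _ _ x hx
            · intro h2 v hv
              rw [mem_oddCells]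
              refine Or.inr ⟨s.erase v, (hK s hs).2 _ (Finset.erase_subset _ _) ?_, ?_, rfl⟩
              · rw [← Finset.card_pos, Finset.card_erase_of_mem hv]; omega
              · rw [Finset.card_erase_of_mem hv]
                exact Nat.Odd.sub_odd hso odd_one
            · rw [mem_oddCells]
              rintro (h | ⟨u, hu, -, h⟩)
              · exact absurd h (by simp)
              · rw [Option.some_inj] at h
                have := (hK u hu).1
                rw [← h] at this
                exact Finset.not_nonempty_empty this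
          rw [this, zero_mul]
      · have hvτ : v ≠ some τ := (hV.notMem v hv).2 τ hτK
        rw [← hV.cyc v hv x]
        apply Finset.sum_congr rfl
        intro y hy
        rw [hD'ne x y (hoddne y (oddCells_mono hGK hy)), hD'ne y v hvτ]
  -- step B: the collapses
  have stepB : ∀ M, Relation.ReflTransGen CollapseStep M L → IsCocycle M A →
      VCells M G A (insert (some τ) V) D' →
      (IsTorsOn (insert (some τ) V ∪ evenCells M) (oddCells M) D' r ↔
        IsTorsOn (insert (some τ) V ∪ evenCells L) (oddCells L) D' r) := by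
    intro M hM
    have sub : ∀ M, Relation.ReflTransGen CollapseStep M L → L ⊆ M := by
      intro M hM
      induction hM using Relation.ReflTransGen.head_induction_on with
      | refl => exact Finset.Subset.refl _
      | head h _ ih =>
        obtain ⟨s, t, -, -, -, -, -, rfl⟩ := h.2.2
        exact ih.trans ((Finset.erase_subset _ _).trans (Finset.erase_subset _ _))
    induction hM using Relation.ReflTransGen.head_induction_on with
    | refl => intro _ _; exact Iff.rfl
    | @head M M' h h' ih =>
      intro hAM hVM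
      have hM'M : M' ⊆ M := by
        obtain ⟨s, t, -, -, -, -, -, rfl⟩ := h.2.2
        exact (Finset.erase_subset _ _).trans (Finset.erase_subset _ _)
      have hGM' : G ⊆ M' := hGL.trans (sub M' h')
      rw [collapse_core h.1 hAM hVM hGM' h.2.2 r]
      exact ih (cocycle_mono hM'M hAM) (vcells_mono hVM hGM' hM'M)
  refine ⟨?_, vcells_mono hV' hGL hLK'⟩
  rw [← stepA, heven, hodd]
  exact stepB K' hcoll (cocycle_mono hK'K hA) hV'

end Pool.Agent.Lib.MP_50ef00_gt.H65
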