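import Mathlib
import Pool.Agent.Lib.MP_50ef00_gt.H65.Disc

/-!
NC5, NC3: paths of words, their holonomies and chains.
-/

namespace Pool.Agent.Lib.MP_50ef00_gt.H65

open Pool.Agent.Lib.MP_50ef00_gt

theorem graph_edge1 (g : ℕ) (hg : g < 4) : ({0, 2 * g + 1} : Finset ℕ) ∈ graph := by
  rw [graph, Finset.mem_biUnion]
  refine ⟨g, Finset.mem_range.mpr hg, ?_⟩
  simp only [Finset.mem_union, mem_simplex]
  exact Or.inl (Or.inl ⟨Finset.Subset.refl _, by simp⟩)

theorem graph_edge2 (g : ℕ) (hg : g < 4) : ({2 * g + 1, 2 * g + 2} : Finset ℕ) ∈ graph := by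
  rw [graph, Finset.mem_biUnion]
  refine ⟨g, Finset.mem_range.mpr hg, ?_⟩
  simp only [Finset.mem_union, mem_simplex]
  exact Or.inl (Or.inr ⟨Finset.Subset.refl _, by simp⟩)

theorem graph_edge3 (g : ℕ) (hg : g < 4) : ({2 * g + 2, 0} : Finset ℕ) ∈ graph := by
  rw [graph, Finset.mem_biUnion]
  refine ⟨g, Finset.mem_range.mpr hg, ?_⟩
  simp only [Finset.mem_union, mem_simplex]
  exact Or.inr ⟨Finset.Subset.refl _, by simp⟩

theorem mem_graph {s : Finset ℕ} : s ∈ graph ↔ s.Nonempty ∧ ∃ g < 4,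
    s ⊆ {0, 2 * g + 1} ∨ s ⊆ {2 * g + 1, 2 * g + 2} ∨ s ⊆ {2 * g + 2, 0} := by
  simp only [graph, Finset.mem_biUnion, Finset.mem_range, Finset.mem_union, mem_simplex]
  constructor
  · rintro ⟨i, hi, (h | h) | h⟩
    · exact ⟨h.2, i, hi, Or.inl h.1⟩
    · exact ⟨h.2, i, hi, Or.inr (Or.inl h.1)⟩
    · exact ⟨h.2, i, hi, Or.inr (Or.inr h.1)⟩
  · rintro ⟨h, i, hi, h1 | h1 | h1⟩
    · exact ⟨i, hi, Or.inl (Or.inl ⟨h1, h⟩)⟩
    · exact ⟨i, hi, Or.inl (Or.inr ⟨h1, h⟩)⟩
    · exact ⟨i, hi, Or.inr ⟨h1, h⟩⟩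

theorem isComplex_graph : IsComplex graph := by
  intro s hs
  rw [mem_graph] at hs
  refine ⟨hs.1, fun t hts ht => ?_⟩
  rw [mem_graph]
  obtain ⟨-, g, hg, h | h | h⟩ := hs
  · exact ⟨ht, g, hg, Or.inl (hts.trans h)⟩
  · exact ⟨ht, g, hg, Or.inr (Or.inl (hts.trans h))⟩
  · exact ⟨ht, g, hg, Or.inr (Or.inr (hts.trans h))⟩

theorem isComplex_disc_union {L : Finset (Finset ℕ)} (hL : IsComplex L) (n N : ℕ)
    (p : ℕ → ℕ) : IsComplex (L ∪ disc n p N) := by
  intro s hs
  rcases Finset.mem_union.mp hs with h | h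
  · exact ⟨(hL s h).1, fun t hts ht => Finset.mem_union_left _ ((hL s h).2 t hts ht)⟩
  · rw [mem_disc] at h
    refine ⟨h.1, fun t hts ht => Finset.mem_union_right _ ?_⟩
    rw [mem_disc]
    obtain ⟨-, i, hi, h | h | h⟩ := h
    · exact ⟨ht, i, hi, Or.inl (hts.trans h)⟩
    · exact ⟨ht, i, hi, Or.inr (Or.inl (hts.trans h))⟩
    · exact ⟨ht, i, hi, Or.inr (Or.inr (hts.trans h))⟩

theorem wpath_zero_mod (w : Word) {i : ℕ} (h : i % 3 = 0) : wpath w i = 0 := by
  rw [wpath, if_pos h]

theorem wpath_one_mod (w : Word) {i : ℕ} (h : i % 3 = 1) :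
    wpath w i = if (w.getD (i / 3) (0, true)).2 then 2 * ((w.getD (i / 3) (0, true)).1 : ℕ) + 1
      else 2 * ((w.getD (i / 3) (0, true)).1 : ℕ) + 2 := by
  rw [wpath, if_neg (by omega)]
  simp only [h]
  cases (w.getD (i / 3) (0, true)).2 <;> simp

theorem wpath_two_mod (w : Word) {i : ℕ} (h : i % 3 = 2) :
    wpath w i = if (w.getD (i / 3) (0, true)).2 then 2 * ((w.getD (i / 3) (0, true)).1 : ℕ) + 2
      else 2 * ((w.getD (i / 3) (0, true)).1 : ℕ) + 1 := by
  rw [wpath, if_neg (by omega)]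
  simp only [h]
  cases (w.getD (i / 3) (0, true)).2 <;> simp

theorem wpath_edge_graph (w : Word) (i : ℕ) :
    ({wpath w i, wpath w (i + 1)} : Finset ℕ) ∈ graph := by
  have h3 : i % 3 = 0 ∨ i % 3 = 1 ∨ i % 3 = 2 := by omega
  rcases h3 with h | h | h
  · rw [wpath_zero_mod w h, wpath_one_mod w (by omega : (i + 1) % 3 = 1)]
    split
    · exact graph_edge1 _ (Fin.is_lt _)
    · rw [Finset.pair_comm]; exact graph_edge3 _ (Fin.is_lt _)
  · rw [wpath_one_mod w h, wpath_two_mod w (by omega : (i + 1) % 3 = 2),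
      show (i + 1) / 3 = i / 3 by omega]
    split
    · exact graph_edge2 _ (Fin.is_lt _)
    · rw [Finset.pair_comm]; exact graph_edge2 _ (Fin.is_lt _)
  · rw [wpath_two_mod w h, wpath_zero_mod w (by omega : (i + 1) % 3 = 0)]
    split
    · exact graph_edge3 _ (Fin.is_lt _)
    · rw [Finset.pair_comm]; exact graph_edge1 _ (Fin.is_lt _)

theorem wpath_ne (w : Word) (i : ℕ) : wpath w i ≠ wpath w (i + 1) := by
  have h3 : i % 3 = 0 ∨ i % 3 = 1 ∨ i % 3 = 2 := by omega
  rcases h3 with h | h | h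
  · rw [wpath_zero_mod w h, wpath_one_mod w (by omega : (i + 1) % 3 = 1)]
    split <;> omega
  · rw [wpath_one_mod w h, wpath_two_mod w (by omega : (i + 1) % 3 = 2),
      show (i + 1) / 3 = i / 3 by omega]
    split <;> omega
  · rw [wpath_two_mod w h, wpath_zero_mod w (by omega : (i + 1) % 3 = 0)]
    split <;> omega

theorem wpath_ne_zero (w : Word) {i : ℕ} (h : i % 3 ≠ 0) : wpath w i ≠ 0 := by
  have h3 : i % 3 = 1 ∨ i % 3 = 2 := by omega
  rcases h3 with h | h
  · rw [wpath_one_mod w h]; split <;> omega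
  · rw [wpath_two_mod w h]; split <;> omega

/-- NC5 -/
theorem good_path : NC5Statement := by
  intro L w N hL hgL hw hlt
  have hlen : 0 < w.length := List.length_pos_iff.mpr hw
  exact
    { cx := hL
      lt := hlt
      n3 := by omega
      p0 := wpath_zero_mod w rfl
      pn := wpath_zero_mod w (by omega)
      edge := fun i _ => hgL (wpath_edge_graph w i)
      ne := fun i _ => wpath_ne w i
      h1 := wpath_ne_zero w (by omega)
      h2 := wpath_ne_zero w (by omega)
      hl := wpath_ne_zero w (by omega) }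

/-! ### holonomy -/

section
variable {G : Type*} [Group G] {A : ℕ → ℕ → G}

theorem hol_add (A : ℕ → ℕ → G) (p : ℕ → ℕ) (m k : ℕ) :
    hol A p (m + k) = hol A p m * hol A (fun i => p (m + i)) k := by
  induction k with
  | zero => simp [hol]
  | succ k ih =>
    rw [← add_assoc]
    show hol A p (m + k) * A (p (m + k)) (p (m + k + 1)) = _
    rw [ih, mul_assoc]
    rfl

theorem wpath_cons (l : Fin 4 × Bool) (w : Word) (i : ℕ) : wpath (l :: w) (3 + i) = wpath w i := by
  have e1 : (3 + i) % 3 = i % 3 := by omega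
  have e2 : (3 + i) / 3 = i / 3 + 1 := by omega
  simp only [wpath, e1, e2, List.getD_cons_succ]

theorem wpath_cons_one (l : Fin 4 × Bool) (w : Word) :
    wpath (l :: w) 1 = if l.2 then 2 * (l.1 : ℕ) + 1 else 2 * (l.1 : ℕ) + 2 :=
  wpath_one_mod _ rfl

theorem wpath_cons_two (l : Fin 4 × Bool) (w : Word) :
    wpath (l :: w) 2 = if l.2 then 2 * (l.1 : ℕ) + 2 else 2 * (l.1 : ℕ) + 1 :=
  wpath_two_mod _ rfl

theorem hol_three (p : ℕ → ℕ) : hol A p 3 = A (p 0) (p 1) * A (p 1) (p 2) * A (p 2) (p 3) := by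
  show 1 * A (p 0) (p 1) * A (p 1) (p 2) * A (p 2) (p 3) = _
  rw [one_mul]

theorem inv1 (hA : IsCocycle graph A) (g : Fin 4) :
    A 0 (2 * g + 1) * A (2 * g + 1) 0 = 1 :=
  cocycle_inv isComplex_graph hA (graph_edge1 g g.2)

theorem inv1' (hA : IsCocycle graph A) (g : Fin 4) :
    A (2 * g + 1) 0 * A 0 (2 * g + 1) = 1 :=
  cocycle_inv isComplex_graph hA (by rw [Finset.pair_comm]; exact graph_edge1 g g.2)

theorem inv2 (hA : IsCocycle graph A) (g : Fin 4) :
    A (2 * g + 1) (2 * g + 2) * A (2 * g + 2) (2 * g + 1) = 1 :=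
  cocycle_inv isComplex_graph hA (graph_edge2 g g.2)

theorem inv2' (hA : IsCocycle graph A) (g : Fin 4) :
    A (2 * g + 2) (2 * g + 1) * A (2 * g + 1) (2 * g + 2) = 1 :=
  cocycle_inv isComplex_graph hA (by rw [Finset.pair_comm]; exact graph_edge2 g g.2)

theorem inv3 (hA : IsCocycle graph A) (g : Fin 4) :
    A (2 * g + 2) 0 * A 0 (2 * g + 2) = 1 :=
  cocycle_inv isComplex_graph hA (graph_edge3 g g.2)

theorem inv3' (hA : IsCocycle graph A) (g : Fin 4) :
    A 0 (2 * g + 2) * A (2 * g + 2) 0 = 1 :=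
  cocycle_inv isComplex_graph hA (by rw [Finset.pair_comm]; exact graph_edge3 g g.2)

theorem lhol_inv (hA : IsCocycle graph A) (g : Fin 4) :
    A 0 (2 * g + 2) * A (2 * g + 2) (2 * g + 1) * A (2 * g + 1) 0 = (lhol A g)⁻¹ := by
  rw [eq_inv_iff_mul_eq_one, lhol]
  calc A 0 (2 * g + 2) * A (2 * g + 2) (2 * g + 1) * A (2 * g + 1) 0
        * (A 0 (2 * g + 1) * A (2 * g + 1) (2 * g + 2) * A (2 * g + 2) 0)
      = A 0 (2 * g + 2) * (A (2 * g + 2) (2 * g + 1) * (A (2 * g + 1) 0
        * A 0 (2 * g + 1)) * A (2 * g + 1) (2 * g + 2)) * A (2 * g + 2) 0 := by group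
    _ = 1 := by rw [inv1' hA, mul_one, inv2' hA, mul_one, inv3' hA]

theorem hol_letter (hA : IsCocycle graph A) (l : Fin 4 × Bool) (w : Word) :
    hol A (wpath (l :: w)) 3 = if l.2 then lhol A l.1 else (lhol A l.1)⁻¹ := by
  rw [hol_three, wpath_zero_mod _ rfl, wpath_cons_one, wpath_cons_two, wpath_zero_mod _ rfl]
  cases l.2
  · simp only [Bool.false_eq_true, if_false]
    exact lhol_inv hA l.1
  · simp only [if_true]
    rfl

theorem wval_cons (γ : Fin 4 → G) (l : Fin 4 × Bool) (w : Word) :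
    wval γ (l :: w) = (if l.2 then γ l.1 else (γ l.1)⁻¹) * wval γ w := by
  simp [wval]

theorem hol_word (hA : IsCocycle graph A) (w : Word) :
    hol A (wpath w) (3 * w.length) = wval (lhol A) w := by
  induction w with
  | nil => simp [hol, wval]
  | cons l w ih =>
    have e : 3 * (l :: w).length = 3 + 3 * w.length := by
      rw [List.length_cons]; ring
    have f : (fun i => wpath (l :: w) (3 + i)) = wpath w := funext (wpath_cons l w)
    rw [e, hol_add, f, ih, hol_letter hA, wval_cons]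

end

/-- NC3h -/
theorem nc3h : NC3hStatement := fun A w hA => hol_word hA w

/-! ### chains -/

theorem pch_add (A : ℕ → ℕ → G2) (p : ℕ → ℕ) (m k : ℕ) (x : Cell) :
    pch A p (m + k) x = pch A p m x + ∑ i ∈ Finset.range k,
      ed A (hol A p m * hol A (fun i => p (m + i)) i) (p (m + i)) (p (m + (i + 1))) x := by
  simp only [pch]
  rw [Finset.sum_range_add]
  congr 1
  apply Finset.sum_congr rfl
  intro i _
  rw [hol_add]
  rfl

theorem pch_left (A : ℕ → ℕ → G2) (p : ℕ → ℕ) (h : G2) (k : ℕ) (x : Cell) :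
    ∑ i ∈ Finset.range k, ed A (h * hol A p i) (p i) (p (i + 1)) x
      = rho h * pch A p k x + (if x = none then cross (pos h) (pos (h * hol A p k)) else 0) := by
  induction k with
  | zero =>
    simp only [Finset.range_zero, Finset.sum_empty, pch, hol, mul_one, mul_zero, zero_add,
      cross_self, ite_self]
  | succ k ih =>
    rw [Finset.sum_range_succ, ih]
    simp only [pch, Finset.sum_range_succ]
    have ek : hol A p (k + 1) = hol A p k * A (p k) (p (k + 1)) := rfl
    cases x with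
    | none =>
      simp only [ed, if_true]
      have := cross_move h (hol A p k) (hol A p (k + 1))
      rw [← ek, mul_assoc h, ← ek]
      rw [cross_swap (pos h) (pos (h * hol A p (k + 1)))] at this
      linear_combination this
    | some s =>
      have hne : (some s : Cell) ≠ none := by simp
      simp only [ed, if_neg hne, mul_assoc h, rho_mul]
      split_ifs <;> ring

theorem loopc_eq (A : ℕ → ℕ → G2) (g : Fin 4) (w : Word) (x : Cell) :
    loopc A g x = pch A (wpath ((g, true) :: w)) 3 x := by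
  simp only [pch, Finset.sum_range_succ, Finset.range_zero, Finset.sum_empty, zero_add, loopc]
  simp only [wpath_zero_mod ((g, true) :: w) (show 0 % 3 = 0 from rfl),
    wpath_zero_mod ((g, true) :: w) (show (2 + 1) % 3 = 0 from rfl),
    wpath_cons_one, wpath_cons_two, if_true, hol, one_mul,
    show (1 : ℕ) + 1 = 2 from rfl, show (0 : ℕ) + 1 = 1 from rfl]

/-- the chain of a letter path -/
theorem pch_letter {A : ℕ → ℕ → G2} (hA : IsCocycle graph A) (l : Fin 4 × Bool) (w : Word)
    (x : Cell) : pch A (wpath (l :: w)) 3 x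
      = (if l.2 then 1 else -(rho (lhol A l.1))⁻¹) * loopc A l.1 x := by
  obtain ⟨g, b⟩ := l
  cases b with
  | true => simp only [if_true, one_mul]; exact (loopc_eq A g w x).symm
  | false =>
    simp only [Bool.false_eq_true, if_false]
    have hl := pch_left A (wpath ((g, true) :: w)) (lhol A g)⁻¹ 3 x
    rw [← loopc_eq, hol_letter hA, if_pos rfl, inv_mul_cancel, pos_one, cross_zero_right,
      ite_self, add_zero, Trip.rho_inv] at hl
    rw [neg_mul, ← hl]
    simp only [pch, Finset.sum_range_succ, Finset.range_zero, Finset.sum_empty, zero_add]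
    simp only [wpath_zero_mod ((g, true) :: w) (show 0 % 3 = 0 from rfl),
      wpath_zero_mod ((g, true) :: w) (show (2 + 1) % 3 = 0 from rfl),
      wpath_zero_mod ((g, false) :: w) (show 0 % 3 = 0 from rfl),
      wpath_zero_mod ((g, false) :: w) (show (2 + 1) % 3 = 0 from rfl),
      wpath_cons_one, wpath_cons_two, if_true, hol, one_mul, mul_one,
      show (1 : ℕ) + 1 = 2 from rfl, show (0 : ℕ) + 1 = 1 from rfl, Bool.false_eq_true, if_false]
    -- three reversed edges
    have i1 := inv1 hA g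
    have i2 := inv2 hA g
    have i3 := inv3 hA g
    have hlh : (lhol A g)⁻¹ = A 0 (2 * g + 2) * A (2 * g + 2) (2 * g + 1) * A (2 * g + 1) 0 :=
      (lhol_inv hA g).symm
    have k1 : (lhol A g)⁻¹ * (A 0 (2 * g + 1) * A (2 * g + 1) (2 * g + 2))
        = A 0 (2 * g + 2) := by
      rw [hlh]
      calc A 0 (2 * g + 2) * A (2 * g + 2) (2 * g + 1) * A (2 * g + 1) 0
            * (A 0 (2 * g + 1) * A (2 * g + 1) (2 * g + 2))
          = A 0 (2 * g + 2) * (A (2 * g + 2) (2 * g + 1) * (A (2 * g + 1) 0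
            * A 0 (2 * g + 1)) * A (2 * g + 1) (2 * g + 2)) := by group
        _ = A 0 (2 * g + 2) := by rw [inv1' hA, mul_one, inv2' hA, mul_one]
    have k2 : (lhol A g)⁻¹ * A 0 (2 * g + 1) = A 0 (2 * g + 2) * A (2 * g + 2) (2 * g + 1) := by
      rw [hlh, mul_assoc, inv1' hA, mul_one]
    rw [k1, k2]
    have r1 : ed A (A 0 (2 * (g : ℕ) + 2)) (2 * (g : ℕ) + 2) 0 x
        = -ed A 1 0 (2 * (g : ℕ) + 2) x := by
      have := ed_rev (A := A) (h := 1) (u := 0) (v := 2 * (g : ℕ) + 2) (by omega) (inv3' hA g) x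
      rwa [one_mul] at this
    have r2 : ed A (A 0 (2 * (g : ℕ) + 2) * A (2 * (g : ℕ) + 2) (2 * (g : ℕ) + 1))
        (2 * (g : ℕ) + 1) (2 * (g : ℕ) + 2) x
        = -ed A (A 0 (2 * (g : ℕ) + 2)) (2 * (g : ℕ) + 2) (2 * (g : ℕ) + 1) x :=
      ed_rev (by omega) (inv2' hA g) x
    have r3 : ed A (lhol A g)⁻¹ 0 (2 * (g : ℕ) + 1) x
        = -ed A (A 0 (2 * (g : ℕ) + 2) * A (2 * (g : ℕ) + 2) (2 * (g : ℕ) + 1))
          (2 * (g : ℕ) + 1) 0 x := by
      rw [hlh]
      exact ed_rev (by omega) (inv1' hA g) x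
    rw [r1, r2, r3]
    ring

theorem wval_A (γ : Fin 4 → G2) (w : Word) : (tval γ w).A = wval γ w := by
  induction w with
  | nil => simp [tval, wval]
  | cons l w ih =>
    rw [tval, wval_cons, wval_cons, Trip.mul_A]
    rw [tval] at ih
    rw [ih]
    cases l.2 <;> simp [Trip.gen]

/-- NC3 -/
theorem nc3 : NC3Statement := by
  intro A w hA
  refine ⟨hol_word hA w, ?_⟩
  induction w with
  | nil =>
    intro x
    simp [pch, tval, wval]
  | cons l w ih =>
    intro x
    have e : 3 * (l :: w).length = 3 + 3 * w.length := by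
      rw [List.length_cons]; ring
    have f : (fun i => wpath (l :: w) (3 + i)) = wpath w := funext (wpath_cons l w)
    have h1 : pch A (wpath (l :: w)) (3 + 3 * w.length) x
        = pch A (wpath (l :: w)) 3 x + ∑ i ∈ Finset.range (3 * w.length),
          ed A (hol A (wpath (l :: w)) 3 * hol A (wpath w) i) (wpath w i) (wpath w (i + 1)) x := by
      rw [pch_add, f]
      congr 1
      apply Finset.sum_congr rfl
      intro i _
      rw [wpath_cons, wpath_cons]
    rw [e, h1, pch_left, ih x, pch_letter hA]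
    -- the right-hand side
    set T := (if l.2 then Trip.gen (lhol A) l.1 else (Trip.gen (lhol A) l.1)⁻¹) with hT
    have hTA : T.A = hol A (wpath (l :: w)) 3 := by
      rw [hT, hol_letter hA]
      cases l.2 <;> simp [Trip.gen]
    have hTF : ∀ g, T.F g = (if l.2 then 1 else -(rho (lhol A l.1))⁻¹) *
        (Pi.single l.1 1 : Fin 4 → ℂ) g := by
      intro g
      rw [hT]
      cases l.2 <;> simp [Trip.gen]
    have hTQ : T.Q = 0 := by
      rw [hT]
      cases l.2 <;> simp [Trip.gen]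
    have htv : tval (lhol A) (l :: w) = T * tval (lhol A) w := by
      rw [tval, wval_cons, hT]
      rfl
    rw [htv, Trip.mul_Q, hTQ, hTA, wval_A, ← hol_word hA w]
    have hF : ∑ g, (T * tval (lhol A) w).F g * loopc A g x
        = (if l.2 then 1 else -(rho (lhol A l.1))⁻¹) * loopc A l.1 x
          + rho (hol A (wpath (l :: w)) 3) * ∑ g, (tval (lhol A) w).F g * loopc A g x := by
      simp only [Trip.mul_F, add_mul, Finset.sum_add_distrib]
      congr 1
      · rw [Finset.sum_eq_single l.1]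
        · rw [hTF, Pi.single_eq_same, mul_one]
        · intro g _ hg
          rw [hTF, Pi.single_eq_of_ne hg, mul_zero, zero_mul]
        · intro h; exact absurd (Finset.mem_univ _) h
      · rw [Finset.mul_sum]
        apply Finset.sum_congr rfl
        intro g _
        rw [hTA]; ring
    rw [hF]
    by_cases hx : x = none
    · simp only [if_pos hx]; ring
    · simp only [if_neg hx]; ring

end Pool.Agent.Lib.MP_50ef00_gt.H65
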