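import Mathlib
import Pool.Agent.Lib.MP_50ef00_gt.H65.WordPath

/-!
NC4a, NC4b, NC4e: cocycles on discs and on the graph.
-/

namespace Pool.Agent.Lib.MP_50ef00_gt.H65

open Pool.Agent.Lib.MP_50ef00_gt

section
variable {Γ : Type*} [Group Γ] {L : Finset (Finset ℕ)} {n N : ℕ} {p : ℕ → ℕ} {A : ℕ → ℕ → Γ}

theorem zero_singleton_mem (hp : GoodPath L n N p) : ({0} : Finset ℕ) ∈ L := by
  have h1 := hp.edge 0 (by have := hp.n3; omega)
  rw [hp.p0] at h1
  apply (hp.cx _ h1).2
  · intro y hy; rw [Finset.mem_singleton.mp hy]; simp
  · simp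

theorem hol_disc (hp : GoodPath L n N p) (hA : IsCocycle (L ∪ disc n p N) A) :
    hol A p n = 1 := by
  have hn3 := hp.n3
  have hK := isComplex_disc_union hp.cx n N p
  have h00 : A 0 0 = 1 := hA.self (Finset.mem_union_left _ (zero_singleton_mem hp))
  have key : ∀ i, i ≤ n → rh A n N p i * A (ring n N i) N = A 0 N := by
    intro i
    induction i with
    | zero =>
      intro _
      rw [rh, ring_zero, hp.p0, h00]
      simp [hol]
    | succ i ih =>
      intro hi
      have hi' : i < n := by omega
      have cS : Sset n N p i ∈ L ∪ disc n p N := Sset_mem hi'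
      have cT : Tset n N p i ∈ L ∪ disc n p N := Tset_mem hi'
      have cC : Cset n N i ∈ L ∪ disc n p N := Cset_mem hi'
      have e1 : A (p i) (ring n N i) * A (ring n N i) (p (i + 1)) = A (p i) (p (i + 1)) :=
        hA.of_subset hK cS (by simp [Sset]) (by simp [Sset]) (by simp [Sset])
      have e2 : A (ring n N i) (p (i + 1)) * A (p (i + 1)) (ring n N (i + 1))
          = A (ring n N i) (ring n N (i + 1)) :=
        hA.of_subset hK cT (by simp [Tset]) (by simp [Tset]) (by simp [Tset])
      have e3 : A (ring n N i) (ring n N (i + 1)) * A (ring n N (i + 1)) N = A (ring n N i) N :=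
        hA.of_subset hK cC (by simp [Cset]) (by simp [Cset]) (by simp [Cset])
      rw [← ih (by omega)]
      show hol A p i * A (p i) (p (i + 1)) * A (p (i + 1)) (ring n N (i + 1))
        * A (ring n N (i + 1)) N = hol A p i * A (p i) (ring n N i) * A (ring n N i) N
      rw [← e1, ← e3, ← e2]
      group
  have h := key n le_rfl
  rw [rh, ring_n, hp.pn, h00, mul_one] at h
  exact mul_eq_right.mp h

end

/-- NC4a -/
theorem nc4a : NC4aStatement := fun _ _ _ _ _ hp hA => hol_disc hp hA

/-! ### extension over a disc -/

section
variable {Γ : Type*} [Group Γ] {L : Finset (Finset ℕ)} {n N : ℕ} {p : ℕ → ℕ} {A : ℕ → ℕ → Γ}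

/-- values from a new vertex to an old one -/
def newVal (A : ℕ → ℕ → Γ) (p : ℕ → ℕ) (N u v : ℕ) : Γ :=
  if u = N then 1 else if v = p (u - N) then hol A p (u - N)
    else if v = p (u - N + 1) then hol A p (u - N + 1) else 1

/-- the extended cocycle -/
def extC (A : ℕ → ℕ → Γ) (p : ℕ → ℕ) (N u v : ℕ) : Γ :=
  if u < N then (if v < N then A u v else (newVal A p N v u)⁻¹)
    else (if v < N then newVal A p N u v else 1)

theorem extC_old {u v : ℕ} (hu : u < N) (hv : v < N) : extC A p N u v = A u v := by
  rw [extC, if_pos hu, if_pos hv]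

theorem extC_new {u v : ℕ} (hu : N ≤ u) (hv : N ≤ v) : extC A p N u v = 1 := by
  rw [extC, if_neg (by omega), if_neg (by omega)]

theorem extC_no {u v : ℕ} (hu : N ≤ u) (hv : v < N) : extC A p N u v = newVal A p N u v := by
  rw [extC, if_neg (by omega), if_pos hv]

theorem extC_on {u v : ℕ} (hu : N ≤ u) (hv : v < N) :
    extC A p N v u = (newVal A p N u v)⁻¹ := by
  rw [extC, if_pos hv, if_neg (by omega)]

/-- a function that is a coboundary on a set satisfies the cocycle rule there -/
theorem cocycle_of_pot {B : ℕ → ℕ → Γ} {s : Finset ℕ} (φ : ℕ → Γ)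
    (h : ∀ a ∈ s, ∀ b ∈ s, B a b = (φ a)⁻¹ * φ b) {a b c : ℕ} (ha : a ∈ s) (hb : b ∈ s)
    (hc : c ∈ s) : B a b * B b c = B a c := by
  rw [h a ha b hb, h b hb c hc, h a ha c hc]; group

theorem newVal_apex (v : ℕ) : newVal A p N N v = 1 := by rw [newVal, if_pos rfl]

theorem newVal_first {i : ℕ} (h0 : 0 < i) : newVal A p N (N + i) (p i) = hol A p i := by
  rw [newVal, if_neg (by omega), show N + i - N = i by omega, if_pos rfl]

theorem newVal_second {i : ℕ} (h0 : 0 < i) (hne : p i ≠ p (i + 1)) :
    newVal A p N (N + i) (p (i + 1)) = hol A p (i + 1) := by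
  rw [newVal, if_neg (by omega), show N + i - N = i by omega, if_neg hne.symm, if_pos rfl]

theorem exists_ext (hp : GoodPath L n N p) (hA : IsCocycle L A) (hh : hol A p n = 1) :
    ∃ A' : ℕ → ℕ → Γ, IsCocycle (L ∪ disc n p N) A' ∧ ∀ u v, u < N → v < N → A' u v = A u v := by
  have hn3 := hp.n3
  have hN := zero_lt_N hp
  have h00 : A 0 0 = 1 := hA.self (zero_singleton_mem hp)
  refine ⟨extC A p N, ?_, fun u v hu hv => extC_old hu hv⟩
  -- edges of the path
  have hpp : ∀ i < n, A (p i) (p (i + 1)) = (hol A p i)⁻¹ * hol A p (i + 1) := by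
    intro i _
    show A (p i) (p (i + 1)) = (hol A p i)⁻¹ * (hol A p i * A (p i) (p (i + 1)))
    group
  have hpself : ∀ i ≤ n, A (p i) (p i) = 1 := by
    intro i hi
    rcases Nat.lt_or_ge i n with h | h
    · apply hA.self
      apply (hp.cx _ (hp.edge i h)).2
      · intro y hy; rw [Finset.mem_singleton.mp hy]; simp
      · simp
    · have : i = n := by omega
      rw [this, hp.pn, h00]
  have hpp' : ∀ i < n, A (p (i + 1)) (p i) = (hol A p (i + 1))⁻¹ * hol A p i := by
    intro i hi
    have h1 := cocycle_inv hp.cx hA (hp.edge i hi)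
    have h2 : A (p (i + 1)) (p i) = (A (p i) (p (i + 1)))⁻¹ := (eq_inv_of_mul_eq_one_right h1)
    rw [h2, hpp i hi]; group
  -- ring vertex and the value at `0`
  have r0 : ∀ i, 0 < i → i + 1 < n → i = 1 → newVal A p N (N + i) 0 = 1 := by
    rintro i h0 h1 rfl
    rw [newVal, if_neg (by omega), show N + 1 - N = 1 by omega, if_neg hp.h1.symm,
      if_neg hp.h2.symm]
  have rl : newVal A p N (N + (n - 1)) 0 = 1 := by
    rw [newVal, if_neg (by omega), show N + (n - 1) - N = n - 1 by omega, if_neg hp.hl.symm,
      show n - 1 + 1 = n by omega, if_pos hp.pn.symm, hh]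
  intro u v w huvw
  rcases Finset.mem_union.mp huvw with hL | hD
  · have hu : u < N := hp.lt _ hL u (by simp)
    have hv : v < N := hp.lt _ hL v (by simp)
    have hw : w < N := hp.lt _ hL w (by simp)
    rw [extC_old hu hv, extC_old hv hw, extC_old hu hw]
    exact hA u v w hL
  · obtain ⟨-, i, hi, h | h | h⟩ := mem_disc.mp hD
    · -- `S i`
      have mu := h (show u ∈ ({u, v, w} : Finset ℕ) by simp)
      have mv := h (show v ∈ ({u, v, w} : Finset ℕ) by simp)
      have mw := h (show w ∈ ({u, v, w} : Finset ℕ) by simp)
      have l1 : p i < N := GoodPath_lt hp (by omega)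
      have l2 : p (i + 1) < N := GoodPath_lt hp (by omega)
      have hne := hp.ne i hi
      apply cocycle_of_pot (fun a => if a = p i then hol A p i else if a = p (i + 1) then
        hol A p (i + 1) else 1) _ mu mv mw
      rcases Nat.eq_zero_or_pos i with rfl | h0
      · rw [ring_zero, hp.p0]
        have hne' := hne
        rw [hp.p0] at hne'
        have q1 := hpp 0 hi
        have q2 := hpp' 0 hi
        have q3 := hpself 1 (by omega)
        rw [hp.p0] at q1 q2
        intro a ha b hb
        simp only [Finset.mem_insert, Finset.mem_singleton] at ha hb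
        rcases ha with rfl | rfl | rfl <;> rcases hb with rfl | rfl | rfl <;>
          simp only [extC_old hN hN, extC_old hN l2, extC_old l2 hN, extC_old l2 l2, if_true, h00,
            hne'.symm, if_false, q1, q2, q3, inv_mul_cancel]
      · have hr : ring n N i = N + i := ring_mid h0 hi
        rw [hr]
        have e1 : N + i ≠ p i := by omega
        have e2 : N + i ≠ p (i + 1) := by omega
        have e3 : extC A p N (N + i) (p i) = hol A p i := by
          rw [extC_no (by omega) l1, newVal_first h0]
        have e4 : extC A p N (N + i) (p (i + 1)) = hol A p (i + 1) := by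
          rw [extC_no (by omega) l2, newVal_second h0 hne]
        have e5 : extC A p N (p i) (N + i) = (hol A p i)⁻¹ := by
          rw [extC_on (by omega) l1, newVal_first h0]
        have e6 : extC A p N (p (i + 1)) (N + i) = (hol A p (i + 1))⁻¹ := by
          rw [extC_on (by omega) l2, newVal_second h0 hne]
        have e7 : extC A p N (N + i) (N + i) = 1 := extC_new (by omega) (by omega)
        have q3 := hpself i (by omega)
        have q4 := hpself (i + 1) (by omega)
        intro a ha b hb
        simp only [Finset.mem_insert, Finset.mem_singleton] at ha hb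
        rcases ha with rfl | rfl | rfl <;> rcases hb with rfl | rfl | rfl <;>
          simp only [e3, e4, e5, e6, e7, e1, e2, if_true, if_false, hne.symm, extC_old l1 l2,
            extC_old l2 l1, extC_old l1 l1, extC_old l2 l2, hpp i hi, hpp' i hi, q3, q4,
            inv_mul_cancel, mul_one, one_mul, inv_one]
    · -- `T i`
      have mu := h (show u ∈ ({u, v, w} : Finset ℕ) by simp)
      have mv := h (show v ∈ ({u, v, w} : Finset ℕ) by simp)
      have mw := h (show w ∈ ({u, v, w} : Finset ℕ) by simp)
      have l2 : p (i + 1) < N := GoodPath_lt hp (by omega)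
      apply cocycle_of_pot (fun a => if a = p (i + 1) then hol A p (i + 1) else 1) _ mu mv mw
      have q4 := hpself (i + 1) (by omega)
      rcases Nat.eq_zero_or_pos i with rfl | h0
      · -- `{0, p 1, N+1}`
        have hr : ring n N (0 + 1) = N + 1 := ring_mid (by omega) (by omega)
        rw [ring_zero, hr]
        simp only [Nat.zero_add] at l2 q4 ⊢
        have e1 : (0 : ℕ) ≠ p 1 := hp.h1.symm
        have e2 : N + 1 ≠ p 1 := by omega
        have e3 : extC A p N (N + 1) (p 1) = hol A p 1 := by
          rw [extC_no (by omega) l2, newVal_first (by omega)]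
        have e4 : extC A p N (p 1) (N + 1) = (hol A p 1)⁻¹ := by
          rw [extC_on (by omega) l2, newVal_first (by omega)]
        have e5 : extC A p N (N + 1) 0 = 1 := by
          rw [extC_no (by omega) hN, r0 1 (by omega) (by omega) rfl]
        have e6 : extC A p N 0 (N + 1) = 1 := by
          rw [extC_on (by omega) hN, r0 1 (by omega) (by omega) rfl, inv_one]
        have e7 : extC A p N (N + 1) (N + 1) = 1 := extC_new (by omega) (by omega)
        have q1 := hpp 0 hi
        have q2 := hpp' 0 hi
        rw [hp.p0] at q1 q2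
        have hol0 : hol A p 0 = 1 := rfl
        rw [hol0] at q1 q2
        simp only [Nat.zero_add] at q1 q2
        intro a ha b hb
        simp only [Finset.mem_insert, Finset.mem_singleton] at ha hb
        rcases ha with rfl | rfl | rfl <;> rcases hb with rfl | rfl | rfl <;>
          simp only [e3, e4, e5, e6, e7, e1, e2, if_true, if_false, extC_old hN hN,
            extC_old hN l2, extC_old l2 hN, extC_old l2 l2, q1, q2, q4, h00,
            inv_mul_cancel, mul_one, one_mul, inv_one]
      · have hr : ring n N i = N + i := ring_mid h0 hi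
        have hne := hp.ne i hi
        have e3 : extC A p N (N + i) (p (i + 1)) = hol A p (i + 1) := by
          rw [extC_no (by omega) l2, newVal_second h0 hne]
        have e4 : extC A p N (p (i + 1)) (N + i) = (hol A p (i + 1))⁻¹ := by
          rw [extC_on (by omega) l2, newVal_second h0 hne]
        have e7 : extC A p N (N + i) (N + i) = 1 := extC_new (by omega) (by omega)
        have e1 : N + i ≠ p (i + 1) := by omega
        rcases Nat.lt_or_ge (i + 1) n with h1 | h1
        · have hr' : ring n N (i + 1) = N + (i + 1) := ring_mid (by omega) h1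
          rw [hr, hr']
          have e2 : N + (i + 1) ≠ p (i + 1) := by omega
          have e5 : extC A p N (N + (i + 1)) (p (i + 1)) = hol A p (i + 1) := by
            rw [extC_no (by omega) l2, newVal_first (by omega)]
          have e6 : extC A p N (p (i + 1)) (N + (i + 1)) = (hol A p (i + 1))⁻¹ := by
            rw [extC_on (by omega) l2, newVal_first (by omega)]
          have e8 : extC A p N (N + i) (N + (i + 1)) = 1 := extC_new (by omega) (by omega)
          have e9 : extC A p N (N + (i + 1)) (N + i) = 1 := extC_new (by omega) (by omega)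
          have e10 : extC A p N (N + (i + 1)) (N + (i + 1)) = 1 :=
            extC_new (by omega) (by omega)
          intro a ha b hb
          simp only [Finset.mem_insert, Finset.mem_singleton] at ha hb
          rcases ha with rfl | rfl | rfl <;> rcases hb with rfl | rfl | rfl <;>
            simp only [e3, e4, e5, e6, e7, e8, e9, e10, e1, e2, if_true, if_false,
              extC_old l2 l2, q4, inv_mul_cancel, mul_one, one_mul, inv_one]
        · -- last step
          have hin : i + 1 = n := by omega
          have hr' : ring n N (i + 1) = p (i + 1) := by rw [hin, ring_n, hp.pn]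
          rw [hr, hr']
          intro a ha b hb
          simp only [Finset.mem_insert, Finset.mem_singleton] at ha hb
          rcases ha with rfl | rfl | rfl <;> rcases hb with rfl | rfl | rfl <;>
            simp only [e3, e4, e7, e1, if_true, if_false,
              extC_old l2 l2, q4, inv_mul_cancel, mul_one, one_mul, inv_one]
    · -- `C i`
      have mu := h (show u ∈ ({u, v, w} : Finset ℕ) by simp)
      have mv := h (show v ∈ ({u, v, w} : Finset ℕ) by simp)
      have mw := h (show w ∈ ({u, v, w} : Finset ℕ) by simp)
      apply cocycle_of_pot (fun _ => 1) _ mu mv mw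
      have a1 : extC A p N N 0 = 1 := by rw [extC_no le_rfl hN, newVal_apex]
      have a2 : extC A p N 0 N = 1 := by rw [extC_on le_rfl hN, newVal_apex, inv_one]
      have a3 : extC A p N N N = 1 := extC_new le_rfl le_rfl
      have a4 : extC A p N 0 0 = 1 := by rw [extC_old hN hN, h00]
      rcases Nat.eq_zero_or_pos i with rfl | h0
      · have hr : ring n N (0 + 1) = N + 1 := ring_mid (by omega) (by omega)
        rw [ring_zero, hr]
        have e5 : extC A p N (N + 1) 0 = 1 := by
          rw [extC_no (by omega) hN, r0 1 (by omega) (by omega) rfl]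
        have e6 : extC A p N 0 (N + 1) = 1 := by
          rw [extC_on (by omega) hN, r0 1 (by omega) (by omega) rfl, inv_one]
        have e7 : extC A p N (N + 1) (N + 1) = 1 := extC_new (by omega) (by omega)
        have e8 : extC A p N (N + 1) N = 1 := extC_new (by omega) (by omega)
        have e9 : extC A p N N (N + 1) = 1 := extC_new (by omega) (by omega)
        intro a ha b hb
        simp only [Finset.mem_insert, Finset.mem_singleton] at ha hb
        rcases ha with rfl | rfl | rfl <;> rcases hb with rfl | rfl | rfl <;>
          simp only [a1, a2, a3, a4, e5, e6, e7, e8, e9, inv_one, mul_one]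
      · have hr : ring n N i = N + i := ring_mid h0 hi
        rcases Nat.lt_or_ge (i + 1) n with h1 | h1
        · have hr' : ring n N (i + 1) = N + (i + 1) := ring_mid (by omega) h1
          rw [hr, hr']
          intro a ha b hb
          simp only [Finset.mem_insert, Finset.mem_singleton] at ha hb
          rw [extC_new (by omega) (by omega)]
          simp
        · have hin : i + 1 = n := by omega
          have hr' : ring n N (i + 1) = 0 := by rw [hin, ring_n]
          have hi' : i = n - 1 := by omega
          rw [hr, hr', hi']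
          have e5 : extC A p N (N + (n - 1)) 0 = 1 := by
            rw [extC_no (by omega) hN, rl]
          have e6 : extC A p N 0 (N + (n - 1)) = 1 := by
            rw [extC_on (by omega) hN, rl, inv_one]
          have e7 : extC A p N (N + (n - 1)) (N + (n - 1)) = 1 :=
            extC_new (by omega) (by omega)
          have e8 : extC A p N (N + (n - 1)) N = 1 := extC_new (by omega) (by omega)
          have e9 : extC A p N N (N + (n - 1)) = 1 := extC_new (by omega) (by omega)
          intro a ha b hb
          simp only [Finset.mem_insert, Finset.mem_singleton] at ha hb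
          rcases ha with rfl | rfl | rfl <;> rcases hb with rfl | rfl | rfl <;>
            simp only [a1, a2, a3, a4, e5, e6, e7, e8, e9, inv_one, mul_one]

end

/-- NC4b -/
theorem nc4b : NC4bStatement := fun _ _ _ _ _ hp hA hh => exists_ext hp hA hh

/-! ### the graph -/

section
variable {Γ : Type*} [Group Γ]

/-- the values of the generators, indexed by natural numbers -/
def genN (γ : Fin 4 → Γ) (m : ℕ) : Γ := if h : m < 4 then γ ⟨m, h⟩ else 1

/-- a cocycle on the graph with given letter holonomies -/
def graphC (γ : Fin 4 → Γ) (u v : ℕ) : Γ :=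
  if v = 0 ∧ u ≠ 0 ∧ u % 2 = 0 then genN γ (u / 2 - 1)
  else if u = 0 ∧ v ≠ 0 ∧ v % 2 = 0 then (genN γ (v / 2 - 1))⁻¹ else 1

theorem graphC_self (γ : Fin 4 → Γ) (u : ℕ) : graphC γ u u = 1 := by
  rw [graphC, if_neg (by omega), if_neg (by omega)]

theorem graphC_inv (γ : Fin 4 → Γ) (u v : ℕ) : graphC γ u v * graphC γ v u = 1 := by
  simp only [graphC]
  by_cases h1 : v = 0 ∧ u ≠ 0 ∧ u % 2 = 0
  · rw [if_pos h1, if_neg (by omega), if_pos h1, mul_inv_cancel]
  · by_cases h2 : u = 0 ∧ v ≠ 0 ∧ v % 2 = 0
    · rw [if_neg h1, if_pos h2, if_pos h2, inv_mul_cancel]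
    · rw [if_neg h1, if_neg h2, if_neg h2, if_neg h1, mul_one]

theorem graphC_cocycle (γ : Fin 4 → Γ) : IsCocycle graph (graphC γ) := by
  intro u v w huvw
  have two : ∀ a b : ℕ, ({u, v, w} : Finset ℕ) ⊆ {a, b} →
      graphC γ u v * graphC γ v w = graphC γ u w := by
    intro a b h
    have mu := h (show u ∈ ({u, v, w} : Finset ℕ) by simp)
    have mv := h (show v ∈ ({u, v, w} : Finset ℕ) by simp)
    have mw := h (show w ∈ ({u, v, w} : Finset ℕ) by simp)
    simp only [Finset.mem_insert, Finset.mem_singleton] at mu mv mw
    rcases mu with rfl | rfl <;> rcases mv with rfl | rfl <;> rcases mw with rfl | rfl <;>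
      simp only [graphC_self, one_mul, mul_one, graphC_inv]
  obtain ⟨-, g, -, h | h | h⟩ := mem_graph.mp huvw
  · exact two _ _ h
  · exact two _ _ h
  · exact two _ _ h

theorem lhol_graphC (γ : Fin 4 → Γ) (g : Fin 4) : lhol (graphC γ) g = γ g := by
  have e1 : graphC γ 0 (2 * g + 1) = 1 := by
    rw [graphC, if_neg (by omega), if_neg (by omega)]
  have e2 : graphC γ (2 * g + 1) (2 * g + 2) = 1 := by
    rw [graphC, if_neg (by omega), if_neg (by omega)]
  have e3 : graphC γ (2 * g + 2) 0 = γ g := by
    rw [graphC, if_pos (by omega), genN, show (2 * (g : ℕ) + 2) / 2 - 1 = g by omega,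
      dif_pos g.2]
  rw [lhol, e1, e2, e3, one_mul, one_mul]

end

/-- NC4e -/
theorem nc4e : NC4eStatement := fun γ => ⟨graphC γ, graphC_cocycle γ, lhol_graphC γ⟩

end Pool.Agent.Lib.MP_50ef00_gt.H65
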