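import Mathlib
import Pool.Agent.Lib.MP_50ef00_gt.H65.Disc

/-!
NC1a: boundary of an oriented triangle.
-/

namespace Pool.Agent.Lib.MP_50ef00_gt.H65

open Pool.Agent.Lib.MP_50ef00_gt

variable {K : Finset (Finset ℕ)} {A : ℕ → ℕ → G2}

/-- the identity to be proved -/
def BdS (A : ℕ → ℕ → G2) (h : G2) (u v w : ℕ) (x : Cell) : Prop :=
  Dg A x (some {u, v, w}) * trc A h u v w
    = ed A h u v x + ed A (h * A u v) v w x + ed A (h * A u w) w u x

theorem bd_sorted (h : G2) {u v w : ℕ} (huv : u < v) (hvw : v < w)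
    (huu : A u u = 1) (c1 : A u v * A v w = A u w) (c2 : A u w * A w u = 1) (x : Cell) :
    BdS A h u v w x := by
  have m0 : mn {u, v, w} = u := mn_triple huv (huv.trans hvw)
  have ht : trc A h u v w = rho h := by
    rw [trc, m0, huu, mul_one, osg, if_pos (Or.inl ⟨huv, hvw⟩), one_mul]
  unfold BdS
  rw [ht]
  cases x with
  | none =>
    rw [Dg_none_some, ar_triple huv hvw, tri]
    simp only [ed]
    have e1 : h * A u v * A v w = h * A u w := by rw [mul_assoc, c1]
    have e2 : h * A u w * A w u = h := by rw [mul_assoc, c2, mul_one]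
    rw [e1, e2]
    have := cross_move h (A u v) (A u w)
    linear_combination -this
  | some s =>
    have ea : ({u, v, w} : Finset ℕ).erase u = {v, w} := by
      ext x; simp only [Finset.mem_erase, Finset.mem_insert, Finset.mem_singleton]; omega
    have eb : ({u, v, w} : Finset ℕ).erase v = {u, w} := by
      ext x; simp only [Finset.mem_erase, Finset.mem_insert, Finset.mem_singleton]; omega
    have ec : ({u, v, w} : Finset ℕ).erase w = {u, v} := by
      ext x; simp only [Finset.mem_erase, Finset.mem_insert, Finset.mem_singleton]; omega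
    have fa : ({u, v, w} : Finset ℕ).filter (· < u) = ∅ := by
      rw [Finset.filter_eq_empty_iff]
      intro x hx
      simp only [Finset.mem_insert, Finset.mem_singleton] at hx
      omega
    have fb : ({u, v, w} : Finset ℕ).filter (· < v) = {u} := by
      ext x; simp only [Finset.mem_filter, Finset.mem_insert, Finset.mem_singleton]; omega
    have fc : ({u, v, w} : Finset ℕ).filter (· < w) = {u, v} := by
      ext x; simp only [Finset.mem_filter, Finset.mem_insert, Finset.mem_singleton]; omega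
    have sa : sgn {u, v, w} u = 1 := by rw [sgn, fa]; simp
    have sb : sgn {u, v, w} v = -1 := by rw [sgn, fb]; simp
    have sc : sgn {u, v, w} w = 1 := by
      rw [sgn, fc, Finset.card_pair (by omega)]; norm_num
    rw [Dg_some_some, Finset.sum_insert (by
        simp only [Finset.mem_insert, Finset.mem_singleton]; omega),
      Finset.sum_insert (by simp only [Finset.mem_singleton]; omega), Finset.sum_singleton,
      ea, eb, ec, sa, sb, sc, m0]
    simp only [ed]
    have hwu : ({w, u} : Finset ℕ) = {u, w} := Finset.pair_comm w u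
    have hu' : ¬ (w < u) := by omega
    rw [hwu, if_neg hu', if_pos huv, if_pos hvw]
    have e2 : h * A u w * A w u = h := by rw [mul_assoc, c2, mul_one]
    rw [e2]
    have t1 : (if ({v, w} : Finset ℕ) = s then 1 * rho (A u (mn s)) else 0) * rho h
        = if s = {v, w} then rho (h * A u v) else 0 := by
      by_cases hs : s = {v, w}
      · subst hs
        rw [if_pos rfl, if_pos rfl, mn_pair hvw, rho_mul]; ring
      · rw [if_neg (Ne.symm hs), if_neg hs, zero_mul]
    have t2 : (if ({u, w} : Finset ℕ) = s then -1 * rho (A u (mn s)) else 0) * rho h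
        = if s = {u, w} then -rho h else 0 := by
      by_cases hs : s = {u, w}
      · subst hs
        rw [if_pos rfl, if_pos rfl, mn_pair (huv.trans hvw), huu, rho_one]; ring
      · rw [if_neg (Ne.symm hs), if_neg hs, zero_mul]
    have t3 : (if ({u, v} : Finset ℕ) = s then 1 * rho (A u (mn s)) else 0) * rho h
        = if s = {u, v} then rho h else 0 := by
      by_cases hs : s = {u, v}
      · subst hs
        rw [if_pos rfl, if_pos rfl, mn_pair huv, huu, rho_one]; ring
      · rw [if_neg (Ne.symm hs), if_neg hs, zero_mul]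
    rw [add_mul, add_mul, t1, t2, t3]
    ring

theorem osg_cyc (u v w : ℕ) : osg v w u = osg u v w := by
  unfold osg
  congr 1
  apply propext
  tauto

theorem osg_swap {u v w : ℕ} (h1 : u ≠ v) (h2 : v ≠ w) (h3 : u ≠ w) :
    osg u w v = -osg u v w := by
  unfold osg
  by_cases h : (u < v ∧ v < w) ∨ (v < w ∧ w < u) ∨ (w < u ∧ u < v)
  · rw [if_pos h, if_neg (by omega)]
  · rw [if_neg h, if_pos (by omega), neg_neg]

theorem bd_cyc (h : G2) {u v w : ℕ}
    (c1 : A u v * A v w = A u w) (c2 : A u v * A v u = 1)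
    (c4 : A u v * A v (mn {u, v, w}) = A u (mn {u, v, w})) (x : Cell)
    (hs : BdS A (h * A u v) v w u x) : BdS A h u v w x := by
  unfold BdS at *
  have e0 : ({v, w, u} : Finset ℕ) = {u, v, w} := by
    ext y; simp only [Finset.mem_insert, Finset.mem_singleton]; tauto
  have e1 : h * A u v * A v w = h * A u w := by rw [mul_assoc, c1]
  have e2 : h * A u v * A v u = h := by rw [mul_assoc, c2, mul_one]
  have e3 : trc A (h * A u v) v w u = trc A h u v w := by
    rw [trc, trc, osg_cyc, e0, mul_assoc, c4]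
  rw [e0, e1, e2, e3] at hs
  rw [hs]; ring

theorem bd_swap (h : G2) {u v w : ℕ} (h1 : u ≠ v) (h2 : v ≠ w) (h3 : u ≠ w)
    (c1 : A u v * A v u = 1) (c2 : A v w * A w v = 1) (c3 : A u w * A w u = 1)
    (c4 : A u v * A v w = A u w) (x : Cell)
    (hs : BdS A h u w v x) : BdS A h u v w x := by
  unfold BdS at *
  have e0 : ({u, w, v} : Finset ℕ) = {u, v, w} := by
    ext y; simp only [Finset.mem_insert, Finset.mem_singleton]; tauto
  have e3 : trc A h u w v = -trc A h u v w := by
    rw [trc, trc, osg_swap h1 h2 h3, e0]; ring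
  rw [e0, e3] at hs
  have r1 : ed A (h * A u v) v u x = -ed A h u v x := ed_rev h1 c1 x
  have r3 : ed A (h * A u w) w u x = -ed A h u w x := ed_rev h3 c3 x
  have r2 : ed A (h * A u w) w v x = -ed A (h * A u v) v w x := by
    have : h * A u w = h * A u v * A v w := by rw [mul_assoc, c4]
    rw [this]
    exact ed_rev h2 c2 x
  rw [r1, r2] at hs
  rw [r3]
  linear_combination -hs

/-- NC1a -/
theorem bd_triangle : NC1aStatement := by
  intro K A h u v w hK hA huvw h1 h2 h3 x
  have co : ∀ a b c : ℕ, a ∈ ({u, v, w} : Finset ℕ) → b ∈ ({u, v, w} : Finset ℕ) →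
      c ∈ ({u, v, w} : Finset ℕ) → A a b * A b c = A a c :=
    fun a b c ha hb hc => hA.of_subset hK huvw ha hb hc
  have self : ∀ a ∈ ({u, v, w} : Finset ℕ), A a a = 1 := fun a ha =>
    mul_eq_left.mp (co a a a ha ha ha)
  have inv : ∀ a b : ℕ, a ∈ ({u, v, w} : Finset ℕ) → b ∈ ({u, v, w} : Finset ℕ) →
      A a b * A b a = 1 := fun a b ha hb => by rw [co a b a ha hb ha, self a ha]
  have mu : u ∈ ({u, v, w} : Finset ℕ) := by simp
  have mv : v ∈ ({u, v, w} : Finset ℕ) := by simp
  have mw : w ∈ ({u, v, w} : Finset ℕ) := by simp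
  have mm : ∀ a b c : ℕ, a ∈ ({u, v, w} : Finset ℕ) → b ∈ ({u, v, w} : Finset ℕ) →
      c ∈ ({u, v, w} : Finset ℕ) → mn {a, b, c} ∈ ({u, v, w} : Finset ℕ) := by
    intro a b c ha hb hc
    have : mn {a, b, c} ∈ ({a, b, c} : Finset ℕ) := mn_mem ⟨a, by simp⟩
    simp only [Finset.mem_insert, Finset.mem_singleton] at this
    rcases this with h | h | h <;> rw [h] <;> assumption
  have base : ∀ a b c : ℕ, a ∈ ({u, v, w} : Finset ℕ) → b ∈ ({u, v, w} : Finset ℕ) →
      c ∈ ({u, v, w} : Finset ℕ) → a < b → b < c → ∀ h, BdS A h a b c x :=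
    fun a b c ha hb hc hab hbc h => bd_sorted h hab hbc (self a ha) (co a b c ha hb hc)
      (inv a c ha hc) x
  have cyc : ∀ a b c : ℕ, a ∈ ({u, v, w} : Finset ℕ) → b ∈ ({u, v, w} : Finset ℕ) →
      c ∈ ({u, v, w} : Finset ℕ) → (∀ h, BdS A h b c a x) → ∀ h, BdS A h a b c x :=
    fun a b c ha hb hc hs h => bd_cyc h (co a b c ha hb hc) (inv a b ha hb)
      (co a b _ ha hb (mm a b c ha hb hc)) x (hs _)
  have swp : ∀ a b c : ℕ, a ∈ ({u, v, w} : Finset ℕ) → b ∈ ({u, v, w} : Finset ℕ) →
      c ∈ ({u, v, w} : Finset ℕ) → a ≠ b → b ≠ c → a ≠ c → (∀ h, BdS A h a c b x) →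
      ∀ h, BdS A h a b c x :=
    fun a b c ha hb hc n1 n2 n3 hs h => bd_swap h n1 n2 n3 (inv a b ha hb) (inv b c hb hc)
      (inv a c ha hc) (co a b c ha hb hc) x (hs _)
  rcases lt_or_gt_of_ne h1 with a1 | a1 <;> rcases lt_or_gt_of_ne h2 with a2 | a2 <;>
    rcases lt_or_gt_of_ne h3 with a3 | a3
  · exact base u v w mu mv mw a1 a2 h
  · omega
  · -- u < w < v
    exact swp u v w mu mv mw h1 h2 h3 (base u w v mu mw mv a3 a2) h
  · -- w < u < v
    exact cyc u v w mu mv mw (cyc v w u mv mw mu (base w u v mw mu mv a3 a1)) h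
  · -- v < u < w
    exact swp u v w mu mv mw h1 h2 h3
      (cyc u w v mu mw mv (cyc w v u mw mv mu (base v u w mv mu mw a1 a3))) h
  · -- v < w < u
    exact cyc u v w mu mv mw (base v w u mv mw mu a2 a3) h
  · omega
  · -- w < v < u
    exact swp u v w mu mv mw h1 h2 h3 (cyc u w v mu mw mv (base w v u mw mv mu a2 a1)) h

end Pool.Agent.Lib.MP_50ef00_gt.H65
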