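import Mathlib
import Pool.Agent.Lib.MP_50ef00_gt.H65.Cocycle
import Pool.Agent.Lib.MP_50ef00_gt.H65.Bd
import Pool.Agent.Lib.MP_50ef00_gt.H1.DiscCollapse

/-!
Assembly of `NCStatement` from NC2 and NC4c, NC4d, NC4f.
-/

namespace Pool.Agent.Lib.MP_50ef00_gt.H65

open Pool.Agent.Lib.MP_50ef00_gt

theorem nc1 : NC1Statement := disc_reduction H1.nc0 bd_triangle nc4a

/-! ### the tower of complexes -/

/-- labels of an attached disc -/
theorem labels_attach {L : Finset (Finset ℕ)} {w : Word} {N : ℕ} (hw : w ≠ [])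
    (hp : GoodPath L (3 * w.length) N (wpath w)) :
    ∀ s ∈ attach L w N, ∀ v ∈ s, v < N + 3 * w.length := by
  have hlen : 0 < w.length := List.length_pos_iff.mpr hw
  have _hN := zero_lt_N hp
  intro s hs v hv
  rcases Finset.mem_union.mp hs with h | h
  · have := hp.lt s h v hv; omega
  · obtain ⟨-, i, hi, h | h | h⟩ := mem_disc.mp h
    all_goals
      have hr : ∀ j, j ≤ 3 * w.length → ring (3 * w.length) N j < N + 3 * w.length := by
        intro j hj
        rcases Nat.eq_zero_or_pos j with rfl | h0
        · rw [ring_zero]; omega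
        · rcases Nat.lt_or_ge j (3 * w.length) with h1 | h1
          · rw [ring_mid h0 h1]; omega
          · rw [show j = 3 * w.length by omega, ring_n]; omega
      have r1 := hr i (by omega)
      have r2 := hr (i + 1) (by omega)
      have l1 : wpath w i < N := GoodPath_lt hp (by omega)
      have l2 : wpath w (i + 1) < N := GoodPath_lt hp (by omega)
      have := h hv
      simp only [Finset.mem_insert, Finset.mem_singleton] at this
      rcases this with h' | h' | h' <;> omega

theorem labels_graph : ∀ s ∈ graph, ∀ v ∈ s, v < 9 := by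
  intro s hs v hv
  obtain ⟨-, g, hg, h | h | h⟩ := mem_graph.mp hs
  all_goals
    have := h hv
    simp only [Finset.mem_insert, Finset.mem_singleton] at this
    omega

theorem len_R1 : R1.length = 4 := rfl
theorem len_R2 : R2.length = 11 := rfl
theorem len_R3 : R3.length = 13 := rfl

theorem vk_ne_nil (k : ℕ) : vk k ≠ [] := by
  cases k with
  | zero => simp [vk]
  | succ k => simp [vk]

/-- first stage -/
def X1 : Finset (Finset ℕ) := attach graph R1 100
/-- second stage -/
def X2 : Finset (Finset ℕ) := attach X1 R2 200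

theorem Xcx_eq : Xcx = attach X2 R3 300 := rfl

theorem gp1 : GoodPath graph (3 * R1.length) 100 (wpath R1) :=
  good_path graph R1 100 isComplex_graph (Finset.Subset.refl _) (by simp [R1])
    (fun s hs v hv => (labels_graph s hs v hv).trans (by omega))

theorem cx1 : IsComplex X1 := isComplex_disc_union isComplex_graph _ _ _
theorem sub1 : graph ⊆ X1 := Finset.subset_union_left

theorem gp2 : GoodPath X1 (3 * R2.length) 200 (wpath R2) :=
  good_path X1 R2 200 cx1 sub1 (by simp [R2])
    (fun s hs v hv => (labels_attach (by simp [R1]) gp1 s hs v hv).trans_le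
      (by rw [len_R1]; omega))

theorem cx2 : IsComplex X2 := isComplex_disc_union cx1 _ _ _
theorem sub2 : X1 ⊆ X2 := Finset.subset_union_left

theorem gp3 : GoodPath X2 (3 * R3.length) 300 (wpath R3) :=
  good_path X2 R3 300 cx2 (sub1.trans sub2) (by simp [R3])
    (fun s hs v hv => (labels_attach (by simp [R2]) gp2 s hs v hv).trans_le
      (by rw [len_R2]; omega))

theorem cx3 : IsComplex Xcx := isComplex_disc_union cx2 _ _ _
theorem sub3 : X2 ⊆ Xcx := Finset.subset_union_left

theorem gp4 (k : ℕ) : GoodPath Xcx (3 * (vk k).length) 1000 (wpath (vk k)) :=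
  good_path Xcx (vk k) 1000 cx3 ((sub1.trans sub2).trans sub3) (vk_ne_nil k)
    (fun s hs v hv => (labels_attach (by simp [R3]) gp3 s hs v hv).trans_le
      (by rw [len_R3]; omega))

theorem cx4 (k : ℕ) : IsComplex (Kk k) := isComplex_disc_union cx3 _ _ _
theorem sub4 (k : ℕ) : Xcx ⊆ Kk k := Finset.subset_union_left

theorem graph_sub (k : ℕ) : graph ⊆ Kk k := ((sub1.trans sub2).trans sub3).trans (sub4 k)

/-! ### the torsion -/

/-- the four additional cells -/
def zc (k : ℕ) : Fin 4 → Cell := ![some (tau (3 * R1.length) 100), some (tau (3 * R2.length) 200),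
  some (tau (3 * R3.length) 300), some (tau (3 * (vk k).length) 1000)]

theorem tau_inj {n n' N N' : ℕ} (_hN : 0 < N) (hN' : 0 < N')
    (hlt : N + (n - 1) < N') : tau n N ≠ tau n' N' := by
  intro h
  have : N' ∈ tau n N := by rw [h]; simp [tau]
  simp only [tau, Finset.mem_insert, Finset.mem_singleton] at this
  omega

theorem vcells_start (k : ℕ) (B : ℕ → ℕ → G2) : VCells (Kk k) graph B ∅ (Dg B) where
  sub := graph_sub k
  notMem v hv := absurd hv (Finset.notMem_empty v)
  row v hv := absurd hv (Finset.notMem_empty v)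
  col _ _ _ := rfl
  colnone x := Dg_none_right x
  supp v hv := absurd hv (Finset.notMem_empty v)
  cyc v hv := absurd hv (Finset.notMem_empty v)

theorem t12 : some (tau (3 * R1.length) 100) ≠ (some (tau (3 * R2.length) 200) : Cell) := by
  intro h; rw [Option.some_inj] at h
  exact tau_inj (by omega) (by omega) (by rw [len_R1]; omega) h
theorem t13 : some (tau (3 * R1.length) 100) ≠ (some (tau (3 * R3.length) 300) : Cell) := by
  intro h; rw [Option.some_inj] at h
  exact tau_inj (by omega) (by omega) (by rw [len_R1]; omega) h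
theorem t14 (k : ℕ) :
    some (tau (3 * R1.length) 100) ≠ (some (tau (3 * (vk k).length) 1000) : Cell) := by
  intro h; rw [Option.some_inj] at h
  exact tau_inj (by omega) (by omega) (by rw [len_R1]; omega) h
theorem t23 : some (tau (3 * R2.length) 200) ≠ (some (tau (3 * R3.length) 300) : Cell) := by
  intro h; rw [Option.some_inj] at h
  exact tau_inj (by omega) (by omega) (by rw [len_R2]; omega) h
theorem t24 (k : ℕ) :
    some (tau (3 * R2.length) 200) ≠ (some (tau (3 * (vk k).length) 1000) : Cell) := by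
  intro h; rw [Option.some_inj] at h
  exact tau_inj (by omega) (by omega) (by rw [len_R2]; omega) h
theorem t34 (k : ℕ) :
    some (tau (3 * R3.length) 300) ≠ (some (tau (3 * (vk k).length) 1000) : Cell) := by
  intro h; rw [Option.some_inj] at h
  exact tau_inj (by omega) (by omega) (by rw [len_R3]; omega) h

theorem zc_injective (k : ℕ) : Function.Injective (zc k) := by
  have h12 := t12
  have h13 := t13
  have h14 := t14 k
  have h23 := t23
  have h24 := t24 k
  have h34 := t34 k
  intro i j hij
  fin_cases i <;> fin_cases j <;> first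
    | rfl
    | (exfalso; first
        | exact h12 hij | exact h13 hij | exact h14 hij | exact h23 hij | exact h24 hij
        | exact h34 hij | exact h12 hij.symm | exact h13 hij.symm | exact h14 hij.symm
        | exact h23 hij.symm | exact h24 hij.symm | exact h34 hij.symm)

theorem tors_iff (h2 : NC2Statement) (k : ℕ) (B : ℕ → ℕ → G2) (hB : IsCocycle (Kk k) B) (r : ℂ) :
    IsTorsOn (evenCells (Kk k)) (oddCells (Kk k)) (Dg B) r ↔
      IsTors (small1 (lhol B)) (small0 (lhol B) k) r := by
  have hg := isComplex_graph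
  have hB3 : IsCocycle Xcx B := cocycle_mono (sub4 k) hB
  have hB2 : IsCocycle X2 B := cocycle_mono sub3 hB3
  have hB1 : IsCocycle X1 B := cocycle_mono sub2 hB2
  have hB0 : IsCocycle graph B := cocycle_mono sub1 hB1
  -- the four reductions
  obtain ⟨i4, v4⟩ := nc1 graph Xcx _ _ _ B ∅ (Dg B) r hg ((sub1.trans sub2).trans sub3)
    (fun i _ => wpath_edge_graph _ i) (gp4 k) hB (vcells_start k B)
  obtain ⟨i3, v3⟩ := nc1 graph X2 _ _ _ B _ _ r hg (sub1.trans sub2)
    (fun i _ => wpath_edge_graph _ i) gp3 hB3 v4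
  obtain ⟨i2, v2⟩ := nc1 graph X1 _ _ _ B _ _ r hg sub1
    (fun i _ => wpath_edge_graph _ i) gp2 hB2 v3
  obtain ⟨i1, v1⟩ := nc1 graph graph _ _ _ B _ _ r hg (Finset.Subset.refl _)
    (fun i _ => wpath_edge_graph _ i) gp1 hB1 v2
  have start : IsTorsOn (evenCells (Kk k)) (oddCells (Kk k)) (Dg B) r ↔
      IsTorsOn (∅ ∪ evenCells (Kk k)) (oddCells (Kk k)) (Dg B) r := by
    rw [Finset.empty_union]
  rw [start]
  refine (i4.trans (i3.trans (i2.trans i1))).trans ?_
  have hV : insert (some (tau (3 * R1.length) 100)) (insert (some (tau (3 * R2.length) 200))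
      (insert (some (tau (3 * R3.length) 300)) (insert (some (tau (3 * (vk k).length) 1000)) ∅)))
      = Finset.univ.image (zc k) := by
    ext x
    simp only [Finset.mem_insert, Finset.notMem_empty, or_false, Finset.mem_image,
      Finset.mem_univ, true_and]
    constructor
    · rintro (h | h | h | h)
      · exact ⟨0, h.symm⟩
      · exact ⟨1, h.symm⟩
      · exact ⟨2, h.symm⟩
      · exact ⟨3, h.symm⟩
    · rintro ⟨i, rfl⟩
      fin_cases i
      · exact Or.inl rfl
      · exact Or.inr (Or.inl rfl)
      · exact Or.inr (Or.inr (Or.inl rfl))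
      · exact Or.inr (Or.inr (Or.inr rfl))
  rw [hV] at v1 ⊢
  have hcol : ∀ i x, updCol (updCol (updCol (updCol (Dg B) (some (tau (3 * (vk k).length) 1000))
      (pch B (wpath (vk k)) (3 * (vk k).length))) (some (tau (3 * R3.length) 300))
      (pch B (wpath R3) (3 * R3.length))) (some (tau (3 * R2.length) 200))
      (pch B (wpath R2) (3 * R2.length))) (some (tau (3 * R1.length) 100))
      (pch B (wpath R1) (3 * R1.length)) x (zc k i)
      = ∑ g, (tval (lhol B) (rels k i)).F g * loopc B g x
        + (tval (lhol B) (rels k i)).Q * (if x = none then 1 else 0) := by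
    intro i x
    rw [← (nc3 B (rels k i) hB0).2 x]
    have h12 := t12.symm
    have h13 := t13.symm
    have h14 := (t14 k).symm
    have h23 := t23.symm
    have h24 := (t24 k).symm
    have h34 := (t34 k).symm
    fin_cases i
    · show (if _ then _ else _) = _
      exact if_pos rfl
    · show (if _ then _ else _) = _
      refine (if_neg h12).trans ?_
      show (if _ then _ else _) = _
      exact if_pos rfl
    · show (if _ then _ else _) = _
      refine (if_neg h13).trans ?_
      show (if _ then _ else _) = _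
      refine (if_neg h23).trans ?_
      show (if _ then _ else _) = _
      exact if_pos rfl
    · show (if _ then _ else _) = _
      refine (if_neg h14).trans ?_
      show (if _ then _ else _) = _
      refine (if_neg h24).trans ?_
      show (if _ then _ else _) = _
      refine (if_neg h34).trans ?_
      show (if _ then _ else _) = _
      exact if_pos rfl
  have := h2 B (zc k) _ _ _ r hB0 (zc_injective k) v1 hcol
  rw [this]
  rfl

/-- the projection to `P` -/
def prP : PZ →* P where
  toFun g := g.p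
  map_one' := rfl
  map_mul' _ _ := rfl

theorem lhol_toG2 (A : ℕ → ℕ → PZ) :
    lhol (fun u v => toG2 (A u v)) = fun g => toG2 (lhol A g) := by
  funext g
  simp only [lhol, map_mul]

/-- the relators hold -/
theorem rels_of_cocycle {G : Type} [Group G] {L : Finset (Finset ℕ)} {w : Word} {N : ℕ}
    (hL : graph ⊆ L) (hp : GoodPath L (3 * w.length) N (wpath w)) {A : ℕ → ℕ → G}
    (hA : IsCocycle (attach L w N) A) : wval (lhol A) w = 1 := by
  have hA0 : IsCocycle graph A := cocycle_mono (hL.trans Finset.subset_union_left) hA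
  rw [← nc3h A w hA0]
  exact nc4a L _ N _ A hp hA

/-- extension over one stage -/
theorem stage_ext {G : Type} [Group G] {L : Finset (Finset ℕ)} {w : Word} {N : ℕ}
    (hL : graph ⊆ L) (hp : GoodPath L (3 * w.length) N (wpath w)) (hN : 9 ≤ N) {A : ℕ → ℕ → G}
    (hA : IsCocycle L A) (hw : wval (lhol A) w = 1) :
    ∃ A' : ℕ → ℕ → G, IsCocycle (attach L w N) A' ∧ lhol A' = lhol A := by
  have hA0 : IsCocycle graph A := cocycle_mono hL hA
  obtain ⟨A', hA', he⟩ := nc4b L _ N _ A hp hA ((nc3h A w hA0).trans hw)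
  refine ⟨A', hA', ?_⟩
  funext g
  have hg := g.2
  simp only [lhol]
  rw [he _ _ (by omega) (by omega), he _ _ (by omega) (by omega), he _ _ (by omega) (by omega)]

theorem hol_graph_iff (h4c : NC4cStatement) (h4d : NC4dStatement) (k : ℕ) {G : Type} [Group G]
    {A : ℕ → ℕ → G} (hA : IsCocycle (Kk k) A) (g : G) :
    Hol (Kk k) A 0 0 g ↔ g ∈ Subgroup.closure (Set.range (lhol A)) := by
  have hA3 : IsCocycle Xcx A := cocycle_mono (sub4 k) hA
  have hA2 : IsCocycle X2 A := cocycle_mono sub3 hA3
  have hA1 : IsCocycle X1 A := cocycle_mono sub2 hA2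
  have hA0 : IsCocycle graph A := cocycle_mono sub1 hA1
  have e0 := h4d A hA0 g
  have e1 : Hol X1 A 0 0 g ↔ Hol graph A 0 0 g := h4c graph _ _ _ A gp1 hA1 g
  have e2 : Hol X2 A 0 0 g ↔ Hol X1 A 0 0 g := h4c X1 _ _ _ A gp2 hA2 g
  have e3 : Hol Xcx A 0 0 g ↔ Hol X2 A 0 0 g := h4c X2 _ _ _ A gp3 hA3 g
  have e4 : Hol (Kk k) A 0 0 g ↔ Hol Xcx A 0 0 g := h4c Xcx _ _ _ A (gp4 k) hA g
  exact e4.trans (e3.trans (e2.trans (e1.trans e0)))

theorem full_iff (h4c : NC4cStatement) (h4d : NC4dStatement) (h4f : NC4fStatement) (k : ℕ)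
    {A : ℕ → ℕ → PZ} (hA : IsCocycle (Kk k) A) :
    Full (Kk k) A ↔ Subgroup.closure (Set.range (fun g => (lhol A g).p)) = ⊤ := by
  rw [h4f k A hA, Subgroup.eq_top_iff']
  have hmap : Subgroup.closure (Set.range (fun g => (lhol A g).p))
      = (Subgroup.closure (Set.range (lhol A))).map prP := by
    rw [MonoidHom.map_closure, ← Set.range_comp]
    rfl
  rw [hmap]
  refine forall_congr' fun p => ?_
  rw [Subgroup.mem_map]
  refine exists_congr fun g => ?_
  rw [hol_graph_iff h4c h4d k hA g]
  exact Iff.rfl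

/-- the reduction of `Kk k` to the small complex -/
theorem nc_of (h2 : NC2Statement) (h4c : NC4cStatement) (h4d : NC4dStatement)
    (h4f : NC4fStatement) : NCStatement := by
  intro k
  ext r
  constructor
  · rintro ⟨A, hA, hfull, hr⟩
    have hA3 : IsCocycle Xcx A := cocycle_mono (sub4 k) hA
    have hA2 : IsCocycle X2 A := cocycle_mono sub3 hA3
    have hA1 : IsCocycle X1 A := cocycle_mono sub2 hA2
    refine ⟨lhol A, ?_, (full_iff h4c h4d h4f k hA).mp hfull, ?_⟩
    · intro i
      fin_cases i
      · exact rels_of_cocycle (Finset.Subset.refl _) gp1 hA1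
      · exact rels_of_cocycle sub1 gp2 hA2
      · exact rels_of_cocycle (sub1.trans sub2) gp3 hA3
      · exact rels_of_cocycle ((sub1.trans sub2).trans sub3) (gp4 k) hA
    · rw [← lhol_toG2]
      exact (tors_iff h2 k _ (isCocycle_toG2 hA) r).mp hr
  · rintro ⟨γ, hrel, hcl, hr⟩
    obtain ⟨A0, hA0, hl0⟩ := nc4e γ
    have hl0' : lhol A0 = γ := funext hl0
    obtain ⟨A1, hA1, hl1⟩ := stage_ext (Finset.Subset.refl _) gp1 (by omega) hA0
      (by rw [hl0']; exact hrel 0)
    obtain ⟨A2, hA2, hl2⟩ := stage_ext sub1 gp2 (by omega) hA1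
      (by rw [hl1, hl0']; exact hrel 1)
    obtain ⟨A3, hA3, hl3⟩ := stage_ext (sub1.trans sub2) gp3 (by omega) hA2
      (by rw [hl2, hl1, hl0']; exact hrel 2)
    obtain ⟨A4, hA4, hl4⟩ := stage_ext ((sub1.trans sub2).trans sub3) (gp4 k) (by omega) hA3
      (by rw [hl3, hl2, hl1, hl0']; exact hrel 3)
    have hl : lhol A4 = γ := by rw [hl4, hl3, hl2, hl1, hl0']
    have hA : IsCocycle (Kk k) A4 := hA4
    refine ⟨A4, hA, (full_iff h4c h4d h4f k hA).mpr (by rw [hl]; exact hcl), ?_⟩
    rw [tors_iff h2 k _ (isCocycle_toG2 hA) r, lhol_toG2, hl]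
    exact hr

end Pool.Agent.Lib.MP_50ef00_gt.H65
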