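import Mathlib
import Pool.Agent.Lib.MP_50ef00_gt.H65.NC
import Pool.Agent.Lib.MP_50ef00_gt.H1.Relabel
import Pool.Agent.Lib.MP_50ef00_gt.H32.HolDisc
import Pool.Agent.Lib.MP_50ef00_gt.H66.Graph
import Pool.Agent.Lib.MP_50ef00_gt.H96.Eval

/-!
# MP_50ef00_gt: the negative side
The complexes `Kk k`, `k ≥ 2`, are pairwise not simple-homotopy equivalent.
-/

namespace Pool.Agent.Lib.MP_50ef00_gt.H65

open Pool.Agent.Lib.MP_50ef00_gt

/-- the invariant is invariant -/
theorem nb : NBStatement := nb_of collapse_tset H1.nb2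

/-- its value at `Kk k` -/
theorem nc : NCStatement := nc_of H66.nc2 (H32.nc4c H1.nc0) H32.nc4d H32.nc4f

/-- the negative side -/
theorem neg : ∀ k l : ℕ, 2 ≤ k → 2 ≤ l → SimpleEquiv (Kk k) (Kk l) → k = l :=
  neg_of nb nc H96.ne_statement

end Pool.Agent.Lib.MP_50ef00_gt.H65
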